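import Pool.Agent.H84.M.Loc

set_option autoImplicit false

/-!
Manifold points in locally Busemann spaces with the measure contraction property.
-/

namespace Pool.Agent.H84.M

open Set MeasureTheory Metric

/-- total boundedness from measure contraction -/
theorem MC.totallyBounded {B : Type*} [MetricSpace B] [MeasurableSpace B] [BorelSpace B]
    {G : Bus B} {m : Measure B} {N : ℕ} {c0 : ℝ} (h : MC G m N c0) {D : ℝ}
    (hD : ∀ x y : B, dist x y < D) : TotallyBounded (univ : Set B) := by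
  classical
  rw [Metric.totallyBounded_iff]
  intro ε hε
  by_contra hno
  push Not at hno
  have hno' : ∀ V : Finset B, ∃ x, ∀ v ∈ V, ε ≤ dist x v := by
    intro V
    by_contra h1
    push Not at h1
    apply hno V V.finite_toSet
    intro x _
    obtain ⟨v, hv, hd⟩ := h1 x
    exact mem_iUnion₂.2 ⟨v, hv, hd⟩
  have h1 : ∀ k : ℕ, ∃ V : Finset B, V.card = k ∧ (∀ x ∈ V, ∀ y ∈ V, x ≠ y → ε ≤ dist x y) := by
    intro k
    induction k with
    | zero => exact ⟨∅, rfl, by simp⟩
    | succ k ih =>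
      obtain ⟨V, hk, hs⟩ := ih
      obtain ⟨x, hxV⟩ := hno' V
      have hxn : x ∉ V := fun h => by have := hxV x h; rw [dist_self] at this; linarith
      refine ⟨insert x V, by rw [Finset.card_insert_of_notMem hxn, hk], fun y hy z hz hyz => ?_⟩
      rcases Finset.mem_insert.1 hy with h1 | h1 <;> rcases Finset.mem_insert.1 hz with h2 | h2
      · exact absurd (h1.trans h2.symm) hyz
      · rw [h1]; exact hxV z h2
      · rw [h2, dist_comm]; exact hxV y h1
      · exact hs y h1 z h2 hyz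
  obtain ⟨x1, _⟩ := hno' ∅
  have hD0 : 0 < D := by have := hD x1 x1; rwa [dist_self] at this
  have hmu : 0 < (m univ).toReal := h.toReal_pos isOpen_univ ⟨x1, mem_univ _⟩
  set t := min 1 (ε / (2 * D)) with ht
  have ht0 : t ∈ Ioc (0 : ℝ) 1 := ⟨lt_min one_pos (by positivity), min_le_left _ _⟩
  set κ := kap N c0 t / 2 with hκ
  have hκ0 : 0 < κ := by have := kap_pos (N := N) (c0 := c0) ht0.1; positivity
  obtain ⟨M, hM⟩ := exists_nat_gt (1 / κ)
  obtain ⟨V, hV, hs⟩ := h1 M
  have h2 := h.sep_sum hs (A := univ) (fun _ _ => subset_univ _) (a := κ * (m univ).toReal)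
    (fun x _ => by
      refine h.ball_ge MeasurableSet.univ ht0 (fun z _ => ?_) (by positivity)
      have h3 := hD x z
      have h4 : t * dist x z < t * D := by
        have := ht0.1
        gcongr
      have h5 : t * D ≤ ε / (2 * D) * D := by
        have : t ≤ ε / (2 * D) := min_le_right _ _
        gcongr
      have h6 : ε / (2 * D) * D = ε / 2 := by field_simp
      linarith)
  have h3 : (V.card : ℝ) * κ ≤ 1 := by
    have : (V.card : ℝ) * κ * (m univ).toReal ≤ 1 * (m univ).toReal := by linarith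
    exact le_of_mul_le_mul_right this hmu
  rw [hV] at h3
  have h4 : (M : ℝ) ≤ 1 / κ := by rwa [le_div_iff₀ hκ0]
  linarith

variable {X : Type*} [MetricSpace X] {S : Set X} {x0 : X} {R : ℝ}

theorem isComplete_ball (h : IsBusemann S) (hR : closedBall x0 R ⊆ S) :
    IsComplete (closedBall x0 R) := by
  intro f hf hfB
  obtain ⟨x, _, hx⟩ := h.1 f hf (hfB.trans (Filter.principal_mono.2 hR))
  refine ⟨x, ?_, hx⟩
  rw [← isClosed_closedBall.closure_eq, mem_closure_iff_clusterPt]
  have := hf.1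
  exact Filter.NeBot.mono this (le_inf hx hfB)

theorem exists_mc [MeasurableSpace X] [BorelSpace X] {m : Measure X} {K N : ℝ}
    (h : IsBusemann S) (hxS : x0 ∈ S) (hR0 : 0 < R) (hR : closedBall x0 (3 * R) ⊆ S)
    (hR' : closedBall x0 R ⊆ S) {U : Set X} (hU : closedBall x0 R ⊆ U) (hm : SatisfiesMCP m K N U)
    (hN : 1 ≤ N) (hfin : m (closedBall x0 R) < ⊤)
    (hpos : ∀ O : Set X, IsOpen O → O.Nonempty → 0 < m O) :
    ∃ c0, MC (busOf h hxS hR') (m.comap (Subtype.val : closedBall x0 R → X)) ⌈N⌉₊ c0 := by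
  obtain ⟨c0, hc0, hcoef⟩ := kap_le_coef (K := K) hN (D := 2 * R) (by positivity)
  have hme : MeasurableEmbedding (Subtype.val : closedBall x0 R → X) :=
    MeasurableEmbedding.subtype_coe isClosed_closedBall.measurableSet
  refine ⟨c0, ?_, fun O hO hne => ?_, hc0, fun p A hA hp t ht => ?_⟩
  · rw [hme.comap_apply, image_univ, Subtype.range_coe]
    exact hfin
  · rw [hme.comap_apply]
    obtain ⟨W, hW, rfl⟩ := isOpen_induced_iff.1 hO
    obtain ⟨x, hx⟩ := hne
    -- a point in the open ball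
    have hx0 : x0 ∈ closedBall x0 R := mem_closedBall_self hR0.le
    set G := busOf h hxS hR' with hG
    have hne2 : (W ∩ ball x0 R).Nonempty := by
      obtain ⟨δ, hδ, hball⟩ := Metric.isOpen_iff.1 hW x hx
      set s := min 1 (δ / (2 * R)) with hs
      have hs0 : s ∈ Ioc (0 : ℝ) 1 := ⟨lt_min one_pos (by positivity), min_le_left _ _⟩
      have hd : dist (x : X) x0 ≤ R := x.2
      refine ⟨G.g x ⟨x0, hx0⟩ s, hball ?_, ?_⟩
      · have h1 := G.hl x ⟨x0, hx0⟩ s ⟨hs0.1.le, hs0.2⟩
        rw [Subtype.dist_eq, Subtype.dist_eq] at h1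
        rw [mem_ball, dist_comm, h1]
        have h2 : s * dist (x : X) x0 ≤ δ / (2 * R) * R := by
          have : s ≤ δ / (2 * R) := min_le_right _ _
          have := hs0.1
          gcongr
        have h3 : δ / (2 * R) * R = δ / 2 := by field_simp
        linarith
      · have h1 := G.hr x ⟨x0, hx0⟩ s ⟨hs0.1.le, hs0.2⟩
        rw [Subtype.dist_eq, Subtype.dist_eq] at h1
        rw [mem_ball, h1]
        have h2 : (1 - s) * dist (x : X) x0 ≤ (1 - s) * R :=
          mul_le_mul_of_nonneg_left hd (by linarith [hs0.2])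
        have h3 : (1 - s) * R < R := by have := hs0.1; nlinarith
        linarith
    refine (hpos _ (hW.inter isOpen_ball) hne2).trans_le (measure_mono ?_)
    rintro y ⟨hy1, hy2⟩
    exact ⟨⟨y, ball_subset_closedBall hy2⟩, hy1, rfl⟩
  · rw [hme.comap_apply, hme.comap_apply]
    set A' : Set X := Subtype.val '' A with hA'
    have hA'm : MeasurableSet A' := hme.measurableSet_image.2 hA
    have hA'B : A' ⊆ closedBall x0 R := by rintro _ ⟨x, _, rfl⟩; exact x.2
    have h1 := hm p (hU p.2) A' (hA'B.trans hU) hA'm t ⟨ht.1.le, ht.2⟩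
    have h2 : geoPoints U (p : X) A' t ⊆
        Subtype.val '' ((fun x => (busOf h hxS hR').g p x t) '' A) := by
      rintro z ⟨σ, hσ, hσ0, hσ1, hσt⟩
      obtain ⟨x, hx, hxσ⟩ := hσ1
      refine ⟨_, ⟨x, hx, rfl⟩, ?_⟩
      have ht' : t ∈ Icc (0 : ℝ) 1 := ⟨ht.1.le, ht.2⟩
      have e1 := hσ.left ht'
      have e2 := hσ.right ht'
      rw [hσ0, ← hxσ, hσt] at e1
      rw [hσ0, ← hxσ, hσt] at e2
      refine (busOf_geod h hxS hR' p x ht' (hR ?_) e1 e2).symm
      rw [mem_closedBall]
      have d1 : dist (p : X) x0 ≤ R := p.2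
      have d2 : dist (x : X) x0 ≤ R := x.2
      have d3 := dist_triangle_right (p : X) x x0
      have d4 : t * dist (p : X) x ≤ 1 * dist (p : X) x :=
        mul_le_mul_of_nonneg_right ht.2 dist_nonneg
      have d5 := dist_triangle_left z x0 (p : X)
      linarith
    refine le_trans ?_ (h1.trans (measure_mono h2))
    rw [← setLIntegral_const]
    refine setLIntegral_mono' hA'm fun x hx => ENNReal.ofReal_le_ofReal ?_
    have hpx : (p : X) ≠ x := by
      rintro rfl
      obtain ⟨y, hy, hyp⟩ := hx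
      exact hp (Subtype.ext hyp ▸ hy)
    refine hcoef t ht _ (dist_pos.2 hpx) ?_
    have d1 : dist (p : X) x0 ≤ R := p.2
    have d2 : dist x x0 ≤ R := hA'B hx
    have d3 := dist_triangle_right (p : X) x x0
    linarith

/-- **Main theorem** -/
theorem exists_manifold_point [MeasurableSpace X] [BorelSpace X] {m : Measure X} {K N : ℝ}
    (hN : 1 ≤ N) (hfin : ∀ s : Set X, Bornology.IsBounded s → m s < ⊤)
    (hpos : ∀ O : Set X, IsOpen O → O.Nonempty → 0 < m O) (hX : LocallyBusemann X)
    (hm : LocalMCP m K N) (x0 : X) {ε : ℝ} (hε : 0 < ε) :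
    ∃ x, dist x x0 < ε ∧ IsManifoldPoint x := by
  obtain ⟨S, hS, h⟩ := hX x0
  obtain ⟨r, hr, hSball⟩ := Metric.mem_nhds_iff.1 hS
  have hxS : x0 ∈ S := mem_of_mem_nhds hS
  obtain ⟨U, hU, hmU⟩ := hm x0
  obtain ⟨δ, hδ, hball⟩ := Metric.mem_nhds_iff.1 hU
  set R := min (r / 4) (min (δ / 2) ε) with hR
  have hR0 : 0 < R := lt_min (by positivity) (lt_min (by positivity) hε)
  have hR1 : R ≤ r / 4 := min_le_left _ _
  have hR2 : R ≤ δ / 2 := (min_le_right _ _).trans (min_le_left _ _)
  have hR3 : R ≤ ε := (min_le_right _ _).trans (min_le_right _ _)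
  have hR3S : closedBall x0 (3 * R) ⊆ S := (closedBall_subset_ball (by linarith)).trans hSball
  have hR' : closedBall x0 R ⊆ S := (closedBall_subset_ball (by linarith)).trans hSball
  have hBU : closedBall x0 R ⊆ U := (closedBall_subset_ball (by linarith)).trans hball
  obtain ⟨c0, hmc⟩ := exists_mc h hxS hR0 hR3S hR' hBU hmU hN
    (hfin _ isBounded_closedBall) hpos
  set B := closedBall x0 R with hB
  have hx0 : x0 ∈ B := mem_closedBall_self hR0.le
  have : Nonempty B := ⟨⟨x0, hx0⟩⟩
  have hD : ∀ x y : B, dist x y < 2 * R + 1 := by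
    intro x y
    have d1 : dist (x : X) x0 ≤ R := x.2
    have d2 : dist (y : X) x0 ≤ R := y.2
    have d3 := dist_triangle_right (x : X) y x0
    rw [Subtype.dist_eq]
    linarith
  have htb := hmc.totallyBounded hD
  have hcs : CompleteSpace B := completeSpace_coe_iff_isComplete.2 (isComplete_ball h hR')
  have : CompactSpace B := ⟨isCompact_iff_totallyBounded_isComplete.2
    ⟨htb, completeSpace_iff_isComplete_univ.1 hcs⟩⟩
  set G := busOf h hxS hR' with hG
  obtain ⟨y, ρ, hρ, hO⟩ := exists_mpt hmc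
  set O : Set B := {x | dist y x < ρ ∧ dist (x : X) x0 < R} with hOd
  have hOo : IsOpen O := (isOpen_lt (continuous_const.dist continuous_id) continuous_const).inter
    (isOpen_lt (continuous_subtype_val.dist continuous_const) continuous_const)
  have hOne : O.Nonempty := by
    set s := min 1 (ρ / (2 * R)) with hs
    have hs0 : s ∈ Ioc (0 : ℝ) 1 := ⟨lt_min one_pos (by positivity), min_le_left _ _⟩
    have hd : dist (y : X) x0 ≤ R := y.2
    refine ⟨G.g y ⟨x0, hx0⟩ s, ?_, ?_⟩
    · rw [G.hl y ⟨x0, hx0⟩ s ⟨hs0.1.le, hs0.2⟩, Subtype.dist_eq]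
      have h2 : s * dist (y : X) x0 ≤ ρ / (2 * R) * R := by
        have : s ≤ ρ / (2 * R) := min_le_right _ _
        have := hs0.1
        gcongr
      have h3 : ρ / (2 * R) * R = ρ / 2 := by field_simp
      linarith
    · have h1 := G.hr y ⟨x0, hx0⟩ s ⟨hs0.1.le, hs0.2⟩
      rw [Subtype.dist_eq, Subtype.dist_eq] at h1
      rw [h1]
      have h2 : (1 - s) * dist (y : X) x0 ≤ (1 - s) * R :=
        mul_le_mul_of_nonneg_left hd (by linarith [hs0.2])
      have h3 : (1 - s) * R < R := by have := hs0.1; nlinarith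
      linarith
  obtain ⟨x, hxO, k, W, V, hW, hxW, hWO, hV, ⟨e⟩⟩ := hO O hOo hOne fun x hx => hx.1
  refine ⟨x, lt_of_lt_of_le hxO.2 hR3, k, Subtype.val '' W, V, ?_, ⟨x, hxW, rfl⟩, hV, ⟨?_⟩⟩
  · obtain ⟨W', hW', rfl⟩ := isOpen_induced_iff.1 hW
    have : Subtype.val '' (Subtype.val ⁻¹' W' : Set B) = W' ∩ ball x0 R := by
      ext z
      constructor
      · rintro ⟨w, hw, rfl⟩
        exact ⟨hw, (hWO hw).2⟩
      · rintro ⟨hz1, hz2⟩
        exact ⟨⟨z, ball_subset_closedBall hz2⟩, hz1, rfl⟩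
    rw [this]
    exact hW'.inter isOpen_ball
  · exact (Topology.IsEmbedding.subtypeVal.homeomorphImage W).symm.trans e

end Pool.Agent.H84.M
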