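import Mathlib

set_option autoImplicit false

/-!
List cochains with coefficients in `ZMod 2`.
-/

namespace Pool.Agent.H84.M

variable {B : Type*} {B' : Type*}

/-- the coboundary of a list cochain -/
def dl : (List B → ZMod 2) → List B → ZMod 2
  | _, [] => 0
  | c, a :: l => c l + dl (fun l' => c (a :: l')) l

@[simp] theorem dl_nil (c : List B → ZMod 2) : dl c [] = 0 := rfl

theorem dl_cons (c : List B → ZMod 2) (a : B) (l : List B) :
    dl c (a :: l) = c l + dl (fun l' => c (a :: l')) l := rfl

theorem z2 (a : ZMod 2) : a + a = 0 := CharTwo.add_self_eq_zero a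

theorem dl_add (l : List B) : ∀ c c' : List B → ZMod 2,
    dl (fun x => c x + c' x) l = dl c l + dl c' l := by
  induction l with
  | nil => intro c c'; simp
  | cons a l ih =>
    intro c c'
    rw [dl_cons, dl_cons, dl_cons, ih (fun l' => c (a :: l')) (fun l' => c' (a :: l'))]
    ring

theorem dl_congr (l : List B) : ∀ c c' : List B → ZMod 2,
    (∀ l' : List B, l' ⊆ l → l'.length + 1 = l.length → c l' = c' l') → dl c l = dl c' l := by
  induction l with
  | nil => intro c c' _; simp
  | cons a l ih =>
    intro c c' h
    rw [dl_cons, dl_cons]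
    congr 1
    · exact h l (List.subset_cons_self a l) rfl
    · refine ih _ _ fun l' h1 h2 => h (a :: l') (List.cons_subset_cons a h1) ?_
      simp only [List.length_cons]
      omega

theorem dl_zero (l : List B) (c : List B → ZMod 2)
    (h : ∀ l' : List B, l' ⊆ l → l'.length + 1 = l.length → c l' = 0) : dl c l = 0 := by
  rw [dl_congr l c (fun _ => 0) h]
  clear h
  induction l with
  | nil => rfl
  | cons a l ih => rw [dl_cons, ih]; rfl

theorem dl_dl (l : List B) : ∀ c : List B → ZMod 2, dl (dl c) l = 0 := by
  induction l with
  | nil => intro c; rfl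
  | cons a l ih =>
    intro c
    rw [dl_cons]
    have : (fun l' => dl c (a :: l')) = fun l' => c l' + dl (fun l' => c (a :: l')) l' := by
      funext l'; rfl
    rw [this, dl_add, ih, add_zero, z2]

theorem dl_map (f : B → B') (l : List B) : ∀ c : List B' → ZMod 2,
    dl (fun l' => c (l'.map f)) l = dl c (l.map f) := by
  induction l with
  | nil => intro c; rfl
  | cons a l ih =>
    intro c
    rw [dl_cons, List.map_cons, dl_cons, ← ih]
    simp only [List.map_cons]

/-- the prism operator -/
def pr (f g : B → B') : (List B' → ZMod 2) → List B → ZMod 2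
  | _, [] => 0
  | c, a :: l => c (f a :: g a :: l.map g) + pr f g (fun l' => c (f a :: l')) l

theorem pr_cons (f g : B → B') (c : List B' → ZMod 2) (a : B) (l : List B) :
    pr f g c (a :: l) = c (f a :: g a :: l.map g) + pr f g (fun l' => c (f a :: l')) l := rfl

theorem pr_add (f g : B → B') (l : List B) : ∀ c c' : List B' → ZMod 2,
    pr f g (fun x => c x + c' x) l = pr f g c l + pr f g c' l := by
  induction l with
  | nil => intro c c'; simp [pr]
  | cons a l ih =>
    intro c c'
    rw [pr_cons, pr_cons, pr_cons, ih (fun l' => c (f a :: l')) (fun l' => c' (f a :: l'))]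
    ring

theorem pr_dl (f g : B → B') (l : List B) : ∀ c : List B' → ZMod 2,
    dl (pr f g c) l + pr f g (dl c) l = c (l.map f) + c (l.map g) := by
  induction l with
  | nil => intro c; simp [pr, z2]
  | cons a l ih =>
    intro c
    have h1 := ih (fun l' => c (f a :: l'))
    have e1 : (fun l' => pr f g c (a :: l')) = fun l' => c (f a :: g a :: l'.map g) + pr f g (fun l' => c (f a :: l')) l' := by
      funext l'; rfl
    have e2 : (fun l' => dl c (f a :: l')) = fun l' => c l' + dl (fun l' => c (f a :: l')) l' := by
      funext l'; rfl
    have e3 := dl_map g l (fun l' => c (f a :: g a :: l'))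
    rw [dl_cons, e1, dl_add, pr_cons, e2, pr_add, dl_cons, dl_cons, List.map_cons, List.map_cons]
    rw [e3]
    have h2 : (2 : ZMod 2) = 0 := rfl
    linear_combination h1 + (pr f g c l + dl (fun l' => c (f a :: g a :: l')) (List.map g l) +
      c (f a :: List.map g l)) * h2

theorem pr_zero (f g : B → B') (l : List B) : ∀ c : List B' → ZMod 2,
    (∀ l' : List B', l'.length = l.length + 1 → (∀ x ∈ l', x ∈ l.map f ∨ x ∈ l.map g) →
      c l' = 0) → pr f g c l = 0 := by
  induction l with
  | nil => intro c _; rfl
  | cons a l ih =>
    intro c h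
    rw [pr_cons, h (f a :: g a :: l.map g) (by simp) ?_, ih _ ?_, add_zero]
    · intro l' h1 h2
      refine h _ (by simp [h1]) fun x hx => ?_
      rw [List.mem_cons] at hx
      rcases hx with rfl | hx
      · left; simp
      · rcases h2 x hx with h3 | h3
        · left; simp only [List.map_cons, List.mem_cons]; exact Or.inr h3
        · right; simp only [List.map_cons, List.mem_cons]; exact Or.inr h3
    · intro x hx
      rw [List.mem_cons, List.mem_cons] at hx
      rcases hx with rfl | rfl | hx
      · left; simp
      · right; simp
      · right; simp only [List.map_cons, List.mem_cons]; exact Or.inr hx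

end Pool.Agent.H84.M
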