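import Pool.Agent.H84.M.Fin

set_option autoImplicit false

/-!
Alexander-Spanier cohomology of compact metric spaces with coefficients in `ZMod 2`, by hand.
-/

namespace Pool.Agent.H84.M

open Set

variable {B : Type*} [MetricSpace B]

/-- the list has all entries in `S` and diameter less than `ε` -/
def Sm (S : Set B) (ε : ℝ) (l : List B) : Prop :=
  (∀ x ∈ l, x ∈ S) ∧ ∀ x ∈ l, ∀ y ∈ l, dist x y < ε

theorem Sm.mono {S T : Set B} {ε δ : ℝ} {l : List B} (h : Sm S ε l) (h1 : S ⊆ T) (h2 : ε ≤ δ) :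
    Sm T δ l :=
  ⟨fun x hx => h1 (h.1 x hx), fun x hx y hy => (h.2 x hx y hy).trans_le h2⟩

/-- relative cocycles of lists of length `n` -/
def Cyc (n : ℕ) (S A : Set B) (c : List B → ZMod 2) : Prop :=
  ∃ ε > 0, (∀ l : List B, l.length = n + 1 → Sm S ε l → dl c l = 0) ∧
    ∀ l : List B, l.length = n → Sm A ε l → c l = 0

/-- relative coboundaries -/
def Bdy (n : ℕ) (S A : Set B) (c : List B → ZMod 2) : Prop :=
  ∃ ε > 0, ∃ b : List B → ZMod 2, (∀ l : List B, l.length = n → Sm S ε l → c l = dl b l) ∧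
    ∀ l : List B, l.length + 1 = n → Sm A ε l → b l = 0

theorem Bdy.mono {n : ℕ} {S T A : Set B} {c : List B → ZMod 2} (h : Bdy n T A c) (h1 : S ⊆ T) :
    Bdy n S A c := by
  obtain ⟨ε, hε, b, h2, h3⟩ := h
  exact ⟨ε, hε, b, fun l hl hs => h2 l hl (hs.mono h1 le_rfl), h3⟩

/-- prism argument -/
theorem near_id {n : ℕ} {S : Set B} {ε : ℝ} {c : List B → ZMod 2}
    (hc : ∀ l : List B, l.length = n + 1 → Sm S ε l → dl c l = 0) {f g : B → B} {l : List B}
    (hl : l.length = n) (h1 : ∀ x ∈ l, f x ∈ S) (h2 : ∀ x ∈ l, g x ∈ S)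
    (h3 : ∀ x ∈ l, ∀ y ∈ l, dist (f x) (f y) < ε) (h4 : ∀ x ∈ l, ∀ y ∈ l, dist (g x) (g y) < ε)
    (h5 : ∀ x ∈ l, ∀ y ∈ l, dist (f x) (g y) < ε) :
    c (l.map f) + c (l.map g) = dl (pr f g c) l := by
  rw [← pr_dl, pr_zero, add_zero]
  intro l' hl' hx
  refine hc l' (by omega) ⟨fun x h => ?_, fun x h y h' => ?_⟩
  · rcases hx x h with h6 | h6
    · obtain ⟨z, hz, rfl⟩ := List.mem_map.1 h6; exact h1 z hz
    · obtain ⟨z, hz, rfl⟩ := List.mem_map.1 h6; exact h2 z hz
  · rcases hx x h with h6 | h6 <;> rcases hx y h' with h7 | h7 <;>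
      obtain ⟨z, hz, rfl⟩ := List.mem_map.1 h6 <;> obtain ⟨w, hw, rfl⟩ := List.mem_map.1 h7
    · exact h3 z hz w hw
    · exact h5 z hz w hw
    · rw [dist_comm]; exact h5 w hw z hz
    · exact h4 z hz w hw

/-- vanishing of the prism operator on lists of `A` -/
theorem pr_zero_of {n : ℕ} {A : Set B} {ε : ℝ} {c : List B → ZMod 2}
    (hc : ∀ l : List B, l.length = n → Sm A ε l → c l = 0) {f g : B → B} {l : List B}
    (hl : l.length + 1 = n) (h1 : ∀ x ∈ l, f x ∈ A) (h2 : ∀ x ∈ l, g x ∈ A)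
    (h3 : ∀ x ∈ l, ∀ y ∈ l, dist (f x) (f y) < ε) (h4 : ∀ x ∈ l, ∀ y ∈ l, dist (g x) (g y) < ε)
    (h5 : ∀ x ∈ l, ∀ y ∈ l, dist (f x) (g y) < ε) : pr f g c l = 0 := by
  refine pr_zero f g l c fun l' hl' hx => hc l' (by omega) ⟨fun x h => ?_, fun x h y h' => ?_⟩
  · rcases hx x h with h6 | h6
    · obtain ⟨z, hz, rfl⟩ := List.mem_map.1 h6; exact h1 z hz
    · obtain ⟨z, hz, rfl⟩ := List.mem_map.1 h6; exact h2 z hz
  · rcases hx x h with h6 | h6 <;> rcases hx y h' with h7 | h7 <;>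
      obtain ⟨z, hz, rfl⟩ := List.mem_map.1 h6 <;> obtain ⟨w, hw, rfl⟩ := List.mem_map.1 h7
    · exact h3 z hz w hw
    · exact h5 z hz w hw
    · rw [dist_comm]; exact h5 w hw z hz
    · exact h4 z hz w hw

/-- a function moving the points of a neighbourhood of `K` to `K`, and fixing a set -/
theorem exists_retr (K C : Set B) (η : ℝ) : ∃ r : B → B, (∀ x ∈ C, r x = x) ∧
    ∀ x, x ∉ C → (∃ y ∈ K, dist x y < η) → r x ∈ K ∧ dist x (r x) < η := by
  classical
  refine ⟨fun x => if x ∈ C then x else if h : ∃ y ∈ K, dist x y < η then h.choose else x,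
    fun x hx => if_pos hx, fun x hx h => ?_⟩
  simp only [if_neg hx, dif_pos h]
  exact h.choose_spec

/-- continuity of the cohomology -/
theorem bdy_nhds {n : ℕ} {C : Set B} {c : List B → ZMod 2} (hc : Cyc n univ C c) {K : Set B}
    (h : Bdy n (K ∪ C) C c) : ∃ η > 0, Bdy n ({x | ∃ y ∈ K, dist x y < η} ∪ C) C c := by
  obtain ⟨ε0, hε0, hc1, hc2⟩ := hc
  obtain ⟨ε1, hε1, b, hb1, hb2⟩ := h
  set η := min ε0 ε1 / 4 with hη
  have hη0 : 0 < η := by have := lt_min hε0 hε1; positivity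
  have hη1 : 4 * η ≤ ε0 := by have := min_le_left ε0 ε1; rw [hη]; linarith
  have hη2 : 4 * η ≤ ε1 := by have := min_le_right ε0 ε1; rw [hη]; linarith
  obtain ⟨r, hr1, hr2⟩ := exists_retr K C η
  have hr : ∀ x ∈ {x | ∃ y ∈ K, dist x y < η} ∪ C, r x ∈ K ∪ C ∧ dist x (r x) < η := by
    intro x hx
    by_cases hxC : x ∈ C
    · rw [hr1 x hxC, dist_self]; exact ⟨Or.inr hxC, hη0⟩
    · rcases hx with hx | hx
      · have := hr2 x hxC hx
        exact ⟨Or.inl this.1, this.2⟩
      · exact absurd hx hxC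
  refine ⟨η, hη0, η, hη0, fun l => b (l.map r) + pr id r c l, fun l hl hs => ?_,
    fun l hl hs => ?_⟩
  · have hrd : ∀ x ∈ l, ∀ y ∈ l, dist (r x) (r y) < 3 * η := by
      intro x hx y hy
      have h1 := (hr x (hs.1 x hx)).2
      have h2 := (hr y (hs.1 y hy)).2
      have h3 := hs.2 x hx y hy
      have h4 := dist_triangle4 (r x) x y (r y)
      rw [dist_comm (r x) x] at h4
      linarith
    have h1 := near_id (S := univ) (ε := ε0) (f := id) (g := r) hc1 hl (fun _ _ => mem_univ _)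
      (fun _ _ => mem_univ _) (fun x hx y hy => by have := hs.2 x hx y hy; simp only [id]; linarith)
      (fun x hx y hy => by have := hrd x hx y hy; linarith) (fun x hx y hy => by
        have h1 := (hr y (hs.1 y hy)).2
        have h3 := hs.2 x hx y hy
        have h4 := dist_triangle x y (r y)
        simp only [id]
        linarith)
    rw [List.map_id] at h1
    have h2 := hb1 (l.map r) (by simpa using hl) ⟨fun x hx => by
        obtain ⟨z, hz, rfl⟩ := List.mem_map.1 hx
        exact (hr z (hs.1 z hz)).1, fun x hx y hy => by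
        obtain ⟨z, hz, rfl⟩ := List.mem_map.1 hx
        obtain ⟨w, hw, rfl⟩ := List.mem_map.1 hy
        have := hrd z hz w hw
        linarith⟩
    rw [dl_add, dl_map, ← h2, ← h1]
    have h2 : (2 : ZMod 2) = 0 := rfl
    linear_combination (-c (l.map r)) * h2
  · have h1 : l.map r = l := by
      conv_rhs => rw [← List.map_id l]
      exact List.map_congr_left fun x hx => hr1 x (hs.1 x hx)
    have h2 : b l = 0 := hb2 l hl (hs.mono subset_rfl (by linarith))
    simp only [h1, h2, zero_add]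
    refine pr_zero_of (ε := ε0) hc2 hl (fun x hx => hs.1 x hx)
      (fun x hx => by rw [hr1 x (hs.1 x hx)]; exact hs.1 x hx)
      (fun x hx y hy => by have := hs.2 x hx y hy; simp only [id]; linarith)
      (fun x hx y hy => by
        rw [hr1 x (hs.1 x hx), hr1 y (hs.1 y hy)]
        have := hs.2 x hx y hy; linarith) (fun x hx y hy => by
        rw [hr1 y (hs.1 y hy)]
        have := hs.2 x hx y hy; simp only [id]; linarith)

/-- near points of two closed sets are near the intersection -/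
theorem exists_sep [CompactSpace B] {K A : Set B} (hK : IsClosed K) (hA : IsClosed A) {η : ℝ}
    (hη : 0 < η) : ∃ ε > 0, ∀ x ∈ K, ∀ a ∈ A, dist x a < ε →
      ∃ z, z ∈ K ∩ A ∧ dist x z < η ∧ dist a z < η := by
  set T : Set (B × B) := {p | p.1 ∈ K ∧ p.2 ∈ A ∧ ∀ z ∈ K ∩ A, ¬ (dist p.1 z < η ∧ dist p.2 z < η)}
    with hT
  have hTc : IsClosed T := by
    have h1 : T = (Prod.fst ⁻¹' K) ∩ (Prod.snd ⁻¹' A) ∩
        ⋂ z ∈ K ∩ A, {p : B × B | ¬ (dist p.1 z < η ∧ dist p.2 z < η)} := by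
      ext p
      simp only [hT, mem_ofPred_eq, mem_inter_iff, mem_preimage, mem_iInter]
      tauto
    rw [h1]
    refine ((hK.preimage continuous_fst).inter (hA.preimage continuous_snd)).inter ?_
    refine isClosed_biInter fun z _ => ?_
    have : {p : B × B | ¬ (dist p.1 z < η ∧ dist p.2 z < η)} =
        ({p : B × B | dist p.1 z < η} ∩ {p : B × B | dist p.2 z < η})ᶜ := by
      ext p; simp
    rw [this]
    refine (IsOpen.inter ?_ ?_).isClosed_compl
    · exact isOpen_lt (continuous_fst.dist continuous_const) continuous_const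
    · exact isOpen_lt (continuous_snd.dist continuous_const) continuous_const
  rcases T.eq_empty_or_nonempty with h0 | h0
  · refine ⟨1, one_pos, fun x hx a ha _ => ?_⟩
    by_contra h
    push Not at h
    have : (x, a) ∈ T := ⟨hx, ha, fun z hz h1 => absurd h1.2 (not_lt.2 (h z hz h1.1))⟩
    rw [h0] at this
    exact this
  · obtain ⟨p, hp, hmin⟩ := hTc.isCompact.exists_isMinOn h0
      (f := fun p : B × B => dist p.1 p.2) (continuous_fst.dist continuous_snd).continuousOn
    refine ⟨dist p.1 p.2, ?_, fun x hx a ha hxa => ?_⟩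
    · rw [gt_iff_lt, dist_pos]
      intro h
      refine hp.2.2 p.1 ⟨hp.1, h ▸ hp.2.1⟩ ⟨?_, ?_⟩
      · rw [dist_self]; exact hη
      · rw [← h, dist_self]; exact hη
    · by_contra h
      push Not at h
      have h1 : (x, a) ∈ T := ⟨hx, ha, fun z hz h1 => absurd h1.2 (not_lt.2 (h z hz h1.1))⟩
      have h2 := hmin h1
      simp only [mem_ofPred_eq] at h2
      linarith

/-- excision and extension -/
theorem exists_ext [CompactSpace B] {n : ℕ}
    (hmax : ∀ T : Set B, IsClosed T → ∀ e : List B → ZMod 2, Cyc (n + 1) univ T e →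
      Bdy (n + 1) univ T e) {K A : Set B} (hK : IsClosed K) (hA : IsClosed A)
    {c : List B → ZMod 2} (hc : Cyc n univ (K ∩ A) c) : ∃ c' : List B → ZMod 2, ∃ ε > 0,
      (∀ l : List B, l.length = n + 1 → Sm univ ε l → dl c' l = 0) ∧
      (∀ l : List B, l.length = n → Sm A ε l → c' l = 0) ∧
      ∀ l : List B, l.length = n → Sm K ε l → c' l = c l := by
  classical
  obtain ⟨ε0, hε0, hc1, hc2⟩ := hc
  set η := ε0 / 4 with hη
  have hη0 : 0 < η := by positivity
  obtain ⟨ε1, hε1, hsep⟩ := exists_sep hK hA hη0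
  obtain ⟨r, hr1, hr2⟩ := exists_retr (K ∩ A) K η
  set nr : B → Prop := fun x => x ∈ K ∨ ∃ z ∈ K ∩ A, dist x z < η with hnr
  have hrK : ∀ x, nr x → dist x (r x) < η := by
    intro x hx
    by_cases h : x ∈ K
    · rw [hr1 x h, dist_self]; exact hη0
    · rcases hx with hx | hx
      · exact absurd hx h
      · exact (hr2 x h hx).2
  set c2 : List B → ZMod 2 := fun l => if ∀ x ∈ l, nr x then c (l.map r) else 0 with hc2'
  set ε2 := min ε1 η with hε2
  have hε20 : 0 < ε2 := lt_min hε1 hη0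
  have hε21 : ε2 ≤ ε1 := min_le_left _ _
  have hε22 : ε2 ≤ η := min_le_right _ _
  have hrd : ∀ l : List B, (∀ x ∈ l, nr x) → (∀ x ∈ l, ∀ y ∈ l, dist x y < ε2) →
      ∀ x ∈ l, ∀ y ∈ l, dist (r x) (r y) < ε0 := by
    intro l h1 h2 x hx y hy
    have h3 := hrK x (h1 x hx)
    have h4 := hrK y (h1 y hy)
    have h5 := dist_triangle4 (r x) x y (r y)
    rw [dist_comm (r x) x] at h5
    have h6 := h2 x hx y hy
    linarith
  -- vanishing on `A`
  have hA2 : ∀ l : List B, l.length = n → Sm A ε2 l → c2 l = 0 := by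
    intro l hl hs
    simp only [hc2']
    split_ifs with h
    · refine hc2 _ (by simpa using hl) ⟨fun x hx => ?_, fun x hx y hy => ?_⟩
      · obtain ⟨z, hz, rfl⟩ := List.mem_map.1 hx
        by_cases h1 : z ∈ K
        · rw [hr1 z h1]; exact ⟨h1, hs.1 z hz⟩
        · rcases h z hz with h2 | h2
          · exact absurd h2 h1
          · exact (hr2 z h1 h2).1
      · obtain ⟨z, hz, rfl⟩ := List.mem_map.1 hx
        obtain ⟨w, hw, rfl⟩ := List.mem_map.1 hy
        exact hrd l h hs.2 z hz w hw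
    · rfl
  -- agreement on `K`
  have hK2 : ∀ l : List B, l.length = n → Sm K ε2 l → c2 l = c l := by
    intro l hl hs
    simp only [hc2']
    rw [if_pos fun x hx => Or.inl (hs.1 x hx)]
    congr 1
    conv_rhs => rw [← List.map_id l]
    exact List.map_congr_left fun x hx => hr1 x (hs.1 x hx)
  -- cocycle on the union
  have hcyc : Cyc (n + 1) univ (K ∪ A) (dl c2) := by
    refine ⟨ε2, hε20, fun l _ _ => dl_dl l c2, fun l hl hs => ?_⟩
    by_cases h : ∀ x ∈ l, nr x
    · have h1 : dl c2 l = dl (fun l' => c (l'.map r)) l := by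
        refine dl_congr l _ _ fun l' h2 _ => ?_
        simp only [hc2']
        rw [if_pos fun x hx => h x (h2 hx)]
      rw [h1, dl_map]
      refine hc1 _ (by simpa using hl) ⟨fun _ _ => mem_univ _, fun x hx y hy => ?_⟩
      obtain ⟨z, hz, rfl⟩ := List.mem_map.1 hx
      obtain ⟨w, hw, rfl⟩ := List.mem_map.1 hy
      exact hrd l h hs.2 z hz w hw
    · push Not at h
      obtain ⟨x0, hx0, hn⟩ := h
      simp only [hnr, not_or] at hn
      have hx0A : x0 ∈ A := (hs.1 x0 hx0).resolve_left hn.1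
      have hall : ∀ x ∈ l, x ∈ A := by
        intro x hx
        refine (hs.1 x hx).resolve_left fun hxK => hn.2 ?_
        obtain ⟨z, hz, _, h2⟩ := hsep x hxK x0 hx0A ((hs.2 x hx x0 hx0).trans_le hε21)
        exact ⟨z, hz, h2⟩
      refine dl_zero l c2 fun l' h1 h2 => hA2 l' (by omega) ⟨fun x hx => hall x (h1 hx),
        fun x hx y hy => hs.2 x (h1 hx) y (h1 hy)⟩
  obtain ⟨ε3, hε3, f, hf1, hf2⟩ := hmax (K ∪ A) (hK.union hA) _ hcyc
  refine ⟨fun l => c2 l + f l, min ε2 ε3, lt_min hε20 hε3, fun l hl hs => ?_, fun l hl hs => ?_,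
    fun l hl hs => ?_⟩
  · rw [dl_add, hf1 l hl (hs.mono subset_rfl (min_le_right _ _)), z2]
  · simp only
    rw [hA2 l hl (hs.mono subset_rfl (min_le_left _ _)),
      hf2 l (by omega) (hs.mono subset_union_right (min_le_right _ _)), add_zero]
  · simp only
    rw [hK2 l hl (hs.mono subset_rfl (min_le_left _ _)),
      hf2 l (by omega) (hs.mono subset_union_left (min_le_right _ _)), add_zero]

end Pool.Agent.H84.M
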