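import Mathlib

set_option autoImplicit false

/-!
Definitions: locally Busemann spaces, measure contraction property, manifold points.
-/

namespace Pool.Agent.H84.M

open Set MeasureTheory

variable {X : Type*} [MetricSpace X]

/-- `σ`, restricted to `[0, 1]`, is a constant speed geodesic with values in `S` -/
def IsGeodesicIn (S : Set X) (σ : ℝ → X) : Prop :=
  (∀ t ∈ Icc (0 : ℝ) 1, σ t ∈ S) ∧
    ∀ s ∈ Icc (0 : ℝ) 1, ∀ t ∈ Icc (0 : ℝ) 1, dist (σ s) (σ t) = |s - t| * dist (σ 0) (σ 1)

/-- `S` with the induced metric is a Busemann space: complete, geodesic, and the distance between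
two constant speed geodesics parametrised by `[0, 1]` is convex -/
def IsBusemann (S : Set X) : Prop :=
  IsComplete S ∧
    (∀ x ∈ S, ∀ y ∈ S, ∃ σ : ℝ → X, IsGeodesicIn S σ ∧ σ 0 = x ∧ σ 1 = y) ∧
    ∀ σ τ : ℝ → X, IsGeodesicIn S σ → IsGeodesicIn S τ →
      ConvexOn ℝ (Icc (0 : ℝ) 1) fun t => dist (σ t) (τ t)

/-- every point has a neighbourhood which, with the induced metric, is a Busemann space -/
def LocallyBusemann (X : Type*) [MetricSpace X] : Prop :=
  ∀ x : X, ∃ S ∈ nhds x, IsBusemann S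

/-- the function `s_κ`, for `κ ≤ 0` -/
noncomputable def sK (κ r : ℝ) : ℝ :=
  if κ < 0 then Real.sinh (Real.sqrt (-κ) * r) / Real.sqrt (-κ) else r

/-- the density of the measure contraction property at distance `d` -/
noncomputable def coef (K N t d : ℝ) : ℝ :=
  if N = 1 then t else t * (sK (K / (N - 1)) (t * d) / sK (K / (N - 1)) d) ^ (N - 1)

/-- the set `A_t`: the points of parameter `t` on the geodesics in `U` from `p` to points of `A` -/
def geoPoints (U : Set X) (p : X) (A : Set X) (t : ℝ) : Set X :=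
  {z | ∃ σ : ℝ → X, IsGeodesicIn U σ ∧ σ 0 = p ∧ σ 1 ∈ A ∧ σ t = z}

/-- the measure contraction property on the set `U` -/
def SatisfiesMCP [MeasurableSpace X] (m : Measure X) (K N : ℝ) (U : Set X) : Prop :=
  ∀ p ∈ U, ∀ A ⊆ U, MeasurableSet A → ∀ t ∈ Icc (0 : ℝ) 1,
    ∫⁻ x in A, ENNReal.ofReal (coef K N t (dist p x)) ∂m ≤ m (geoPoints U p A t)

/-- every point has a neighbourhood with the measure contraction property -/
def LocalMCP [MeasurableSpace X] (m : Measure X) (K N : ℝ) : Prop :=
  ∀ x : X, ∃ U ∈ nhds x, SatisfiesMCP m K N U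

/-- the point has an open neighbourhood homeomorphic to an open subset of some `ℝᵏ` -/
def IsManifoldPoint {X : Type*} [TopologicalSpace X] (x : X) : Prop :=
  ∃ (k : ℕ) (U : Set X) (V : Set (EuclideanSpace ℝ (Fin k))), IsOpen U ∧ x ∈ U ∧ IsOpen V ∧
    Nonempty (U ≃ₜ V)

end Pool.Agent.H84.M
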