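import Pool.Agent.H84.M.Ms

set_option autoImplicit false

/-!
Directional derivatives of distance functions.
-/

namespace Pool.Agent.H84.M

open Set

variable {B : Type*} [MetricSpace B]

namespace Bus

variable (G : Bus B)

/-- difference quotient of the distance to `a` on the geodesic from `y` to `q` -/
noncomputable def ph (a y q : B) (s : ℝ) : ℝ :=
  (dist a (G.g y q s) - dist a y) / (s * dist y q)

/-- directional derivative at `y` of the distance to `a` in the direction of `q` -/
noncomputable def D (a y q : B) : ℝ := sInf (G.ph a y q '' Ioc (0 : ℝ) 1)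

theorem ph_abs (a : B) {y q : B} (hq : y ≠ q) {s : ℝ} (hs : s ∈ Ioc (0 : ℝ) 1) :
    |G.ph a y q s| ≤ 1 := by
  have h0 : 0 < dist y q := dist_pos.2 hq
  have h1 : 0 < s * dist y q := mul_pos hs.1 h0
  unfold ph
  rw [abs_div, abs_of_pos h1, div_le_one h1]
  have h2 := G.hl y q s ⟨hs.1.le, hs.2⟩
  rw [← h2]
  have := abs_dist_sub_le (G.g y q s) y a
  rwa [dist_comm (G.g y q s) a, dist_comm y a, dist_comm (G.g y q s) y] at this

theorem bdd (a : B) {y q : B} (hq : y ≠ q) : BddBelow (G.ph a y q '' Ioc (0 : ℝ) 1) := by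
  refine ⟨-1, ?_⟩
  rintro _ ⟨s, hs, rfl⟩
  exact (abs_le.1 (G.ph_abs a hq hs)).1

theorem D_le (a : B) {y q : B} (hq : y ≠ q) {s : ℝ} (hs : s ∈ Ioc (0 : ℝ) 1) :
    G.D a y q ≤ G.ph a y q s := csInf_le (G.bdd a hq) ⟨s, hs, rfl⟩

theorem exists_lt (a y q : B) {r : ℝ} (hr : G.D a y q < r) :
    ∃ s ∈ Ioc (0 : ℝ) 1, G.ph a y q s < r := by
  obtain ⟨_, ⟨s, hs, rfl⟩, h⟩ := exists_lt_of_csInf_lt
    (((nonempty_Ioc.2 one_pos : (Ioc (0 : ℝ) 1).Nonempty)).image (G.ph a y q)) hr
  exact ⟨s, hs, h⟩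

theorem le_D (a y q : B) {r : ℝ} (h : ∀ s ∈ Ioc (0 : ℝ) 1, r ≤ G.ph a y q s) :
    r ≤ G.D a y q := by
  refine le_csInf (((nonempty_Ioc.2 one_pos : (Ioc (0 : ℝ) 1).Nonempty)).image _) ?_
  rintro _ ⟨s, hs, rfl⟩
  exact h s hs

theorem D_abs (a : B) {y q : B} (hq : y ≠ q) : |G.D a y q| ≤ 1 := by
  rw [abs_le]
  constructor
  · exact G.le_D a y q fun s hs => (abs_le.1 (G.ph_abs a hq hs)).1
  · exact (G.D_le a hq ⟨one_pos, le_rfl⟩).trans (abs_le.1 (G.ph_abs a hq ⟨one_pos, le_rfl⟩)).2

include G in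
/-- the quotient for a point of the geodesic -/
theorem quot_mono (a : B) {y z w : B} (h : Btw y z w) (hz : y ≠ z) :
    (dist a z - dist a y) / dist y z ≤ (dist a w - dist a y) / dist y w := by
  have h0 : 0 < dist y z := dist_pos.2 hz
  have h1 : 0 < dist y w := by
    unfold Btw at h
    have := dist_nonneg (x := z) (y := w)
    linarith
  rw [div_le_div_iff₀ h0 h1]
  have h2 := G.cx a h
  have h3 : dist z w = dist y w - dist y z := by unfold Btw at h; linarith
  rw [h3] at h2
  linarith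

theorem ph_eq (a : B) {y q : B} {s : ℝ} (hs : s ∈ Ioc (0 : ℝ) 1) :
    G.ph a y q s = (dist a (G.g y q s) - dist a y) / dist y (G.g y q s) := by
  unfold ph
  rw [G.hl y q s ⟨hs.1.le, hs.2⟩]

theorem g_ne {y q : B} (hq : y ≠ q) {s : ℝ} (hs : s ∈ Ioc (0 : ℝ) 1) : y ≠ G.g y q s := by
  intro h
  have h1 := G.hl y q s ⟨hs.1.le, hs.2⟩
  rw [← h, dist_self] at h1
  have h0 : 0 < dist y q := dist_pos.2 hq
  have := mul_pos hs.1 h0
  linarith

theorem D_le_quot (a : B) {y z q : B} (h : Btw y z q) (hz : y ≠ z) :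
    G.D a y q ≤ (dist a z - dist a y) / dist y z := by
  have h0 : 0 < dist y z := dist_pos.2 hz
  have hq : y ≠ q := by
    rintro rfl
    unfold Btw at h
    rw [dist_self] at h
    have := dist_nonneg (x := z) (y := y)
    linarith
  have h1 : 0 < dist y q := dist_pos.2 hq
  have hs : dist y z / dist y q ∈ Ioc (0 : ℝ) 1 := by
    refine ⟨by positivity, (div_le_one h1).2 ?_⟩
    unfold Btw at h
    have := dist_nonneg (x := z) (y := q)
    linarith
  have h2 := G.D_le a hq hs
  rw [G.ph_eq a hs, ← G.eq_g h hq] at h2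
  exact h2

theorem exists_quot_lt (a : B) {y q : B} (hq : y ≠ q) {r : ℝ} (hr : G.D a y q < r) :
    ∃ z, Btw y z q ∧ y ≠ z ∧ (dist a z - dist a y) / dist y z < r := by
  obtain ⟨s, hs, h⟩ := G.exists_lt a y q hr
  rw [G.ph_eq a hs] at h
  exact ⟨_, G.btw ⟨hs.1.le, hs.2⟩, G.g_ne hq hs, h⟩

include G in
/-- two points of a geodesic are ordered -/
theorem btw_of_le {y q z w : B} (hz : Btw y z q) (hw : Btw y w q) (h : dist y z ≤ dist y w) :
    Btw y z w := by
  by_cases hyw : y = w
  · subst hyw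
    rw [dist_self] at h
    have : y = z := dist_eq_zero.1 (le_antisymm h dist_nonneg)
    rw [← this]; exact Btw.refl_left _ _
  have h0 : 0 < dist y w := dist_pos.2 hyw
  have ht : dist y z / dist y w ∈ Icc (0 : ℝ) 1 := ⟨by positivity, (div_le_one h0).2 h⟩
  have h1 := G.btw (x := y) (y := w) ht
  have h2 : Btw y (G.g y w (dist y z / dist y w)) q := h1.left hw
  have h3 : dist y (G.g y w (dist y z / dist y w)) = dist y z := by
    rw [G.hl _ _ _ ht]; field_simp
  rw [← G.eq_of_btw h2 hz h3]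
  exact h1

theorem D_germ (a : B) {y z q : B} (h : Btw y z q) (hz : y ≠ z) : G.D a y z = G.D a y q := by
  have hq : y ≠ q := by
    rintro rfl
    unfold Btw at h
    rw [dist_self] at h
    have := dist_nonneg (x := z) (y := y)
    have h0 : 0 < dist y z := dist_pos.2 hz
    linarith
  apply le_antisymm
  · by_contra hlt
    push Not at hlt
    obtain ⟨w, hw, hyw, hlt⟩ := G.exists_quot_lt a hq hlt
    rcases le_total (dist y w) (dist y z) with h1 | h1
    · have h2 := G.D_le_quot a (G.btw_of_le hw h h1) hyw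
      linarith
    · have h2 := G.quot_mono a (G.btw_of_le h hw h1) hz
      have h3 := G.D_le_quot a (Btw.refl_right y z) hz
      linarith
  · by_contra hlt
    push Not at hlt
    obtain ⟨w, hw, hyw, hlt⟩ := G.exists_quot_lt a hz hlt
    have h2 := G.D_le_quot a (hw.left h) hyw
    linarith

theorem D_self {y q : B} (hq : y ≠ q) : G.D q y q ≤ -1 := by
  have h := G.D_le_quot q (Btw.refl_right y q) hq
  have h0 : 0 < dist y q := dist_pos.2 hq
  rw [dist_self, dist_comm q y, zero_sub, neg_div, div_self h0.ne'] at h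
  exact h

/-- the sum of opposite derivatives -/
theorem kink_nonneg (a : B) {q y q' : B} (h : Btw q y q') (hq : y ≠ q) (hq' : y ≠ q') :
    0 ≤ G.D a y q + G.D a y q' := by
  by_contra hlt
  push Not at hlt
  set e := -(G.D a y q + G.D a y q') / 2 with he
  have he0 : 0 < e := by rw [he]; linarith
  obtain ⟨z, hz, hyz, h1⟩ := G.exists_quot_lt a hq (r := G.D a y q + e) (by linarith)
  obtain ⟨z', hz', hyz', h1'⟩ := G.exists_quot_lt a hq' (r := G.D a y q' + e) (by linarith)
  -- points at the same distance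
  have hz0 : 0 < dist y z := dist_pos.2 hyz
  have hz0' : 0 < dist y z' := dist_pos.2 hyz'
  set s := min (dist y z) (dist y z') with hs
  have hs0 : 0 < s := lt_min hz0 hz0'
  have ht : s / dist y z ∈ Ioc (0 : ℝ) 1 := ⟨by positivity, (div_le_one hz0).2 (min_le_left _ _)⟩
  have ht' : s / dist y z' ∈ Ioc (0 : ℝ) 1 :=
    ⟨by positivity, (div_le_one hz0').2 (min_le_right _ _)⟩
  set x := G.g y z (s / dist y z) with hx
  set x' := G.g y z' (s / dist y z') with hx'
  have hyx : y ≠ x := G.g_ne hyz ht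
  have hyx' : y ≠ x' := G.g_ne hyz' ht'
  have hdx : dist y x = s := by
    rw [hx, G.hl y z _ ⟨ht.1.le, ht.2⟩]; field_simp
  have hdx' : dist y x' = s := by
    rw [hx', G.hl y z' _ ⟨ht'.1.le, ht'.2⟩]; field_simp
  have hb : Btw y x z := G.btw ⟨ht.1.le, ht.2⟩
  have hb' : Btw y x' z' := G.btw ⟨ht'.1.le, ht'.2⟩
  have h2 := G.quot_mono a hb hyx
  have h2' := G.quot_mono a hb' hyx'
  rw [hdx] at h2
  rw [hdx'] at h2'
  have h3 : Btw y x q := hb.left hz
  have h3' : Btw y x' q' := hb'.left hz'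
  have h4 : Btw x y x' := by
    have h5 : Btw q y x' := h3'.left' h
    have h6 : Btw q x y := h3.symm
    exact h6.right h5
  have h5 := G.cx a h4
  have h6 : dist x x' = s + s := by
    unfold Btw at h4
    rw [← h4, dist_comm x y, hdx, hdx']
  rw [h6, dist_comm x y, hdx, hdx'] at h5
  have h7 : (dist a x - dist a y) / s + (dist a x' - dist a y) / s < 0 := by
    have : G.D a y q + e + (G.D a y q' + e) = 0 := by rw [he]; ring
    linarith
  rw [← add_div, div_lt_iff₀ hs0, zero_mul] at h7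
  have h8 : s * (dist a y + dist a y) ≤ s * (dist a x + dist a x') := by linarith
  have h9 := le_of_mul_le_mul_left h8 hs0
  linarith

/-- dependence on the direction -/
theorem D_lip (a : B) {y q q' : B} (hq : y ≠ q) (hq' : y ≠ q') :
    G.D a y q ≤ G.D a y q' + 2 * dist q q' / dist y q := by
  have h0 : 0 < dist y q := dist_pos.2 hq
  have h0' : 0 < dist y q' := dist_pos.2 hq'
  rw [← sub_le_iff_le_add]
  refine G.le_D a y q' fun s hs => ?_
  have h1 := G.D_le a hq hs
  have hs' : s ∈ Icc (0 : ℝ) 1 := ⟨hs.1.le, hs.2⟩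
  have h2 := G.cv y q y q' s hs'
  rw [dist_self, mul_zero, zero_add] at h2
  have h3 := abs_le.1 (abs_dist_sub_le (G.g y q s) (G.g y q' s) a)
  rw [dist_comm (G.g y q s) a, dist_comm (G.g y q' s) a] at h3
  have h4 : |dist y q - dist y q'| ≤ dist q q' := by
    have := abs_dist_sub_le q q' y
    rwa [dist_comm q y, dist_comm q' y] at this
  have h5 := G.ph_abs a hq' hs
  have hs0 := hs.1
  -- the numerator
  have h6 : dist a (G.g y q s) - dist a y ≤ s * dist q q' + (dist a (G.g y q' s) - dist a y) := by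
    linarith [h3.2]
  have h7 : dist a (G.g y q' s) - dist a y = G.ph a y q' s * (s * dist y q') := by
    unfold ph; field_simp
  have h8 : G.ph a y q s ≤ G.ph a y q' s + 2 * dist q q' / dist y q := by
    have e1 : G.ph a y q s = (dist a (G.g y q s) - dist a y) / (s * dist y q) := rfl
    rw [e1, div_le_iff₀ (by positivity)]
    have e2 : (G.ph a y q' s + 2 * dist q q' / dist y q) * (s * dist y q) =
        G.ph a y q' s * (s * dist y q) + 2 * dist q q' * s := by field_simp
    rw [e2]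
    have e3 : G.ph a y q' s * (s * dist y q') - G.ph a y q' s * (s * dist y q) ≤ s * dist q q' := by
      have e4 : G.ph a y q' s * (s * dist y q') - G.ph a y q' s * (s * dist y q) =
          s * (G.ph a y q' s * (dist y q' - dist y q)) := by ring
      rw [e4]
      refine mul_le_mul_of_nonneg_left ?_ hs0.le
      refine (le_abs_self _).trans ?_
      rw [abs_mul, abs_sub_comm]
      calc |G.ph a y q' s| * |dist y q - dist y q'| ≤ 1 * dist q q' :=
            mul_le_mul h5 h4 (abs_nonneg _) zero_le_one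
        _ = dist q q' := one_mul _
    nlinarith
  linarith

/-- local upper estimate -/
theorem upper (a : B) {y q : B} (hq : y ≠ q) {ε : ℝ} (hε : 0 < ε) : ∃ δ > 0, ∀ y' q',
    dist y' y < δ → dist q' q < δ → y' ≠ q' ∧ ∀ z, Btw y' z q' → dist y' z ≤ δ →
      dist a z - dist a y' ≤ (G.D a y q + ε) * dist y' z := by
  obtain ⟨s, hs, h⟩ := G.exists_lt a y q (r := G.D a y q + ε) (by linarith)
  have hs' : s ∈ Icc (0 : ℝ) 1 := ⟨hs.1.le, hs.2⟩
  have h0 : 0 < dist y q := dist_pos.2 hq
  have hc : ContinuousAt (fun p : B × B => G.ph a p.1 p.2 s) (y, q) := by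
    unfold ph
    refine ContinuousAt.div ?_ ?_ ?_
    · refine ContinuousAt.sub (Continuous.continuousAt ?_) (Continuous.continuousAt ?_)
      · exact continuous_const.dist (G.continuous_g continuous_fst continuous_snd continuous_const
          fun _ => hs')
      · exact continuous_const.dist continuous_fst
    · exact (continuous_const.mul (continuous_fst.dist continuous_snd)).continuousAt
    · simp only
      have := hs.1
      positivity
  have h1 : ∀ᶠ p : B × B in nhds (y, q), G.ph a p.1 p.2 s < G.D a y q + ε :=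
    hc.eventually_lt continuousAt_const h
  rw [Metric.eventually_nhds_iff] at h1
  obtain ⟨δ1, hδ1, h1⟩ := h1
  set δ := min δ1 (s * (dist y q / 2)) with hδ
  have hs0 := hs.1
  have hδ0 : 0 < δ := lt_min hδ1 (by positivity)
  have hδ2 : δ ≤ s * (dist y q / 2) := min_le_right _ _
  have hδ4 : s * (dist y q / 2) ≤ dist y q / 2 := by
    have := hs.2
    nlinarith
  refine ⟨min δ (dist y q / 4), lt_min hδ0 (by positivity), fun y' q' hy' hq' => ?_⟩
  have hy1 : dist y' y < dist y q / 4 := hy'.trans_le (min_le_right _ _)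
  have hq1 : dist q' q < dist y q / 4 := hq'.trans_le (min_le_right _ _)
  have hd : dist y q / 2 < dist y' q' := by
    have := dist_triangle4 y y' q' q
    rw [dist_comm y y'] at this
    linarith
  have hne : y' ≠ q' := by
    rintro rfl
    rw [dist_self] at hd
    linarith
  refine ⟨hne, fun z hz hzd => ?_⟩
  by_cases hyz : y' = z
  · rw [← hyz, dist_self]; simp
  have h2 : G.ph a y' q' s < G.D a y q + ε := by
    refine h1 (y := (y', q')) ?_
    rw [Prod.dist_eq, max_lt_iff]
    exact ⟨hy'.trans_le ((min_le_left _ _).trans (min_le_left _ _)),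
      hq'.trans_le ((min_le_left _ _).trans (min_le_left _ _))⟩
  rw [G.ph_eq a hs] at h2
  have h3 : Btw y' z (G.g y' q' s) := by
    refine G.btw_of_le hz (G.btw hs') ?_
    rw [G.hl _ _ _ hs']
    have : s * (dist y q / 2) ≤ s * dist y' q' := by gcongr
    exact hzd.trans ((min_le_left _ _).trans (hδ2.trans this))
  have h4 := G.quot_mono a h3 hyz
  have h5 : 0 < dist y' z := dist_pos.2 hyz
  have h6 : (dist a z - dist a y') / dist y' z < G.D a y q + ε := lt_of_le_of_lt h4 h2
  rw [div_lt_iff₀ h5] at h6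
  exact h6.le

/-- upper semicontinuity -/
theorem usc (a : B) {y q : B} (hq : y ≠ q) {ε : ℝ} (hε : 0 < ε) : ∃ δ > 0, ∀ y' q',
    dist y' y < δ → dist q' q < δ → y' ≠ q' ∧ G.D a y' q' ≤ G.D a y q + ε := by
  obtain ⟨δ, hδ, h⟩ := G.upper a hq hε
  refine ⟨δ, hδ, fun y' q' hy' hq' => ⟨(h y' q' hy' hq').1, ?_⟩⟩
  obtain ⟨hne, h2⟩ := h y' q' hy' hq'
  have h0 : 0 < dist y' q' := dist_pos.2 hne
  set s := min 1 (δ / dist y' q') with hs
  have hs0 : s ∈ Ioc (0 : ℝ) 1 := ⟨lt_min one_pos (by positivity), min_le_left _ _⟩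
  have h3 := h2 (G.g y' q' s) (G.btw ⟨hs0.1.le, hs0.2⟩) (by
    rw [G.hl _ _ _ ⟨hs0.1.le, hs0.2⟩]
    have : s ≤ δ / dist y' q' := min_le_right _ _
    rwa [le_div_iff₀ h0] at this)
  have h4 := G.D_le_quot a (G.btw ⟨hs0.1.le, hs0.2⟩) (G.g_ne hne hs0)
  have h5 : 0 < dist y' (G.g y' q' s) := dist_pos.2 (G.g_ne hne hs0)
  refine h4.trans ?_
  rw [div_le_iff₀ h5]
  exact h3

end Bus

end Pool.Agent.H84.M
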