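import Pool.Agent.H84.M.Coh

set_option autoImplicit false

/-!
Finite dimension: vanishing of the cohomology in high degrees, and a minimal carrier of a class of
maximal degree.
-/

namespace Pool.Agent.H84.M

open Set

variable {B : Type*} [MetricSpace B]

/-- separated sets of diameter less than five times the separation have at most `M` points -/
def Mult (B : Type*) [MetricSpace B] (M : ℕ) : Prop :=
  ∀ ε : ℝ, 0 < ε → ∀ τ : Finset B, (∀ x ∈ τ, ∀ y ∈ τ, x ≠ y → ε ≤ dist x y) →
    (∀ x ∈ τ, ∀ y ∈ τ, dist x y < 5 * ε) → τ.card ≤ M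

theorem exists_net [CompactSpace B] (A : Set B) {ε : ℝ} (hε : 0 < ε) :
    ∃ V : Finset B, (∀ v ∈ V, v ∈ A) ∧ (∀ x ∈ V, ∀ y ∈ V, x ≠ y → ε ≤ dist x y) ∧
      ∀ x ∈ A, ∃ v ∈ V, dist x v < ε := by
  classical
  by_contra hno
  push Not at hno
  have h1 : ∀ k : ℕ, ∃ V : Finset B, V.card = k ∧ (∀ v ∈ V, v ∈ A) ∧
      (∀ x ∈ V, ∀ y ∈ V, x ≠ y → ε ≤ dist x y) := by
    intro k
    induction k with
    | zero => exact ⟨∅, rfl, by simp, by simp⟩
    | succ k ih =>
      obtain ⟨V, hk, hA, hs⟩ := ih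
      obtain ⟨x, hx, hxV⟩ := hno V hA hs
      have hxn : x ∉ V := fun h => by have := hxV x h; rw [dist_self] at this; linarith
      refine ⟨insert x V, by rw [Finset.card_insert_of_notMem hxn, hk], fun v hv => ?_,
        fun y hy z hz hyz => ?_⟩
      · rcases Finset.mem_insert.1 hv with rfl | hv
        · exact hx
        · exact hA v hv
      · rcases Finset.mem_insert.1 hy with h1 | h1 <;> rcases Finset.mem_insert.1 hz with h2 | h2
        · exact absurd (h1.trans h2.symm) hyz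
        · rw [h1]; exact hxV z h2
        · rw [h2, dist_comm]; exact hxV y h1
        · exact hs y h1 z h2 hyz
  obtain ⟨t, _, htf, ht⟩ := finite_cover_balls_of_compact (isCompact_univ (X := B)) (half_pos hε)
  obtain ⟨V, hk, _, hs⟩ := h1 (htf.toFinset.card + 1)
  have h2 : ∀ x : B, ∃ y ∈ htf.toFinset, dist x y < ε / 2 := by
    intro x
    have := ht (mem_univ x)
    rw [mem_iUnion₂] at this
    obtain ⟨y, hy, hxy⟩ := this
    exact ⟨y, htf.mem_toFinset.2 hy, hxy⟩
  choose f hf1 hf2 using h2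
  obtain ⟨x, hx, y, hy, hxy, he⟩ := Finset.exists_ne_map_eq_of_card_lt_of_maps_to
    (s := V) (t := htf.toFinset) (f := f) (by omega) (fun x _ => hf1 x)
  have h3 := hs x hx y hy hxy
  have h4 := hf2 x
  have h5 := hf2 y
  rw [← he] at h5
  have h6 := dist_triangle_right x y (f x)
  linarith

theorem vanish [CompactSpace B] {M : ℕ} (hM : Mult B M) {n : ℕ} (hn : 2 * M < n) (A : Set B)
    {c : List B → ZMod 2} (hc : Cyc n univ A c) : Bdy n univ A c := by
  classical
  obtain ⟨ε0, hε0, hc1, hc2⟩ := hc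
  set ε := ε0 / 5 with hε
  have hε' : 0 < ε := by positivity
  obtain ⟨V1, hV1A, hV1s, hV1n⟩ := exists_net A hε'
  obtain ⟨V2, _, hV2s, hV2n⟩ := exists_net (univ : Set B) hε'
  have hr : ∀ x : B, ∃ v, v ∈ V1 ∪ V2 ∧ (x ∈ A → v ∈ A) ∧ dist x v < ε := by
    intro x
    by_cases hx : x ∈ A
    · obtain ⟨v, hv, h⟩ := hV1n x hx
      exact ⟨v, Finset.mem_union_left _ hv, fun _ => hV1A v hv, h⟩
    · obtain ⟨v, hv, h⟩ := hV2n x (mem_univ x)
      exact ⟨v, Finset.mem_union_right _ hv, fun h => absurd h hx, h⟩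
  choose r hr1 hr2 hr3 using hr
  set S : Finset (Finset B) := (V1 ∪ V2).powerset.filter fun τ => ∀ x ∈ τ, ∀ y ∈ τ, dist x y < 5 * ε
    with hS
  have hcard : ∀ σ ∈ S, σ.card < n := by
    intro σ hσ
    rw [hS, Finset.mem_filter, Finset.mem_powerset] at hσ
    have h1 : σ.card ≤ (σ ∩ V1).card + (σ ∩ V2).card := by
      refine le_trans (Finset.card_le_card ?_) (Finset.card_union_le _ _)
      intro x hx
      rcases Finset.mem_union.1 (hσ.1 hx) with h | h
      · exact Finset.mem_union_left _ (Finset.mem_inter.2 ⟨hx, h⟩)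
      · exact Finset.mem_union_right _ (Finset.mem_inter.2 ⟨hx, h⟩)
    have h2 : (σ ∩ V1).card ≤ M := hM ε hε' _
      (fun x hx y hy => hV1s x (Finset.mem_inter.1 hx).2 y (Finset.mem_inter.1 hy).2)
      (fun x hx y hy => hσ.2 x (Finset.mem_inter.1 hx).1 y (Finset.mem_inter.1 hy).1)
    have h3 : (σ ∩ V2).card ≤ M := hM ε hε' _
      (fun x hx y hy => hV2s x (Finset.mem_inter.1 hx).2 y (Finset.mem_inter.1 hy).2)
      (fun x hx y hy => hσ.2 x (Finset.mem_inter.1 hx).1 y (Finset.mem_inter.1 hy).1)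
    omega
  have hSsm : ∀ l : List B, l.toFinset ∈ S → Sm univ ε0 l := by
    intro l hl
    rw [hS, Finset.mem_filter] at hl
    refine ⟨fun _ _ => mem_univ _, fun x hx y hy => ?_⟩
    have := hl.2 x (List.mem_toFinset.2 hx) y (List.mem_toFinset.2 hy)
    rw [hε] at this
    linarith
  obtain ⟨b, hb1, hb2⟩ := nerve_acyclic n c (fun τ => ∀ x ∈ τ, x ∈ A)
    (fun σ τ h1 h2 x hx => h2 x (h1 hx)) _ S (fun _ => Classical.dec _) rfl (by
      intro σ hσ τ hτ
      rw [hS, Finset.mem_filter, Finset.mem_powerset] at hσ ⊢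
      exact ⟨hτ.trans hσ.1, fun x hx y hy => hσ.2 x (hτ hx) y (hτ hy)⟩) hcard (by
      intro l hl h1 h2
      exact hc2 l hl ⟨fun x hx => h2 x (List.mem_toFinset.2 hx), (hSsm l h1).2⟩) (by
      intro l hl h1
      exact hc1 l hl (hSsm l h1))
  have hrr : ∀ l : List B, (∀ x ∈ l, ∀ y ∈ l, dist x y < ε) →
      ∀ x ∈ l, ∀ y ∈ l, dist (r x) (r y) < 3 * ε := by
    intro l h x hx y hy
    have h1 := hr3 x
    have h2 := hr3 y
    have h3 := h x hx y hy
    have h4 := dist_triangle4 (r x) x y (r y)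
    rw [dist_comm (r x) x] at h4
    linarith
  have h5 : 5 * ε = ε0 := by rw [hε]; ring
  have hmix : ∀ l : List B, (∀ x ∈ l, ∀ y ∈ l, dist x y < ε) →
      ∀ x ∈ l, ∀ y ∈ l, dist x (r y) < ε0 := by
    intro l h x hx y hy
    have h2 := hr3 y
    have h3 := h x hx y hy
    have h4 := dist_triangle x y (r y)
    linarith
  refine ⟨ε, hε', fun l => b (l.map r) + pr id r c l, fun l hl hs => ?_, fun l hl hs => ?_⟩
  · have h1 := near_id (S := univ) (ε := ε0) (f := id) (g := r) hc1 hl (fun _ _ => mem_univ _)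
      (fun _ _ => mem_univ _) (fun x hx y hy => by have := hs.2 x hx y hy; simp only [id]; linarith)
      (fun x hx y hy => by have := hrr l hs.2 x hx y hy; linarith) (fun x hx y hy => by
        simp only [id]
        exact hmix l hs.2 x hx y hy)
    rw [List.map_id] at h1
    have h2 := hb1 (l.map r) (by simpa using hl) (by
      rw [hS, Finset.mem_filter, Finset.mem_powerset]
      refine ⟨fun x hx => ?_, fun x hx y hy => ?_⟩
      · obtain ⟨z, hz, rfl⟩ := List.mem_map.1 (List.mem_toFinset.1 hx)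
        exact hr1 z
      · obtain ⟨z, hz, rfl⟩ := List.mem_map.1 (List.mem_toFinset.1 hx)
        obtain ⟨w, hw, rfl⟩ := List.mem_map.1 (List.mem_toFinset.1 hy)
        have := hrr l hs.2 z hz w hw
        linarith)
    rw [dl_add, dl_map, ← h2, ← h1]
    have h2 : (2 : ZMod 2) = 0 := rfl
    linear_combination (-c (l.map r)) * h2
  · have h2 : b (l.map r) = 0 := by
      refine hb2 _ fun x hx => ?_
      obtain ⟨z, hz, rfl⟩ := List.mem_map.1 (List.mem_toFinset.1 hx)
      exact hr2 z (hs.1 z hz)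
    simp only [h2, zero_add]
    exact pr_zero_of (ε := ε0) hc2 hl (fun x hx => hs.1 x hx)
      (fun x hx => hr2 x (hs.1 x hx))
      (fun x hx y hy => by have := hs.2 x hx y hy; simp only [id]; linarith)
      (fun x hx y hy => by have := hrr l hs.2 x hx y hy; linarith) (fun x hx y hy => by
        simp only [id]
        exact hmix l hs.2 x hx y hy)

/-- the top degree -/
theorem exists_top [CompactSpace B] [Nonempty B] {M : ℕ} (hM : Mult B M) :
    ∃ n : ℕ, (∃ C : Set B, IsClosed C ∧ ∃ c, Cyc n univ C c ∧ ¬ Bdy n univ C c) ∧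
      ∀ T : Set B, IsClosed T → ∀ e : List B → ZMod 2, Cyc (n + 1) univ T e →
        Bdy (n + 1) univ T e := by
  classical
  set Q : ℕ → Prop := fun n => ∃ C : Set B, IsClosed C ∧ ∃ c, Cyc n univ C c ∧ ¬ Bdy n univ C c
    with hQ
  have h1 : Q 1 := by
    refine ⟨∅, isClosed_empty, fun _ => 1, ⟨1, one_pos, fun l hl _ => ?_, fun l hl hs => ?_⟩, ?_⟩
    · match l, hl with
      | [x, y], _ =>
        simp only [dl_cons, dl_nil, add_zero]
        rfl
    · match l, hl with
      | [x], _ => exact absurd (hs.1 x (by simp)) (notMem_empty _)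
    · rintro ⟨ε, hε, b, hb1, hb2⟩
      obtain ⟨x⟩ := ‹Nonempty B›
      have h1 := hb1 [x] rfl ⟨fun _ _ => mem_univ _, fun y hy z hz => by
        simp only [List.mem_singleton] at hy hz
        rw [hy, hz, dist_self]; exact hε⟩
      have h2 := hb2 [] rfl ⟨fun y hy => by simp at hy, fun y hy => by simp at hy⟩
      rw [dl_cons, h2, dl_nil, add_zero] at h1
      exact one_ne_zero h1
  have h2 : ∀ n, 2 * M + 1 < n + 1 → ¬ Q n := by
    rintro n hn ⟨C, _, c, hc, hb⟩
    exact hb (vanish hM (by omega) C hc)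
  set N := Nat.findGreatest Q (2 * M + 1) with hN
  have h3 : Q N := Nat.findGreatest_spec (P := Q) (m := 1) (by omega) h1
  refine ⟨N, h3, fun T hT e he => ?_⟩
  by_contra hb
  have h4 : Q (N + 1) := ⟨T, hT, e, he, hb⟩
  by_cases h5 : N + 1 ≤ 2 * M + 1
  · exact Nat.findGreatest_is_greatest (P := Q) (n := 2 * M + 1) (k := N + 1) (by omega) h5 h4
  · exact h2 (N + 1) (by omega) h4

/-- a minimal carrier -/
theorem exists_carrier [CompactSpace B] {n : ℕ} {C : Set B} {c : List B → ZMod 2}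
    (hc : Cyc n univ C c) (hb : ¬ Bdy n univ C c) : ∃ K : Set B, IsClosed K ∧
      ¬ Bdy n (K ∪ C) C c ∧ ∀ K' : Set B, IsClosed K' → K' ⊆ K → K' ≠ K → Bdy n (K' ∪ C) C c := by
  set F : Set (Set B) := {K | IsClosed K ∧ ¬ Bdy n (K ∪ C) C c} with hF
  obtain ⟨K, hK⟩ := zorn_superset F (by
    intro ch hch hchain
    rcases ch.eq_empty_or_nonempty with rfl | hne
    · exact ⟨univ, ⟨isClosed_univ, by rwa [univ_union]⟩, fun s hs => absurd hs (notMem_empty _)⟩
    refine ⟨⋂₀ ch, ⟨isClosed_sInter fun s hs => (hch hs).1, fun h => ?_⟩,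
      fun s hs => sInter_subset_of_mem hs⟩
    obtain ⟨η, hη, h1⟩ := bdy_nhds hc h
    have hopen : IsOpen {x | ∃ y ∈ ⋂₀ ch, dist x y < η} := by
      have : {x | ∃ y ∈ ⋂₀ ch, dist x y < η} = ⋃ y ∈ ⋂₀ ch, Metric.ball y η := by
        ext x; simp [Metric.mem_ball]
      rw [this]
      exact isOpen_biUnion fun y _ => Metric.isOpen_ball
    have : Nonempty ch := hne.to_subtype
    have hdir : Directed (· ⊇ ·) (fun s : ch => (s : Set B)) := by
      intro s t
      rcases hchain.total s.2 t.2 with h | h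
      · exact ⟨s, subset_rfl, h⟩
      · exact ⟨t, h, subset_rfl⟩
    obtain ⟨s, hs⟩ := exists_subset_nhds_of_isCompact (V := fun s : ch => (s : Set B))
      hdir (fun s => (hch s.2).1.isCompact)
      (U := {x | ∃ y ∈ ⋂₀ ch, dist x y < η}) (by
        intro x hx
        refine hopen.mem_nhds ⟨x, ?_, by rw [dist_self]; exact hη⟩
        rw [sInter_eq_iInter]
        exact hx)
    exact (hch s.2).2 (h1.mono (union_subset_union_left _ hs)))
  refine ⟨K, hK.prop.1, hK.prop.2, fun K' h1 h2 h3 => ?_⟩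
  by_contra h4
  exact h3 (Subset.antisymm h2 (hK.le_of_le (y := K') ⟨h1, h4⟩ h2))

end Pool.Agent.H84.M
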