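import Pool.Agent.H84.M.Chain

set_option autoImplicit false

/-!
Vanishing of the cohomology of a finite complex above its dimension.
-/

namespace Pool.Agent.H84.M

variable {B : Type*} [DecidableEq B]

omit [DecidableEq B] in
theorem dl_shift (c : List B → ZMod 2) (v : B) (l : List B) :
    c l = dl (fun l' => c (v :: l')) l + dl c (v :: l) := by
  rw [dl_cons]
  have h2 : (2 : ZMod 2) = 0 := rfl
  linear_combination (-dl (fun l' => c (v :: l')) l) * h2

theorem simplex_acyclic (σ : Finset B) : ∀ n : ℕ, σ.card < n → ∀ c : List B → ZMod 2,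
    (∀ l : List B, l.length = n → l.toFinset ⊆ σ → l.toFinset ≠ σ → c l = 0) →
    (∀ l : List B, l.length = n + 1 → l.toFinset ⊆ σ → dl c l = 0) →
    ∃ b : List B → ZMod 2, (∀ l : List B, l.toFinset ≠ σ → b l = 0) ∧
      ∀ l : List B, l.length = n → l.toFinset ⊆ σ → c l = dl b l := by
  induction σ using Finset.induction_on with
  | empty =>
    intro n hn c _ _
    refine ⟨fun _ => 0, fun _ _ => rfl, fun l hl h => ?_⟩
    rw [Finset.subset_empty, List.toFinset_eq_empty_iff] at h
    subst h
    simp at hl
    simp at hn
    omega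
  | insert v τ hv ih =>
    intro n hn c hs hd
    rw [Finset.card_insert_of_notMem hv] at hn
    obtain ⟨n, rfl⟩ : ∃ k, n = k + 1 := ⟨n - 1, by omega⟩
    set b0 : List B → ZMod 2 := fun l' => c (v :: l') with hb0
    have hc : ∀ l : List B, l.length = n + 1 → l.toFinset ⊆ insert v τ → c l = dl b0 l := by
      intro l hl h
      rw [dl_shift c v l, hd (v :: l) (by simp [hl]) ?_, add_zero]
      rw [List.toFinset_cons]
      exact Finset.insert_subset (Finset.mem_insert_self _ _) h
    obtain ⟨e, he1, he2⟩ := ih n (by omega) b0 (by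
      intro l hl h1 h2
      refine hs (v :: l) (by simp [hl]) ?_ ?_
      · rw [List.toFinset_cons]; exact Finset.insert_subset_insert _ h1
      · rw [List.toFinset_cons]
        intro h3
        apply h2
        have hvl : v ∉ l.toFinset := fun h => hv (h1 h)
        have := congrArg (fun s => Finset.erase s v) h3
        simpa [Finset.erase_insert hvl, Finset.erase_insert hv] using this) (by
      intro l hl h
      rw [← hc l hl (h.trans (Finset.subset_insert _ _))]
      refine hs l hl (h.trans (Finset.subset_insert _ _)) fun h3 => hv ?_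
      rw [h3] at h
      exact h (Finset.mem_insert_self _ _))
    have key : ∀ l : List B, l.length = n → l.toFinset ⊆ insert v τ → l.toFinset ≠ insert v τ →
        b0 l + dl e l = 0 := by
      intro l hl h1 h2
      by_cases h3 : l.toFinset = τ
      · rw [he2 l hl h3.le, z2]
      · have h4 : ¬ τ ⊆ l.toFinset := by
          intro h4
          by_cases h5 : v ∈ l.toFinset
          · exact h2 (Finset.Subset.antisymm h1 (Finset.insert_subset h5 h4))
          · refine h3 (Finset.Subset.antisymm (fun x hx => ?_) h4)
            rcases Finset.mem_insert.1 (h1 hx) with rfl | h6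
            · exact absurd hx h5
            · exact h6
        have h5 : b0 l = 0 := by
          refine hs (v :: l) (by simp [hl]) ?_ ?_
          · rw [List.toFinset_cons]
            exact Finset.insert_subset (Finset.mem_insert_self _ _) h1
          · rw [List.toFinset_cons]
            intro h6
            apply h4
            intro x hx
            have h7 : x ∈ insert v l.toFinset := by rw [h6]; exact Finset.mem_insert_of_mem hx
            rcases Finset.mem_insert.1 h7 with rfl | h8
            · exact absurd hx hv
            · exact h8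
        have h6 : dl e l = 0 := by
          refine dl_zero l e fun l' h7 _ => he1 l' fun h8 => h4 ?_
          rw [← h8]
          intro x hx
          rw [List.mem_toFinset] at hx ⊢
          exact h7 hx
        rw [h5, h6, add_zero]
    refine ⟨fun l => if l.toFinset = insert v τ then b0 l + dl e l else 0, fun l hl => if_neg hl,
      fun l hl h => ?_⟩
    have h1 : dl (fun l => if l.toFinset = insert v τ then b0 l + dl e l else 0) l =
        dl (fun l => b0 l + dl e l) l := by
      refine dl_congr l _ _ fun l' h2 h3 => ?_
      split_ifs with h4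
      · rfl
      · refine (key l' (by omega) ?_ h4).symm
        refine Finset.Subset.trans ?_ h
        intro x hx
        rw [List.mem_toFinset] at hx ⊢
        exact h2 hx
    rw [h1, dl_add, dl_dl, add_zero, hc l hl h]

theorem nerve_acyclic (n : ℕ) (c : List B → ZMod 2) (A : Finset B → Prop)
    (hA : ∀ σ τ, τ ⊆ σ → A σ → A τ) : ∀ (m : ℕ) (S : Finset (Finset B)) (_ : DecidablePred A),
    (S.filter fun σ => ¬ A σ).card = m →
    (∀ σ ∈ S, ∀ τ, τ ⊆ σ → τ ∈ S) → (∀ σ ∈ S, σ.card < n) →
    (∀ l : List B, l.length = n → l.toFinset ∈ S → A l.toFinset → c l = 0) →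
    (∀ l : List B, l.length = n + 1 → l.toFinset ∈ S → dl c l = 0) →
    ∃ b : List B → ZMod 2, (∀ l : List B, l.length = n → l.toFinset ∈ S → c l = dl b l) ∧
      ∀ l : List B, A l.toFinset → b l = 0 := by
  intro m
  induction m with
  | zero =>
    intro S _ hm _ _ h0 _
    refine ⟨fun _ => 0, fun l hl h => ?_, fun _ _ => rfl⟩
    have h1 : A l.toFinset := by
      by_contra h2
      have : l.toFinset ∈ S.filter fun σ => ¬ A σ := Finset.mem_filter.2 ⟨h, h2⟩
      rw [Finset.card_eq_zero] at hm
      rw [hm] at this
      simp at this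
    rw [h0 l hl h h1]
    exact (dl_zero l _ fun _ _ _ => rfl).symm
  | succ m ih =>
    intro S _ hm hdown hcard h0 hd
    have hne : (S.filter fun σ => ¬ A σ).Nonempty := by
      rw [← Finset.card_pos, hm]; omega
    obtain ⟨σ, hσ, hmax⟩ := Finset.exists_max_image _ Finset.card hne
    rw [Finset.mem_filter] at hσ
    have hS' : ∀ ρ ∈ S.erase σ, ∀ τ, τ ⊆ ρ → τ ∈ S.erase σ := by
      intro ρ hρ τ hτ
      rw [Finset.mem_erase] at hρ ⊢
      refine ⟨?_, hdown ρ hρ.2 τ hτ⟩
      rintro rfl
      have h1 : ρ ∈ S.filter fun σ => ¬ A σ :=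
        Finset.mem_filter.2 ⟨hρ.2, fun h => hσ.2 (hA _ _ hτ h)⟩
      have h2 := hmax ρ h1
      exact hρ.1 (Finset.eq_of_subset_of_card_le hτ h2).symm
    have hm' : ((S.erase σ).filter fun σ => ¬ A σ).card = m := by
      rw [Finset.filter_erase, Finset.card_erase_of_mem (Finset.mem_filter.2 hσ), hm]
      rfl
    obtain ⟨b', hb1, hb2⟩ := ih (S.erase σ) inferInstance hm' hS'
      (fun ρ hρ => hcard ρ (Finset.mem_of_mem_erase hρ))
      (fun l hl h => h0 l hl (Finset.mem_of_mem_erase h))
      (fun l hl h => hd l hl (Finset.mem_of_mem_erase h))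
    obtain ⟨e, he1, he2⟩ := simplex_acyclic σ n (hcard σ hσ.1) (fun l => c l + dl b' l) (by
      intro l hl h1 h2
      rw [hb1 l hl (Finset.mem_erase.2 ⟨h2, hdown σ hσ.1 _ h1⟩), z2]) (by
      intro l hl h
      rw [dl_add, dl_dl, add_zero, hd l hl (hdown σ hσ.1 _ h)])
    refine ⟨fun l => b' l + e l, fun l hl h => ?_, fun l h => ?_⟩
    · rw [dl_add]
      by_cases h1 : l.toFinset = σ
      · rw [← he2 l hl h1.le]
        have h2 : (2 : ZMod 2) = 0 := rfl
        linear_combination (-dl b' l) * h2
      · have h2 : l.toFinset ∈ S.erase σ := Finset.mem_erase.2 ⟨h1, h⟩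
        rw [hb1 l hl h2, dl_zero l e, add_zero]
        intro l' h3 _
        refine he1 l' fun h4 => ?_
        have h5 : σ ∈ S.erase σ := by
          refine hS' _ h2 σ ?_
          rw [← h4]
          intro x hx
          rw [List.mem_toFinset] at hx ⊢
          exact h3 hx
        simp at h5
    · simp only
      rw [hb2 l h, he1 l, add_zero]
      rintro rfl
      exact hσ.2 h

end Pool.Agent.H84.M
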