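import Pool.Agent.H84.M.Smo

set_option autoImplicit false

/-!
Distance coordinates at a generic point.
-/

namespace Pool.Agent.H84.M

open Set

variable {B : Type*} [MetricSpace B]

/-- two-sided estimate near a smooth point -/
theorem Good.two_sided [CompactSpace B] {y0 : B} {ρ : ℝ} (h : Good B y0 ρ) (G : Bus B) {a o : B}
    (ho : dist y0 o < ρ) (hs : Smooth G a o) {q : B} (hq : o ≠ q) {ε : ℝ} (hε : 0 < ε) :
    ∃ δ > 0, ∀ y, dist y o < δ → ∀ z, Btw y z q → dist y z ≤ δ →
      |dist a z - dist a y - G.D a o q * dist y z| ≤ ε * dist y z := by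
  obtain ⟨w, hw, hwρ⟩ := h.ex o ho q hq.symm
  have how : o ≠ w := by
    rintro rfl
    rw [dist_self] at hwρ
    exact h.pos.ne hwρ
  obtain ⟨δ1, hδ1, h1⟩ := G.upper a hq hε
  obtain ⟨δ2, hδ2, h2⟩ := G.upper a how hε
  obtain ⟨δ3, hδ3, h3⟩ := h.cont hq.symm hw hwρ hδ2
  have hr : 0 < ρ - dist y0 o := by linarith
  have hρ := h.pos
  have hsm := hs q w hw hq how
  refine ⟨min (min δ1 δ2) (min δ3 (min (ρ - dist y0 o) ρ)),
    lt_min (lt_min hδ1 hδ2) (lt_min hδ3 (lt_min hr hρ)), fun y hy z hz hzd => ?_⟩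
  have b1 := hy.trans_le ((min_le_left _ _).trans (min_le_left _ _))
  have b2 := hy.trans_le ((min_le_left _ _).trans (min_le_right _ _))
  have b3 := hy.trans_le ((min_le_right _ _).trans (min_le_left _ _))
  have b4 := hy.trans_le ((min_le_right _ _).trans ((min_le_right _ _).trans (min_le_left _ _)))
  have c1 := hzd.trans ((min_le_left _ _).trans (min_le_left _ _))
  have c2 := hzd.trans ((min_le_left _ _).trans (min_le_right _ _))
  have c5 := hzd.trans ((min_le_right _ _).trans ((min_le_right _ _).trans (min_le_right _ _)))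
  obtain ⟨hne, h4⟩ := h1 y q b1 (by rw [dist_self]; exact hδ1)
  have h5 := h4 z hz c1
  have hy0 : dist y0 y < ρ := by
    have := dist_triangle y0 o y
    rw [dist_comm o y] at this
    linarith
  obtain ⟨w', hw', hwρ'⟩ := h.ex y hy0 q hne.symm
  have h6 := h3 q y w' (by rw [dist_self]; exact hδ3) b3 hw' hwρ'
  obtain ⟨hne', h7⟩ := h2 y w' b2 h6
  by_cases hyz : y = z
  · rw [← hyz, dist_self]; simp
  have h0 : 0 < dist y z := dist_pos.2 hyz
  -- the opposite point
  have ht : dist y z / ρ ∈ Ioc (0 : ℝ) 1 := ⟨by positivity, (div_le_one hρ).2 c5⟩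
  set z' := G.g y w' (dist y z / ρ) with hz'
  have hb : Btw y z' w' := G.btw ⟨ht.1.le, ht.2⟩
  have hd : dist y z' = dist y z := by
    rw [hz', G.hl _ _ _ ⟨ht.1.le, ht.2⟩, hwρ']; field_simp
  have h8 := h7 z' hb (by rw [hd]; exact c2)
  rw [hd] at h8
  have h9 : Btw z y z' := by
    have e1 : Btw q y z' := hb.left' hw'
    exact hz.symm.right e1
  have h10 := G.cx a h9
  have h11 : dist z z' = dist y z + dist y z := by
    have e := h9
    unfold Btw at e
    rw [← e, dist_comm z y, hd]
  rw [h11, dist_comm z y, hd] at h10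
  have h12 : dist y z * (dist a y + dist a y) ≤ dist y z * (dist a z + dist a z') := by linarith
  have h13 := le_of_mul_le_mul_left h12 h0
  have h14 : G.D a o w * dist y z ≤ -G.D a o q * dist y z := by
    apply mul_le_mul_of_nonneg_right _ h0.le
    linarith
  rw [abs_le]
  constructor
  · linarith
  · linarith

/-- a frame -/
structure Frame {n : ℕ} (G : Bus B) (Q : Set B) (o : B) (a q : Fin n → B) : Prop where
  ha : ∀ i, a i ∈ Q
  hq : ∀ j, o ≠ q j
  det : (Matrix.of fun i j => G.D (a i) o (q j)).det ≠ 0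

/-- the data of the base point -/
structure Base (G : Bus B) (Q : Set B) (y0 : B) (ρ : ℝ) (o : B) : Prop where
  good : Good B y0 ρ
  ho : dist y0 o < ρ
  sm : ∀ a ∈ Q, Smooth G a o
  dense : Dense Q

variable {G : Bus B} {Q : Set B} {y0 o : B} {ρ : ℝ}

theorem Base.opp [CompactSpace B] (hb : Base G Q y0 ρ o) {a : B} (ha : a ∈ Q) {q z : B}
    (hq : o ≠ q) (hz : Btw q o z) (hoz : o ≠ z) : G.D a o z = -G.D a o q := by
  have h1 := hb.sm a ha q z hz hq hoz
  have h2 := G.kink_nonneg a hz hq hoz
  linarith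

/-- one step -/
theorem Base.step [CompactSpace B] (hb : Base G Q y0 ρ o) {n : ℕ} {a q : Fin n → B}
    (hf : Frame G Q o a q) {ε : ℝ} (hε : 0 < ε) : ∃ δ > 0, ∀ y, dist y o < δ → ∀ j, ∀ s : ℝ,
      |s| ≤ δ → ∃ z, dist y z = |s| ∧
        ∀ i, |dist (a i) z - dist (a i) y - s * G.D (a i) o (q j)| ≤ ε * |s| := by
  have h1 : ∀ j, ∃ δ > 0, ∀ y, dist y o < δ → ∀ s : ℝ, |s| ≤ δ → ∃ z, dist y z = |s| ∧
      ∀ i, |dist (a i) z - dist (a i) y - s * G.D (a i) o (q j)| ≤ ε * |s| := by
    intro j
    obtain ⟨w, hw, hwρ⟩ := hb.good.ex o hb.ho (q j) (hf.hq j).symm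
    have how : o ≠ w := by
      rintro rfl
      rw [dist_self] at hwρ
      exact hb.good.pos.ne hwρ
    have h2 : ∀ i, ∃ δ > 0, ∀ y, dist y o < δ → ∀ z, (Btw y z (q j) → dist y z ≤ δ →
        |dist (a i) z - dist (a i) y - G.D (a i) o (q j) * dist y z| ≤ ε * dist y z) ∧
        (Btw y z w → dist y z ≤ δ →
        |dist (a i) z - dist (a i) y + G.D (a i) o (q j) * dist y z| ≤ ε * dist y z) := by
      intro i
      obtain ⟨δ1, hδ1, e1⟩ := hb.good.two_sided G hb.ho (hb.sm _ (hf.ha i)) (hf.hq j) hε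
      obtain ⟨δ2, hδ2, e2⟩ := hb.good.two_sided G hb.ho (hb.sm _ (hf.ha i)) how hε
      refine ⟨min δ1 δ2, lt_min hδ1 hδ2, fun y hy z => ⟨fun h3 h4 => ?_, fun h3 h4 => ?_⟩⟩
      · exact e1 y (hy.trans_le (min_le_left _ _)) z h3 (h4.trans (min_le_left _ _))
      · have := e2 y (hy.trans_le (min_le_right _ _)) z h3 (h4.trans (min_le_right _ _))
        rw [hb.opp (hf.ha i) (hf.hq j) hw how] at this
        rwa [neg_mul, sub_neg_eq_add] at this
    choose δ hδ h2 using h2
    obtain ⟨δ', hδ', hle⟩ : ∃ δ' > 0, ∀ i, δ' ≤ δ i := by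
      rcases n.eq_zero_or_pos with rfl | hn
      · exact ⟨1, one_pos, fun i => i.elim0⟩
      · have hne : (Finset.univ : Finset (Fin n)).Nonempty := ⟨⟨0, hn⟩, Finset.mem_univ _⟩
        obtain ⟨i0, _, hi0⟩ := Finset.exists_min_image Finset.univ δ hne
        exact ⟨δ i0, hδ i0, fun i => hi0 i (Finset.mem_univ i)⟩
    have hd1 : 0 < dist o (q j) := dist_pos.2 (hf.hq j)
    have hd2 : 0 < dist o w := dist_pos.2 how
    refine ⟨min δ' (min (dist o (q j) / 2) (dist o w / 2)),
      lt_min hδ' (lt_min (by positivity) (by positivity)), fun y hy s hs => ?_⟩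
    have b1 : dist y o < dist o (q j) / 2 :=
      hy.trans_le ((min_le_right _ _).trans (min_le_left _ _))
    have b2 : dist y o < dist o w / 2 := hy.trans_le ((min_le_right _ _).trans (min_le_right _ _))
    have c1 : |s| ≤ dist o (q j) / 2 := hs.trans ((min_le_right _ _).trans (min_le_left _ _))
    have c2 : |s| ≤ dist o w / 2 := hs.trans ((min_le_right _ _).trans (min_le_right _ _))
    have d1 : |s| ≤ dist y (q j) := by
      have := dist_triangle_left o (q j) y
      linarith
    have d2 : |s| ≤ dist y w := by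
      have := dist_triangle_left o w y
      linarith
    rcases le_total 0 s with h0 | h0
    · rw [abs_of_nonneg h0] at *
      have e0 : 0 < dist y (q j) := by
        have := dist_triangle_left o (q j) y
        linarith
      have ht : s / dist y (q j) ∈ Icc (0 : ℝ) 1 := ⟨by positivity, (div_le_one e0).2 d1⟩
      have e1 : dist y (G.g y (q j) (s / dist y (q j))) = s := by
        rw [G.hl _ _ _ ht]; field_simp
      refine ⟨_, e1, fun i => ?_⟩
      have := (h2 i y (hy.trans_le ((min_le_left _ _).trans (hle i))) _).1 (G.btw ht) (by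
        rw [e1]; exact hs.trans ((min_le_left _ _).trans (hle i)))
      rw [e1] at this
      rwa [mul_comm s]
    · rw [abs_of_nonpos h0] at *
      have e0 : 0 < dist y w := by
        have := dist_triangle_left o w y
        linarith
      have ht : (-s) / dist y w ∈ Icc (0 : ℝ) 1 :=
        ⟨div_nonneg (by linarith) e0.le, (div_le_one e0).2 d2⟩
      have e1 : dist y (G.g y w ((-s) / dist y w)) = -s := by
        rw [G.hl _ _ _ ht]; field_simp
      refine ⟨_, e1, fun i => ?_⟩
      have := (h2 i y (hy.trans_le ((min_le_left _ _).trans (hle i))) _).2 (G.btw ht) (by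
        rw [e1]; exact hs.trans ((min_le_left _ _).trans (hle i)))
      rw [e1] at this
      have e2 : dist (a i) (G.g y w (-s / dist y w)) - dist (a i) y - s * G.D (a i) o (q j) =
          dist (a i) (G.g y w (-s / dist y w)) - dist (a i) y + G.D (a i) o (q j) * -s := by ring
      rw [e2]
      exact this
  choose δ hδ h1 using h1
  obtain ⟨δ', hδ', hle⟩ : ∃ δ' > 0, ∀ i, δ' ≤ δ i := by
    rcases n.eq_zero_or_pos with rfl | hn
    · exact ⟨1, one_pos, fun i => i.elim0⟩
    · have hne : (Finset.univ : Finset (Fin n)).Nonempty := ⟨⟨0, hn⟩, Finset.mem_univ _⟩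
      obtain ⟨i0, _, hi0⟩ := Finset.exists_min_image Finset.univ δ hne
      exact ⟨δ i0, hδ i0, fun i => hi0 i (Finset.mem_univ i)⟩
  exact ⟨δ', hδ', fun y hy j s hs => h1 j y (hy.trans_le (hle j)) s (hs.trans (hle j))⟩

/-- several steps -/
theorem Base.steps [CompactSpace B] (hb : Base G Q y0 ρ o) {n : ℕ} {a q : Fin n → B}
    (hf : Frame G Q o a q) {ε : ℝ} (hε : 0 < ε) : ∃ δ > 0, ∀ y, dist y o < δ →
      ∀ s : Fin n → ℝ, ∑ j, |s j| ≤ δ → ∃ z, dist y z ≤ ∑ j, |s j| ∧
        ∀ i, |dist (a i) z - dist (a i) y - ∑ j, s j * G.D (a i) o (q j)| ≤ ε * ∑ j, |s j| := by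
  obtain ⟨δ, hδ, h1⟩ := hb.step hf hε
  refine ⟨δ / 2, by positivity, fun y hy s hs => ?_⟩
  have key : ∀ J : Finset (Fin n), ∃ z, dist y z ≤ ∑ j ∈ J, |s j| ∧
      ∀ i, |dist (a i) z - dist (a i) y - ∑ j ∈ J, s j * G.D (a i) o (q j)| ≤
        ε * ∑ j ∈ J, |s j| := by
    intro J
    induction J using Finset.induction_on with
    | empty => exact ⟨y, by simp, by simp⟩
    | insert j J hj ih =>
      obtain ⟨z, hz1, hz2⟩ := ih
      have hJ : ∑ j ∈ J, |s j| ≤ δ / 2 := (Finset.sum_le_sum_of_subset_of_nonneg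
        (Finset.subset_univ J) fun _ _ _ => abs_nonneg _).trans hs
      have hj' : |s j| ≤ δ := by
        have := Finset.single_le_sum (f := fun j => |s j|) (fun _ _ => abs_nonneg _)
          (Finset.mem_univ j)
        linarith
      obtain ⟨w, hw1, hw2⟩ := h1 z (by
        have := dist_triangle_left z o y
        linarith) j (s j) hj'
      refine ⟨w, ?_, fun i => ?_⟩
      · rw [Finset.sum_insert hj]
        have := dist_triangle y z w
        linarith
      · rw [Finset.sum_insert hj, Finset.sum_insert hj]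
        have e1 : dist (a i) w - dist (a i) y - (s j * G.D (a i) o (q j) +
            ∑ j ∈ J, s j * G.D (a i) o (q j)) = (dist (a i) w - dist (a i) z -
              s j * G.D (a i) o (q j)) + (dist (a i) z - dist (a i) y -
                ∑ j ∈ J, s j * G.D (a i) o (q j)) := by ring
        rw [e1]
        refine (abs_add_le _ _).trans ?_
        have := hw2 i
        have := hz2 i
        linarith
  exact key Finset.univ

/-- the coordinates -/
noncomputable def crd {n : ℕ} (a : Fin n → B) (x : B) : Fin n → ℝ := fun i => dist (a i) x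

theorem crd_lip {n : ℕ} (a : Fin n → B) (x y : B) (i : Fin n) : |crd a x i - crd a y i| ≤ dist x y := by
  unfold crd
  have := abs_dist_sub_le x y (a i)
  rwa [dist_comm x, dist_comm y] at this

theorem crd_cont {n : ℕ} (a : Fin n → B) : Continuous (crd a) :=
  continuous_pi fun _ => continuous_const.dist continuous_id

/-- the coordinates are open near the base point -/
theorem Base.surj [CompactSpace B] (hb : Base G Q y0 ρ o) {n : ℕ} {a q : Fin n → B}
    (hf : Frame G Q o a q) : ∃ δ > 0, ∃ C > 0, ∀ y, dist y o < δ → ∀ v : Fin n → ℝ,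
      dist (crd a y) v < δ → ∃ z, crd a z = v ∧ dist y z ≤ C * dist (crd a y) v := by
  set A : Matrix (Fin n) (Fin n) ℝ := Matrix.of fun i j => G.D (a i) o (q j) with hA
  have hdet : IsUnit A.det := isUnit_iff_ne_zero.2 hf.det
  -- the constant
  obtain ⟨C, hC, hCb⟩ : ∃ C > 0, ∀ u : Fin n → ℝ, ∑ j, |(A⁻¹.mulVec u) j| ≤ C * ‖u‖ := by
    refine ⟨∑ j, ∑ i, |A⁻¹ j i| + 1, by positivity, fun u => ?_⟩
    have h1 : ∑ j, |(A⁻¹.mulVec u) j| ≤ (∑ j, ∑ i, |A⁻¹ j i|) * ‖u‖ := by
      rw [Finset.sum_mul]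
      refine Finset.sum_le_sum fun j _ => ?_
      rw [Finset.sum_mul]
      have e1 : (A⁻¹.mulVec u) j = ∑ i, A⁻¹ j i * u i := rfl
      rw [e1]
      refine (Finset.abs_sum_le_sum_abs _ _).trans (Finset.sum_le_sum fun i _ => ?_)
      rw [abs_mul]
      refine mul_le_mul_of_nonneg_left ?_ (abs_nonneg _)
      exact norm_le_pi_norm u i
    have h2 := norm_nonneg u
    nlinarith
  obtain ⟨δ, hδ, h1⟩ := hb.steps hf (ε := 1 / (2 * C)) (by positivity)
  set lam := 1 / (4 * C) with hlam
  have hlam0 : 0 < lam := by positivity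
  refine ⟨min (δ / 2) (δ / (8 * C)), lt_min (by positivity) (by positivity), 4 * C, by positivity,
    fun y hy v hv => ?_⟩
  have hy1 : dist y o < δ / 2 := hy.trans_le (min_le_left _ _)
  have hv1 : dist (crd a y) v < δ / (8 * C) := hv.trans_le (min_le_right _ _)
  -- minimize
  obtain ⟨z, _, hmin⟩ := (isCompact_univ (X := B)).exists_isMinOn ⟨y, mem_univ _⟩
    (f := fun z => dist (crd a z) v + lam * dist y z)
    (((crd_cont a).dist continuous_const).add
      (continuous_const.mul (continuous_const.dist continuous_id))).continuousOn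
  have hz0 : dist (crd a z) v + lam * dist y z ≤ dist (crd a y) v := by
    have := hmin (mem_univ y)
    simp only [mem_ofPred_eq, dist_self, mul_zero, add_zero] at this
    exact this
  have hz1 : dist y z ≤ 4 * C * dist (crd a y) v := by
    have h2 := dist_nonneg (x := crd a z) (y := v)
    have h3 : lam * dist y z ≤ dist (crd a y) v := by linarith
    rw [hlam, div_mul_eq_mul_div, one_mul, div_le_iff₀ (by positivity)] at h3
    linarith
  have hz2 : dist (crd a z) v ≤ dist (crd a y) v := by
    have : 0 ≤ lam * dist y z := by positivity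
    linarith
  have hz3 : dist y z < δ / 2 := by
    refine hz1.trans_lt ?_
    have : 4 * C * dist (crd a y) v < 4 * C * (δ / (8 * C)) := by gcongr
    have e : 4 * C * (δ / (8 * C)) = δ / 2 := by field_simp; norm_num
    linarith
  refine ⟨z, ?_, hz1⟩
  by_contra hne
  have hE : 0 < dist (crd a z) v := dist_pos.2 hne
  set u : Fin n → ℝ := v - crd a z with hu
  have hun : ‖u‖ = dist (crd a z) v := by rw [hu, dist_comm, dist_eq_norm]
  set s := A⁻¹.mulVec u with hs
  have hs1 : ∑ j, |s j| ≤ C * dist (crd a z) v := by rw [← hun]; exact hCb u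
  have hsδ : ∑ j, |s j| ≤ δ := by
    refine hs1.trans ?_
    have h2 : C * dist (crd a z) v ≤ C * (δ / (8 * C)) := by
      gcongr
      exact hz2.trans hv1.le
    have e : C * (δ / (8 * C)) = δ / 8 := by field_simp
    linarith
  obtain ⟨w, hw1, hw2⟩ := h1 z (by
    have := dist_triangle_left z o y
    linarith) s hsδ
  have hAs : A.mulVec s = u := by
    rw [hs, Matrix.mulVec_mulVec, Matrix.mul_nonsing_inv A hdet, Matrix.one_mulVec]
  have hw3 : dist (crd a w) v ≤ dist (crd a z) v / 2 := by
    rw [dist_pi_le_iff (by positivity)]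
    intro i
    rw [Real.dist_eq]
    have h3 := hw2 i
    have h4 : ∑ j, s j * G.D (a i) o (q j) = v i - dist (a i) z := by
      have := congrFun hAs i
      simp only [Matrix.mulVec, dotProduct, hA, Matrix.of_apply, hu, Pi.sub_apply, crd] at this
      rw [← this]
      exact Finset.sum_congr rfl fun j _ => mul_comm _ _
    rw [h4] at h3
    have h5 : dist (a i) w - dist (a i) z - (v i - dist (a i) z) = crd a w i - v i := by
      unfold crd; ring
    rw [h5] at h3
    refine h3.trans ?_
    calc 1 / (2 * C) * ∑ j, |s j| ≤ 1 / (2 * C) * (C * dist (crd a z) v) := by gcongr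
      _ = dist (crd a z) v / 2 := by field_simp
  have hw4 := hmin (mem_univ w)
  simp only [mem_ofPred_eq] at hw4
  have hw5 := dist_triangle y z w
  have hw6 : lam * dist y w ≤ lam * (dist y z + C * dist (crd a z) v) := by
    gcongr
    linarith
  have hw7 : lam * (dist y z + C * dist (crd a z) v) = lam * dist y z + dist (crd a z) v / 4 := by
    rw [hlam]; field_simp
  linarith

end Pool.Agent.H84.M
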