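import Mathlib

set_option autoImplicit false

/-!
Uniquely geodesic spaces with convex distance.
-/

namespace Pool.Agent.H84.M

open Set

/-- `y` lies between `x` and `z` -/
def Btw {B : Type*} [MetricSpace B] (x y z : B) : Prop := dist x y + dist y z = dist x z

/-- a space with unique geodesics and convex distance, with its geodesics -/
structure Bus (B : Type*) [MetricSpace B] where
  /-- the point of parameter `t` on the geodesic from `x` to `y` -/
  g : B → B → ℝ → B
  hl : ∀ x y t, t ∈ Icc (0 : ℝ) 1 → dist x (g x y t) = t * dist x y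
  hr : ∀ x y t, t ∈ Icc (0 : ℝ) 1 → dist (g x y t) y = (1 - t) * dist x y
  cv : ∀ x y x' y' t, t ∈ Icc (0 : ℝ) 1 →
    dist (g x y t) (g x' y' t) ≤ (1 - t) * dist x x' + t * dist y y'
  un : ∀ x y z t, t ∈ Icc (0 : ℝ) 1 → dist x z = t * dist x y → dist z y = (1 - t) * dist x y →
    z = g x y t

section btw

variable {B : Type*} [MetricSpace B] {x y z w : B}

theorem Btw.symm (h : Btw x y z) : Btw z y x := by
  unfold Btw at *; rw [dist_comm z y, dist_comm y x, dist_comm z x]; linarith

theorem Btw.right (h1 : Btw x y z) (h2 : Btw x z w) : Btw y z w := by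
  unfold Btw at *
  have h3 := dist_triangle x y w
  have h4 := dist_triangle y z w
  linarith

theorem Btw.left (h1 : Btw x y z) (h2 : Btw x z w) : Btw x y w := by
  have h := h1.right h2
  unfold Btw at *
  linarith

theorem Btw.right' (h1 : Btw y z w) (h2 : Btw x y w) : Btw x z w :=
  (Btw.left h1.symm h2.symm).symm

theorem Btw.left' (h1 : Btw y z w) (h2 : Btw x y w) : Btw x y z :=
  (Btw.right h1.symm h2.symm).symm

theorem Btw.refl_left (x y : B) : Btw x x y := by unfold Btw; rw [dist_self, zero_add]

theorem Btw.refl_right (x y : B) : Btw x y y := by unfold Btw; rw [dist_self, add_zero]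

end btw

namespace Bus

variable {B : Type*} [MetricSpace B] (G : Bus B)

theorem btw {x y : B} {t : ℝ} (ht : t ∈ Icc (0 : ℝ) 1) : Btw x (G.g x y t) y := by
  unfold Btw; rw [G.hl x y t ht, G.hr x y t ht]; ring

@[simp] theorem g_zero (x y : B) : G.g x y 0 = x := by
  have := G.hl x y 0 ⟨le_rfl, zero_le_one⟩
  rw [zero_mul, dist_eq_zero] at this
  exact this.symm

@[simp] theorem g_one (x y : B) : G.g x y 1 = y := by
  have := G.hr x y 1 ⟨zero_le_one, le_rfl⟩
  rw [sub_self, zero_mul, dist_eq_zero] at this
  exact this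

theorem g_self (x : B) {t : ℝ} (ht : t ∈ Icc (0 : ℝ) 1) : G.g x x t = x := by
  have := G.hl x x t ht
  rw [dist_self, mul_zero, dist_eq_zero] at this
  exact this.symm

theorem eq_g {x y z : B} (h : Btw x z y) (hxy : x ≠ y) : z = G.g x y (dist x z / dist x y) := by
  have h0 : 0 < dist x y := dist_pos.2 hxy
  have h1 : dist x z ≤ dist x y := by
    unfold Btw at h
    have := dist_nonneg (x := z) (y := y)
    linarith
  refine G.un x y z _ ⟨by positivity, (div_le_one h0).2 h1⟩ ?_ ?_
  · field_simp
  · unfold Btw at h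
    field_simp
    linarith

include G in
theorem eq_of_btw {x y z w : B} (hz : Btw x z y) (hw : Btw x w y) (h : dist x z = dist x w) :
    z = w := by
  by_cases hxy : x = y
  · subst hxy
    unfold Btw at hz hw
    rw [dist_self] at hz hw
    have h1 := dist_nonneg (x := x) (y := z)
    have h2 := dist_nonneg (x := z) (y := x)
    have h3 := dist_nonneg (x := x) (y := w)
    have h4 := dist_nonneg (x := w) (y := x)
    have h5 : dist x z = 0 := by linarith
    have h6 : dist x w = 0 := by linarith
    rw [dist_eq_zero] at h5 h6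
    rw [← h5, ← h6]
  · rw [G.eq_g hz hxy, G.eq_g hw hxy, h]

include G in
/-- convexity of the distance to a point -/
theorem cx {x y z : B} (a : B) (h : Btw x y z) :
    dist a y * dist x z ≤ dist y z * dist a x + dist x y * dist a z := by
  by_cases hxz : x = z
  · subst hxz
    rw [dist_self, mul_zero]
    positivity
  · have h0 : 0 < dist x z := dist_pos.2 hxz
    have h1 : dist x y ≤ dist x z := by
      unfold Btw at h
      have := dist_nonneg (x := y) (y := z)
      linarith
    have ht : dist x y / dist x z ∈ Icc (0 : ℝ) 1 := ⟨by positivity, (div_le_one h0).2 h1⟩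
    have h2 := G.cv a a x z _ ht
    rw [G.g_self a ht, ← G.eq_g h hxz] at h2
    have h3 : dist y z = dist x z - dist x y := by unfold Btw at h; linarith
    rw [h3]
    have h4 := mul_le_mul_of_nonneg_right h2 h0.le
    have h5 : ((1 - dist x y / dist x z) * dist a x + dist x y / dist x z * dist a z) * dist x z =
        (dist x z - dist x y) * dist a x + dist x y * dist a z := by
      field_simp
    linarith

theorem dist_g (x y : B) {s t : ℝ} (hs : s ∈ Icc (0 : ℝ) 1) (ht : t ∈ Icc (0 : ℝ) 1)
    (hst : s ≤ t) : dist (G.g x y s) (G.g x y t) = (t - s) * dist x y := by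
  rcases eq_or_lt_of_le ht.1 with h0 | h0
  · have h1 : s = 0 := le_antisymm (by linarith) hs.1
    rw [h1, ← h0]; simp
  · have hst' : s / t ∈ Icc (0 : ℝ) 1 := ⟨div_nonneg hs.1 h0.le, (div_le_one h0).2 hst⟩
    have h1 : G.g x (G.g x y t) (s / t) = G.g x y s := by
      have e1 : dist x (G.g x (G.g x y t) (s / t)) = s * dist x y := by
        rw [G.hl _ _ _ hst', G.hl _ _ _ ht]; field_simp
      have e2 := G.hr x (G.g x y t) (s / t) hst'
      rw [G.hl _ _ _ ht] at e2
      have e3 : (1 - s / t) * (t * dist x y) = (t - s) * dist x y := by field_simp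
      rw [e3] at e2
      have e4 := G.hr x y t ht
      have e5 := dist_triangle (G.g x (G.g x y t) (s / t)) (G.g x y t) y
      have e6 := dist_triangle x (G.g x (G.g x y t) (s / t)) y
      refine G.un x y _ s hs e1 ?_
      rw [e1] at e6
      apply le_antisymm
      · nlinarith
      · linarith
    have h2 := G.hr x (G.g x y t) (s / t) hst'
    rw [h1, G.hl _ _ _ ht] at h2
    rw [h2]
    field_simp

theorem dist_g_le (x y x' y' : B) {s t : ℝ} (hs : s ∈ Icc (0 : ℝ) 1) (ht : t ∈ Icc (0 : ℝ) 1) :
    dist (G.g x y s) (G.g x' y' t) ≤ dist x x' + dist y y' + |t - s| * dist x' y' := by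
  have h1 := dist_triangle (G.g x y s) (G.g x' y' s) (G.g x' y' t)
  have h2 := G.cv x y x' y' s hs
  have h3 : dist (G.g x' y' s) (G.g x' y' t) = |t - s| * dist x' y' := by
    rcases le_total s t with h | h
    · rw [G.dist_g x' y' hs ht h, abs_of_nonneg (by linarith)]
    · rw [dist_comm, G.dist_g x' y' ht hs h, abs_of_nonpos (by linarith)]; ring
  have h4 := dist_nonneg (x := x) (y := x')
  have h5 := dist_nonneg (x := y) (y := y')
  have h6 := hs.1
  have h7 := hs.2
  nlinarith

theorem tendsto_g {ι : Type*} {l : Filter ι} {x y : ι → B} {t : ι → ℝ} {x0 y0 : B} {t0 : ℝ}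
    (hx : Filter.Tendsto x l (nhds x0)) (hy : Filter.Tendsto y l (nhds y0))
    (ht : Filter.Tendsto t l (nhds t0)) (h1 : ∀ i, t i ∈ Icc (0 : ℝ) 1) :
    Filter.Tendsto (fun i => G.g (x i) (y i) (t i)) l (nhds (G.g x0 y0 t0)) := by
  rcases l.eq_or_neBot with rfl | hl
  · exact Filter.tendsto_bot
  have h0 : t0 ∈ Icc (0 : ℝ) 1 := isClosed_Icc.mem_of_tendsto ht (Filter.Eventually.of_forall h1)
  rw [tendsto_iff_dist_tendsto_zero] at hx hy ⊢
  have h2 : Filter.Tendsto (fun i => dist (x i) x0 + dist (y i) y0 + |t0 - t i| * dist x0 y0) l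
      (nhds (0 + 0 + |t0 - t0| * dist x0 y0)) :=
    (hx.add hy).add (((tendsto_const_nhds.sub ht).abs).mul_const _)
  have h3 : (0 : ℝ) + 0 + |t0 - t0| * dist x0 y0 = 0 := by simp
  rw [h3] at h2
  exact squeeze_zero (fun _ => dist_nonneg) (fun i => G.dist_g_le _ _ _ _ (h1 i) h0) h2

theorem continuous_g {X : Type*} [TopologicalSpace X] {x y : X → B} {t : X → ℝ}
    (hx : Continuous x) (hy : Continuous y) (ht : Continuous t)
    (h1 : ∀ i, t i ∈ Icc (0 : ℝ) 1) : Continuous (fun i => G.g (x i) (y i) (t i)) :=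
  continuous_iff_continuousAt.2 fun _ => G.tendsto_g hx.continuousAt hy.continuousAt
    ht.continuousAt h1

end Bus

end Pool.Agent.H84.M
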