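import Pool.Agent.H84.M.Man
import Pool.Agent.H84.M.Defs

set_option autoImplicit false

/-!
From locally Busemann spaces with the measure contraction property to the abstract setting.
-/

namespace Pool.Agent.H84.M

open Set MeasureTheory Metric

variable {X : Type*} [MetricSpace X]

theorem geod_of_le {S : Set X} {τ : ℝ → X} (h1 : ∀ t ∈ Icc (0 : ℝ) 1, τ t ∈ S)
    (h2 : ∀ s ∈ Icc (0 : ℝ) 1, ∀ t ∈ Icc (0 : ℝ) 1, s ≤ t →
      dist (τ s) (τ t) = (t - s) * dist (τ 0) (τ 1)) : IsGeodesicIn S τ := by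
  refine ⟨h1, fun s hs t ht => ?_⟩
  rcases le_total s t with h | h
  · rw [h2 s hs t ht h, abs_of_nonpos (by linarith)]; ring
  · rw [dist_comm, h2 t ht s hs h, abs_of_nonneg (by linarith)]

theorem IsGeodesicIn.left {S : Set X} {σ : ℝ → X} (h : IsGeodesicIn S σ) {t : ℝ}
    (ht : t ∈ Icc (0 : ℝ) 1) : dist (σ 0) (σ t) = t * dist (σ 0) (σ 1) := by
  rw [h.2 0 ⟨le_rfl, zero_le_one⟩ t ht, zero_sub, abs_neg, abs_of_nonneg ht.1]

theorem IsGeodesicIn.right {S : Set X} {σ : ℝ → X} (h : IsGeodesicIn S σ) {t : ℝ}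
    (ht : t ∈ Icc (0 : ℝ) 1) : dist (σ t) (σ 1) = (1 - t) * dist (σ 0) (σ 1) := by
  rw [h.2 t ht 1 ⟨zero_le_one, le_rfl⟩, abs_sub_comm, abs_of_nonneg (by linarith [ht.2])]

/-- uniqueness of the points between two points of a Busemann space -/
theorem IsBusemann.uniq {S : Set X} (h : IsBusemann S) {σ : ℝ → X} (hσ : IsGeodesicIn S σ) {t : ℝ}
    (ht : t ∈ Icc (0 : ℝ) 1) {z : X} (hz : z ∈ S) (h1 : dist (σ 0) z = t * dist (σ 0) (σ 1))
    (h2 : dist z (σ 1) = (1 - t) * dist (σ 0) (σ 1)) : z = σ t := by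
  rcases eq_or_lt_of_le ht.1 with h0 | h0
  · rw [← h0] at h1 ⊢
    rw [zero_mul, dist_eq_zero] at h1
    exact h1.symm
  rcases eq_or_lt_of_le ht.2 with h01 | h01
  · rw [h01] at h2 ⊢
    rw [sub_self, zero_mul, dist_eq_zero] at h2
    exact h2
  set D := dist (σ 0) (σ 1) with hD
  have hσ0 : σ 0 ∈ S := hσ.1 0 ⟨le_rfl, zero_le_one⟩
  have hσ1 : σ 1 ∈ S := hσ.1 1 ⟨zero_le_one, le_rfl⟩
  obtain ⟨α, hα, hα0, hα1⟩ := h.2.1 _ hσ0 z hz
  obtain ⟨β, hβ, hβ0, hβ1⟩ := h.2.1 z hz _ hσ1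
  have ht1 : 0 < 1 - t := by linarith
  set τ : ℝ → X := fun s => if s ≤ t then α (s / t) else β ((s - t) / (1 - t)) with hτ
  have hτl : ∀ s, s ≤ t → τ s = α (s / t) := fun s hs => if_pos hs
  have hτr : ∀ s, t < s → τ s = β ((s - t) / (1 - t)) := fun s hs => if_neg (not_le.2 hs)
  have hml : ∀ s, 0 ≤ s → s ≤ t → s / t ∈ Icc (0 : ℝ) 1 := fun s h3 h4 =>
    ⟨by positivity, (div_le_one h0).2 h4⟩
  have hmr : ∀ s, t ≤ s → s ≤ 1 → (s - t) / (1 - t) ∈ Icc (0 : ℝ) 1 := fun s h3 h4 =>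
    ⟨div_nonneg (by linarith) ht1.le, (div_le_one ht1).2 (by linarith)⟩
  have hτ0 : τ 0 = σ 0 := by rw [hτl 0 h0.le, zero_div, hα0]
  have hτ1 : τ 1 = σ 1 := by rw [hτr 1 h01, div_self ht1.ne', hβ1]
  have hτt : τ t = z := by rw [hτl t le_rfl, div_self h0.ne', hα1]
  have hdl : ∀ s s', 0 ≤ s → s ≤ s' → s' ≤ t → dist (τ s) (τ s') = (s' - s) * D := by
    intro s s' h3 h4 h5
    rw [hτl s (h4.trans h5), hτl s' h5, hα.2 _ (hml s h3 (h4.trans h5)) _
      (hml s' (h3.trans h4) h5), hα0, hα1, h1, ← sub_div, abs_div, abs_of_nonpos (by linarith),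
      abs_of_pos h0]
    field_simp
    ring
  have hzr : ∀ s', t < s' → s' ≤ 1 → dist z (τ s') = (s' - t) * D := by
    intro s' h4 h5
    have h6 := hβ.left (hmr s' h4.le h5)
    rw [hβ0, hβ1, h2] at h6
    rw [hτr s' h4, h6]
    field_simp
  have hdr : ∀ s s', t < s → s ≤ s' → s' ≤ 1 → dist (τ s) (τ s') = (s' - s) * D := by
    intro s s' h3 h4 h5
    rw [hτr s h3, hτr s' (h3.trans_le h4), hβ.2 _ (hmr s h3.le (h4.trans h5)) _
      (hmr s' (h3.le.trans h4) h5), hβ0, hβ1, h2, ← sub_div, abs_div,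
      abs_of_nonpos (by linarith), abs_of_pos ht1]
    field_simp
    ring
  have hgeo : IsGeodesicIn S τ := by
    refine geod_of_le (fun s hs => ?_) fun s hs s' hs' hss => ?_
    · rcases le_or_gt s t with h3 | h3
      · rw [hτl s h3]; exact hα.1 _ (hml s hs.1 h3)
      · rw [hτr s h3]; exact hβ.1 _ (hmr s h3.le hs.2)
    · rw [hτ0, hτ1]
      rcases le_or_gt s' t with h3 | h3
      · exact hdl s s' hs.1 hss h3
      · rcases le_or_gt s t with h4 | h4
        · apply le_antisymm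
          · have h5 := dist_triangle (τ s) z (τ s')
            have h6 := hdl s t hs.1 h4 le_rfl
            rw [hτt] at h6
            rw [h6, hzr s' h3 hs'.2] at h5
            linarith
          · have h5 := dist_triangle4 (σ 0) (τ s) (τ s') (σ 1)
            have h6 := hdl 0 s le_rfl hs.1 h4
            rw [hτ0] at h6
            have h7 := hdr s' 1 h3 hs'.2 le_rfl
            rw [hτ1] at h7
            rw [h6, h7] at h5
            linarith
        · exact hdr s s' h4 hss hs'.2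
  have hconv := (h.2.2 σ τ hσ hgeo).2 (⟨le_rfl, zero_le_one⟩ : (0 : ℝ) ∈ Icc (0 : ℝ) 1)
    (⟨zero_le_one, le_rfl⟩ : (1 : ℝ) ∈ Icc (0 : ℝ) 1) (by linarith : (0 : ℝ) ≤ 1 - t) h0.le
    (by ring)
  simp only [smul_eq_mul, mul_zero, mul_one, zero_add] at hconv
  rw [hτ0, hτ1, hτt, dist_self, dist_self, mul_zero, mul_zero, add_zero] at hconv
  exact (dist_eq_zero.1 (le_antisymm hconv dist_nonneg)).symm

theorem IsBusemann.conv {S : Set X} (h : IsBusemann S) {σ τ : ℝ → X} (hσ : IsGeodesicIn S σ)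
    (hτ : IsGeodesicIn S τ) {t : ℝ} (ht : t ∈ Icc (0 : ℝ) 1) :
    dist (σ t) (τ t) ≤ (1 - t) * dist (σ 0) (τ 0) + t * dist (σ 1) (τ 1) := by
  have hconv := (h.2.2 σ τ hσ hτ).2 (⟨le_rfl, zero_le_one⟩ : (0 : ℝ) ∈ Icc (0 : ℝ) 1)
    (⟨zero_le_one, le_rfl⟩ : (1 : ℝ) ∈ Icc (0 : ℝ) 1) (by linarith [ht.2] : (0 : ℝ) ≤ 1 - t) ht.1
    (by ring)
  simpa only [smul_eq_mul, mul_zero, mul_one, zero_add] using hconv

theorem const_geod {S : Set X} {x : X} (hx : x ∈ S) : IsGeodesicIn S fun _ => x :=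
  ⟨fun _ _ => hx, fun s _ t _ => by simp⟩

variable {S : Set X} {x0 : X} {R : ℝ}

/-- small balls are convex -/
theorem IsBusemann.mem_ball (h : IsBusemann S) (hx0 : x0 ∈ S) {σ : ℝ → X}
    (hσ : IsGeodesicIn S σ) {t : ℝ} (ht : t ∈ Icc (0 : ℝ) 1)
    (h0 : σ 0 ∈ closedBall x0 R) (h1 : σ 1 ∈ closedBall x0 R) : σ t ∈ closedBall x0 R := by
  have h2 := h.conv hσ (const_geod (x := x0) hx0) ht
  rw [mem_closedBall] at h0 h1 ⊢
  have h3 : (1 - t) * dist (σ 0) x0 ≤ (1 - t) * R :=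
    mul_le_mul_of_nonneg_left h0 (by linarith [ht.2])
  have h4 : t * dist (σ 1) x0 ≤ t * R := mul_le_mul_of_nonneg_left h1 ht.1
  linarith

/-- the chosen geodesic -/
theorem IsBusemann.exists_geod (h : IsBusemann S) (hR : closedBall x0 R ⊆ S)
    (p x : closedBall x0 R) : ∃ σ : ℝ → X, IsGeodesicIn S σ ∧ σ 0 = p ∧ σ 1 = x :=
  h.2.1 _ (hR p.2) _ (hR x.2)

open Classical in
/-- the geodesics of a small ball -/
noncomputable def busOf (h : IsBusemann S) (hx0 : x0 ∈ S) (hR : closedBall x0 R ⊆ S) :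
    Bus (closedBall x0 R) where
  g p x t := if ht : t ∈ Icc (0 : ℝ) 1 then
    ⟨(h.exists_geod hR p x).choose t, h.mem_ball hx0 (h.exists_geod hR p x).choose_spec.1 ht
      (by rw [(h.exists_geod hR p x).choose_spec.2.1]; exact p.2)
      (by rw [(h.exists_geod hR p x).choose_spec.2.2]; exact x.2)⟩ else p
  hl p x t ht := by
    obtain ⟨h1, h2, h3⟩ := (h.exists_geod hR p x).choose_spec
    rw [dif_pos ht, Subtype.dist_eq, Subtype.dist_eq]
    have h4 := h1.left ht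
    rw [h2, h3] at h4
    exact h4
  hr p x t ht := by
    obtain ⟨h1, h2, h3⟩ := (h.exists_geod hR p x).choose_spec
    rw [dif_pos ht, Subtype.dist_eq, Subtype.dist_eq]
    have h4 := h1.right ht
    rw [h2, h3] at h4
    exact h4
  cv p x p' x' t ht := by
    obtain ⟨h1, h2, h3⟩ := (h.exists_geod hR p x).choose_spec
    obtain ⟨h1', h2', h3'⟩ := (h.exists_geod hR p' x').choose_spec
    rw [dif_pos ht, dif_pos ht, Subtype.dist_eq, Subtype.dist_eq, Subtype.dist_eq]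
    have h4 := h.conv h1 h1' ht
    rw [h2, h3, h2', h3'] at h4
    exact h4
  un p x z t ht e1 e2 := by
    obtain ⟨h1, h2, h3⟩ := (h.exists_geod hR p x).choose_spec
    rw [dif_pos ht]
    apply Subtype.ext
    refine h.uniq h1 ht (hR z.2) ?_ ?_
    · rw [h2, h3]; exact e1
    · rw [h2, h3]; exact e2

theorem busOf_geod (h : IsBusemann S) (hx0 : x0 ∈ S) (hR : closedBall x0 R ⊆ S)
    (p x : closedBall x0 R) {t : ℝ} (ht : t ∈ Icc (0 : ℝ) 1) {z : X} (hz : z ∈ S)
    (h1 : dist (p : X) z = t * dist (p : X) x) (h2 : dist z x = (1 - t) * dist (p : X) x) :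
    z = (busOf h hx0 hR).g p x t := by
  obtain ⟨e1, e2, e3⟩ := (h.exists_geod hR p x).choose_spec
  have : ((busOf h hx0 hR).g p x t : X) = (h.exists_geod hR p x).choose t := by
    unfold busOf
    simp only
    rw [dif_pos ht]
  rw [this]
  refine h.uniq e1 ht hz ?_ ?_
  · rw [e2, e3]; exact h1
  · rw [e2, e3]; exact h2

/-- the estimate for `sinh` -/
theorem sinh_ge {u t : ℝ} (ht : 0 ≤ t) (ht1 : t ≤ 1) :
    t * Real.exp (-(u * (1 - t))) * Real.sinh u ≤ Real.sinh (t * u) := by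
  have h1 : t * (1 - Real.exp (-(2 * u))) ≤ 1 - Real.exp (-(2 * (t * u))) := by
    have h2 := convexOn_exp.2 (mem_univ (-(2 * u))) (mem_univ (0 : ℝ)) ht
      (by linarith : (0 : ℝ) ≤ 1 - t) (by ring)
    simp only [smul_eq_mul, mul_zero, add_zero, Real.exp_zero, mul_one] at h2
    have h3 : t * -(2 * u) = -(2 * (t * u)) := by ring
    rw [h3] at h2
    linarith
  have h4 : Real.exp (-(u * (1 - t))) * Real.sinh u =
      Real.exp (t * u) / 2 * (1 - Real.exp (-(2 * u))) := by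
    rw [Real.sinh_eq]
    have e1 : Real.exp (-(u * (1 - t))) * Real.exp u = Real.exp (t * u) := by
      rw [← Real.exp_add]; congr 1; ring
    have e2 : Real.exp (-(u * (1 - t))) * Real.exp (-u) =
        Real.exp (t * u) * Real.exp (-(2 * u)) := by
      rw [← Real.exp_add, ← Real.exp_add]; congr 1; ring
    linear_combination (1 / 2) * e1 - (1 / 2) * e2
  have h5 : Real.sinh (t * u) = Real.exp (t * u) / 2 * (1 - Real.exp (-(2 * (t * u)))) := by
    rw [Real.sinh_eq]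
    have e2 : Real.exp (-(t * u)) = Real.exp (t * u) * Real.exp (-(2 * (t * u))) := by
      rw [← Real.exp_add]; congr 1; ring
    rw [e2]; ring
  rw [mul_assoc, h4, h5]
  have h6 : 0 ≤ Real.exp (t * u) / 2 := by positivity
  nlinarith

/-- lower bound of the density -/
theorem kap_le_coef {K N : ℝ} (hN : 1 ≤ N) {D : ℝ} (hD : 0 < D) : ∃ c0 : ℝ, 0 ≤ c0 ∧
    ∀ t ∈ Ioc (0 : ℝ) 1, ∀ d, 0 < d → d ≤ D → kap ⌈N⌉₊ c0 t ≤ coef K N t d := by
  by_cases h1 : N = 1
  · refine ⟨0, le_rfl, fun t ht d _ _ => ?_⟩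
    unfold kap coef
    rw [if_pos h1, h1]
    simp
  have hN1 : 0 < N - 1 := by
    rcases lt_or_eq_of_le hN with h | h
    · linarith
    · exact absurd h.symm h1
  set κ := K / (N - 1) with hκ
  set lam := Real.sqrt (-κ) with hlam
  have hlam0 : 0 ≤ lam := Real.sqrt_nonneg _
  refine ⟨lam * D * (N - 1), by positivity, fun t ht d hd hdD => ?_⟩
  have hs : t * Real.exp (-(lam * D * (1 - t))) ≤ sK κ (t * d) / sK κ d := by
    unfold sK
    split_ifs with h2
    · have hlam1 : 0 < lam := Real.sqrt_pos.2 (by linarith)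
      have h3 : 0 < Real.sinh (lam * d) := by
        rw [Real.sinh_pos_iff]; positivity
      rw [← hlam, div_div_div_cancel_right₀ hlam1.ne', le_div_iff₀ h3]
      have h4 := sinh_ge (u := lam * d) (t := t) ht.1.le ht.2
      have h5 : lam * (t * d) = t * (lam * d) := by ring
      rw [h5]
      refine le_trans ?_ h4
      have h6 : Real.exp (-(lam * D * (1 - t))) ≤ Real.exp (-(lam * d * (1 - t))) := by
        rw [Real.exp_le_exp]
        have : lam * d * (1 - t) ≤ lam * D * (1 - t) := by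
          have : 0 ≤ 1 - t := by linarith [ht.2]
          gcongr
        linarith
      have := ht.1
      gcongr
    · rw [mul_div_assoc, div_self hd.ne', mul_one]
      have h3 : Real.exp (-(lam * D * (1 - t))) ≤ 1 := by
        rw [Real.exp_le_one_iff]
        have : 0 ≤ lam * D * (1 - t) := mul_nonneg (by positivity) (by linarith [ht.2])
        linarith
      have := ht.1
      nlinarith
  have ht0 := ht.1
  have h2 : (t * Real.exp (-(lam * D * (1 - t)))) ^ (N - 1) ≤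
      (sK κ (t * d) / sK κ d) ^ (N - 1) :=
    Real.rpow_le_rpow (by positivity) hs hN1.le
  unfold coef
  rw [if_neg h1]
  have h3 : kap ⌈N⌉₊ (lam * D * (N - 1)) t ≤ t * (t * Real.exp (-(lam * D * (1 - t)))) ^ (N - 1) := by
    rw [Real.mul_rpow ht0.le (Real.exp_nonneg _), ← Real.exp_mul, ← mul_assoc]
    have e1 : t * t ^ (N - 1) = t ^ N := by
      nth_rw 1 [← Real.rpow_one t]
      rw [← Real.rpow_add ht0]
      congr 1; ring
    rw [e1]
    unfold kap
    have e2 : -(lam * D * (1 - t)) * (N - 1) = -(lam * D * (N - 1) * (1 - t)) := by ring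
    rw [e2]
    refine mul_le_mul_of_nonneg_right ?_ (Real.exp_nonneg _)
    rw [← Real.rpow_natCast]
    exact Real.rpow_le_rpow_of_exponent_ge ht0 ht.2 (Nat.le_ceil N)
  refine h3.trans ?_
  exact mul_le_mul_of_nonneg_left h2 ht0.le

end Pool.Agent.H84.M
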