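import Pool.Agent.H84.M.Frm

set_option autoImplicit false

/-!
The coordinates are injective near the base point for a frame of maximal length.
-/

namespace Pool.Agent.H84.M

open Set MeasureTheory Filter Topology

variable {B : Type*} [MetricSpace B] {G : Bus B} {Q : Set B} {y0 o : B} {ρ : ℝ}

/-- a longer frame -/
theorem Base.longer (hb : Base G Q y0 ρ o) {n : ℕ} {a q : Fin n → B} (hf : Frame G Q o a q)
    {u : B} (hu : o ≠ u) (h0 : ∀ i, G.D (a i) o u = 0) :
    ∃ a' q' : Fin (n + 1) → B, Frame G Q o a' q' := by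
  have hd : 0 < dist o u := dist_pos.2 hu
  obtain ⟨c, hc, hcQ⟩ := Metric.dense_iff.1 hb.dense u (dist o u / 2) (by positivity)
  rw [Metric.mem_ball] at hc
  have hneg : G.D c o u < 0 := by
    refine lt_of_le_of_lt (G.D_le_quot c (Btw.refl_right o u) hu) ?_
    rw [div_lt_iff₀ hd, zero_mul]
    have := dist_triangle_left o u c
    linarith
  set e : Fin n ⊕ Fin 1 ≃ Fin (n + 1) := finSumFinEquiv with he
  set a2 : Fin n ⊕ Fin 1 → B := Sum.elim a (fun _ => c) with ha2
  set q2 : Fin n ⊕ Fin 1 → B := Sum.elim q (fun _ => u) with hq2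
  refine ⟨fun i => a2 (e.symm i), fun j => q2 (e.symm j), fun i => ?_, fun j => ?_, ?_⟩
  · rcases e.symm i with k | k
    · exact hf.ha k
    · exact hcQ
  · rcases e.symm j with k | k
    · exact hf.hq k
    · exact hu
  · set A : Matrix (Fin n) (Fin n) ℝ := Matrix.of fun i j => G.D (a i) o (q j) with hA
    have h1 : (Matrix.of fun i j => G.D (a2 (e.symm i)) o (q2 (e.symm j))) =
        (Matrix.fromBlocks A 0 (Matrix.of fun _ j => G.D c o (q j))
          (Matrix.of fun (_ _ : Fin 1) => G.D c o u)).submatrix e.symm e.symm := by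
      ext i j
      simp only [Matrix.of_apply, Matrix.submatrix_apply]
      rcases e.symm i with k | k <;> rcases e.symm j with l | l
      · simp [ha2, hq2, hA]
      · simp [ha2, hq2, h0]
      · simp [ha2, hq2]
      · simp [ha2, hq2]
    rw [h1, Matrix.det_submatrix_equiv_self, Matrix.det_fromBlocks_zero₁₂]
    refine mul_ne_zero hf.det ?_
    rw [Matrix.det_unique]
    simpa using hneg.ne

/-- injectivity near the base point, or a new direction -/
theorem Base.inj [CompactSpace B] (hb : Base G Q y0 ρ o) {n : ℕ} {a q : Fin n → B}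
    (hf : Frame G Q o a q) (hno : ∀ a' q' : Fin (n + 1) → B, ¬ Frame G Q o a' q') :
    ∃ r > 0, InjOn (crd a) (Metric.ball o r) := by
  by_contra hinj
  push Not at hinj
  have hr : 0 < ρ - dist y0 o := by have := hb.ho; linarith
  have h1 : ∀ k : ℕ, ∃ z w u v : B, z ∈ Metric.ball o (1 / ((k : ℝ) + 1)) ∧
      w ∈ Metric.ball o (1 / ((k : ℝ) + 1)) ∧ (1 / ((k : ℝ) + 1) < ρ - dist y0 o →
        z ≠ w ∧ crd a z = crd a w ∧ Btw z w u ∧ dist w u = ρ ∧ Btw u z v ∧ dist z v = ρ) := by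
    intro k
    have h2 := hinj (1 / ((k : ℝ) + 1)) (by positivity)
    unfold InjOn at h2
    push Not at h2
    obtain ⟨z, hz, w, hw, hzw, hne⟩ := h2
    by_cases hk : 1 / ((k : ℝ) + 1) < ρ - dist y0 o
    · have hz0 : dist y0 z < ρ := by
        have := dist_triangle_right y0 z o
        rw [Metric.mem_ball] at hz
        linarith
      have hw0 : dist y0 w < ρ := by
        have := dist_triangle_right y0 w o
        rw [Metric.mem_ball] at hw
        linarith
      obtain ⟨u, hu, hud⟩ := hb.good.ex w hw0 z hne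
      have huz : u ≠ z := by
        rintro rfl
        unfold Btw at hu
        rw [dist_self] at hu
        have h3 := dist_nonneg (x := w) (y := u)
        have h4 : 0 < dist u w := dist_pos.2 hne
        linarith
      obtain ⟨v, hv, hvd⟩ := hb.good.ex z hz0 u huz
      exact ⟨z, w, u, v, hz, hw, fun _ => ⟨hne, hzw, hu, hud, hv, hvd⟩⟩
    · exact ⟨z, w, z, z, hz, hw, fun h => absurd h hk⟩
  choose z w u v hz hw h1 using h1
  obtain ⟨⟨u0, v0⟩, φ, hφ, hlim⟩ := CompactSpace.tendsto_subseq fun k => (u k, v k)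
  have hulim : Tendsto (fun k => u (φ k)) atTop (𝓝 u0) :=
    (continuous_fst.tendsto _).comp hlim
  have hvlim : Tendsto (fun k => v (φ k)) atTop (𝓝 v0) :=
    (continuous_snd.tendsto _).comp hlim
  have h0 : Tendsto (fun k : ℕ => 1 / ((k : ℝ) + 1)) atTop (𝓝 0) :=
    tendsto_one_div_add_atTop_nhds_zero_nat
  have hz0 : Tendsto z atTop (𝓝 o) := by
    rw [tendsto_iff_dist_tendsto_zero]
    exact squeeze_zero (fun _ => dist_nonneg) (fun k => (Metric.mem_ball.1 (hz k)).le) h0
  have hw0 : Tendsto w atTop (𝓝 o) := by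
    rw [tendsto_iff_dist_tendsto_zero]
    exact squeeze_zero (fun _ => dist_nonneg) (fun k => (Metric.mem_ball.1 (hw k)).le) h0
  have hzlim : Tendsto (fun k => z (φ k)) atTop (𝓝 o) := hz0.comp hφ.tendsto_atTop
  have hwlim : Tendsto (fun k => w (φ k)) atTop (𝓝 o) := hw0.comp hφ.tendsto_atTop
  have hev : ∀ᶠ k in atTop, z (φ k) ≠ w (φ k) ∧ crd a (z (φ k)) = crd a (w (φ k)) ∧
      Btw (z (φ k)) (w (φ k)) (u (φ k)) ∧ dist (w (φ k)) (u (φ k)) = ρ ∧
      Btw (u (φ k)) (z (φ k)) (v (φ k)) ∧ dist (z (φ k)) (v (φ k)) = ρ := by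
    filter_upwards [(h0.comp hφ.tendsto_atTop).eventually_lt_const hr] with k hk using h1 _ hk
  have hou : dist o u0 = ρ := by
    refine tendsto_nhds_unique (hwlim.dist hulim) (Tendsto.congr' ?_ tendsto_const_nhds)
    filter_upwards [hev] with k hk using hk.2.2.2.1.symm
  have hov : dist o v0 = ρ := by
    refine tendsto_nhds_unique (hzlim.dist hvlim) (Tendsto.congr' ?_ tendsto_const_nhds)
    filter_upwards [hev] with k hk using hk.2.2.2.2.2.symm
  have hbuv : Btw u0 o v0 := by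
    unfold Btw
    refine tendsto_nhds_unique ((hulim.dist hzlim).add (hzlim.dist hvlim))
      (Tendsto.congr' ?_ (hulim.dist hvlim))
    filter_upwards [hev] with k hk using Eq.symm hk.2.2.2.2.1
  have hou' : o ≠ u0 := by
    rintro rfl
    rw [dist_self] at hou
    exact hb.good.pos.ne hou
  have hov' : o ≠ v0 := by
    rintro rfl
    rw [dist_self] at hov
    exact hb.good.pos.ne hov
  -- the inequality
  have hkey : ∀ (c x y z : B), Btw x y z → x ≠ y → dist c x = dist c y → dist c y ≤ dist c z := by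
    intro c x y z hb hne he
    have h2 := G.cx c hb
    have h3 : dist y z = dist x z - dist x y := by unfold Btw at hb; linarith
    rw [h3, he] at h2
    have h4 : dist x y * dist c y ≤ dist x y * dist c z := by linarith
    exact le_of_mul_le_mul_left h4 (dist_pos.2 hne)
  have hDu : ∀ i, 0 ≤ G.D (a i) o u0 := by
    intro i
    refine G.le_D _ _ _ fun s hs => ?_
    have hs' : s ∈ Icc (0 : ℝ) 1 := ⟨hs.1.le, hs.2⟩
    unfold Bus.ph
    refine div_nonneg ?_ (mul_nonneg hs.1.le dist_nonneg)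
    rw [sub_nonneg]
    have hlim1 : Tendsto (fun k => G.g (w (φ k)) (u (φ k)) s) atTop (𝓝 (G.g o u0 s)) :=
      G.tendsto_g hwlim hulim tendsto_const_nhds fun _ => hs'
    refine le_of_tendsto_of_tendsto ((tendsto_const_nhds (x := a i)).dist hwlim)
      ((tendsto_const_nhds (x := a i)).dist hlim1) ?_
    filter_upwards [hev] with k hk
    obtain ⟨hne, hcr, hb1, _, _, _⟩ := hk
    have hb2 : Btw (w (φ k)) (G.g (w (φ k)) (u (φ k)) s) (u (φ k)) := G.btw hs'
    exact hkey (a i) _ _ _ (hb2.left' hb1) hne (congrFun hcr i)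
  have hDv : ∀ i, 0 ≤ G.D (a i) o v0 := by
    intro i
    refine G.le_D _ _ _ fun s hs => ?_
    have hs' : s ∈ Icc (0 : ℝ) 1 := ⟨hs.1.le, hs.2⟩
    unfold Bus.ph
    refine div_nonneg ?_ (mul_nonneg hs.1.le dist_nonneg)
    rw [sub_nonneg]
    have hlim1 : Tendsto (fun k => G.g (z (φ k)) (v (φ k)) s) atTop (𝓝 (G.g o v0 s)) :=
      G.tendsto_g hzlim hvlim tendsto_const_nhds fun _ => hs'
    refine le_of_tendsto_of_tendsto ((tendsto_const_nhds (x := a i)).dist hzlim)
      ((tendsto_const_nhds (x := a i)).dist hlim1) ?_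
    filter_upwards [hev] with k hk
    obtain ⟨hne, hcr, hb1, _, hb3, _⟩ := hk
    have hb2 : Btw (z (φ k)) (G.g (z (φ k)) (v (φ k)) s) (v (φ k)) := G.btw hs'
    have hb4 : Btw (u (φ k)) (z (φ k)) (G.g (z (φ k)) (v (φ k)) s) := hb2.left' hb3
    exact hkey (a i) _ _ _ (hb1.symm.right hb4) hne.symm (congrFun hcr i).symm
  have hD0 : ∀ i, G.D (a i) o u0 = 0 := by
    intro i
    have h2 := hb.sm (a i) (hf.ha i) u0 v0 hbuv hou' hov'
    have h3 := hDu i
    have h4 := hDv i
    linarith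
  obtain ⟨a', q', h⟩ := hb.longer hf hou' hD0
  exact hno a' q' h

/-- coordinates at the base point -/
theorem Base.coord [CompactSpace B] [MeasurableSpace B] [BorelSpace B] (hb : Base G Q y0 ρ o)
    {m : Measure B} {N : ℕ} {c0 : ℝ} (hmc : MC G m N c0) :
    ∃ n : ℕ, ∃ a : Fin n → B, ∃ r > 0, InjOn (crd a) (Metric.ball o r) ∧
      ∀ y ∈ Metric.ball o r, ∀ s > 0, ∃ e > 0, ∀ v, dist (crd a y) v < e →
        ∃ z, dist y z < s ∧ crd a z = v := by
  classical
  set P : ℕ → Prop := fun n => ∃ a q : Fin n → B, Frame G Q o a q with hP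
  have hP0 : P 0 := ⟨fun i => i.elim0, fun i => i.elim0, fun i => i.elim0, fun i => i.elim0, by simp⟩
  have hPN : ∀ n, P n → n ≤ N := by
    rintro n ⟨a, q, hf⟩
    obtain ⟨δ, hδ, C, hC, h⟩ := hb.surj hf
    refine hmc.dim_le (F := crd a) (crd_lip a) (w := crd a o) (ρ := δ / 2) (by positivity)
      fun v hv => ?_
    obtain ⟨z, hz, _⟩ := h o (by rw [dist_self]; exact hδ) v (by
      have : dist (crd a o) v ≤ δ / 2 := by
        rw [dist_pi_le_iff (by positivity)]
        intro i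
        rw [Real.dist_eq, abs_sub_comm]
        exact hv i
      linarith)
    exact ⟨z, hz⟩
  set n := Nat.findGreatest P N with hn
  have hPn : P n := Nat.findGreatest_spec (P := P) (m := 0) (Nat.zero_le _) hP0
  have hPn1 : ¬ P (n + 1) := by
    intro h
    exact Nat.findGreatest_is_greatest (P := P) (n := N) (k := n + 1) (by omega) (hPN _ h) h
  obtain ⟨a, q, hf⟩ := hPn
  obtain ⟨r, hr, hinj⟩ := hb.inj hf (fun a' q' h => hPn1 ⟨a', q', h⟩)
  obtain ⟨δ, hδ, C, hC, h⟩ := hb.surj hf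
  refine ⟨n, a, min r δ, lt_min hr hδ, hinj.mono (Metric.ball_subset_ball (min_le_left _ _)),
    fun y hy s hs => ⟨min δ (s / (2 * C)), lt_min hδ (by positivity), fun v hv => ?_⟩⟩
  obtain ⟨z, hz1, hz2⟩ := h y ((Metric.mem_ball.1 hy).trans_le (min_le_right _ _)) v
    (hv.trans_le (min_le_left _ _))
  refine ⟨z, hz2.trans_lt ?_, hz1⟩
  have h1 : C * dist (crd a y) v ≤ C * (s / (2 * C)) := by
    gcongr
    exact hv.le.trans (min_le_right _ _)
  have h2 : C * (s / (2 * C)) = s / 2 := by field_simp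
  linarith

/-- a euclidean neighbourhood inside `O` -/
def MPt {X : Type*} [TopologicalSpace X] (O : Set X) (x : X) : Prop :=
  ∃ (k : ℕ) (U : Set X) (V : Set (EuclideanSpace ℝ (Fin k))), IsOpen U ∧ x ∈ U ∧ U ⊆ O ∧
    IsOpen V ∧ Nonempty (U ≃ₜ V)

theorem Base.mpt [CompactSpace B] [MeasurableSpace B] [BorelSpace B] (hb : Base G Q y0 ρ o)
    {m : Measure B} {N : ℕ} {c0 : ℝ} (hmc : MC G m N c0) {O : Set B} (hO : IsOpen O)
    (hoO : o ∈ O) : MPt O o := by
  obtain ⟨n, a, r', hr', hinj, hop⟩ := hb.coord hmc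
  obtain ⟨r2, hr2, hball⟩ := Metric.isOpen_iff.1 hO o hoO
  set r := min r' r2 with hrd
  have hr : 0 < r := lt_min hr' hr2
  replace hinj := hinj.mono (Metric.ball_subset_ball (min_le_left r' r2) : Metric.ball o r ⊆ _)
  replace hop : ∀ y ∈ Metric.ball o r, ∀ s > 0, ∃ e > 0, ∀ v, dist (crd a y) v < e →
      ∃ z, dist y z < s ∧ crd a z = v := fun y hy => hop y
        (Metric.ball_subset_ball (min_le_left r' r2) hy)
  set U : Set B := Metric.ball o r with hU
  set L : (Fin n → ℝ) ≃ₜ EuclideanSpace ℝ (Fin n) :=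
    (EuclideanSpace.equiv (Fin n) ℝ).symm.toHomeomorph with hL
  set f : U → EuclideanSpace ℝ (Fin n) := fun x => L (crd a x) with hf
  have hc : Continuous f := L.continuous.comp ((crd_cont a).comp continuous_subtype_val)
  have hi : Function.Injective f := by
    intro x y hxy
    exact Subtype.ext (hinj x.2 y.2 (L.injective hxy))
  have ho : IsOpenMap f := by
    intro W hW
    obtain ⟨W', hW', rfl⟩ := isOpen_induced_iff.1 hW
    have h1 : f '' (Subtype.val ⁻¹' W') = L '' (crd a '' (W' ∩ U)) := by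
      ext v
      constructor
      · rintro ⟨x, hx, rfl⟩
        exact ⟨crd a x, ⟨x, ⟨hx, x.2⟩, rfl⟩, rfl⟩
      · rintro ⟨_, ⟨x, ⟨hx, hxU⟩, rfl⟩, rfl⟩
        exact ⟨⟨x, hxU⟩, hx, rfl⟩
    rw [h1]
    refine L.isOpenMap _ ?_
    rw [Metric.isOpen_iff]
    rintro _ ⟨y, ⟨hy, hyU⟩, rfl⟩
    obtain ⟨s, hs, hball⟩ := Metric.isOpen_iff.1 (hW'.inter Metric.isOpen_ball) y ⟨hy, hyU⟩
    obtain ⟨e, he, h2⟩ := hop y hyU s hs
    refine ⟨e, he, fun v hv => ?_⟩
    obtain ⟨z, hz, hzv⟩ := h2 v (by rw [dist_comm]; exact hv)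
    exact ⟨z, hball (by rw [Metric.mem_ball, dist_comm]; exact hz), hzv⟩
  have hoe : IsOpenEmbedding f := .of_continuous_injective_isOpenMap hc hi ho
  exact ⟨n, U, range f, Metric.isOpen_ball, Metric.mem_ball_self hr,
    (Metric.ball_subset_ball (min_le_right r' r2)).trans hball, hoe.isOpen_range,
    ⟨hoe.toIsEmbedding.toHomeomorph⟩⟩

/-- **abstract form**: manifold points in a compact space with measure contraction -/
theorem exists_mpt [CompactSpace B] [Nonempty B] [MeasurableSpace B] [BorelSpace B]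
    {m : Measure B} {N : ℕ} {c0 : ℝ} (hmc : MC G m N c0) :
    ∃ y : B, ∃ ρ > 0, ∀ O : Set B, IsOpen O → O.Nonempty → (∀ x ∈ O, dist y x < ρ) →
      ∃ x ∈ O, MPt O x := by
  obtain ⟨M, hM⟩ := hmc.mult
  obtain ⟨y, ρ, hρ, h⟩ := exists_good G hmc.nb hM
  refine ⟨y, ρ, hρ, fun O hO hne hOV => ?_⟩
  have hg : Good B y ρ := ⟨hmc.nb, hρ, h⟩
  obtain ⟨x, hx, hsm⟩ := hg.exists_smooth G (countable_range (TopologicalSpace.denseSeq B))
    (TopologicalSpace.denseRange_denseSeq B) hO hne hOV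
  have hb : Base G (range (TopologicalSpace.denseSeq B)) y ρ x :=
    ⟨hg, hOV x hx, hsm, TopologicalSpace.denseRange_denseSeq B⟩
  exact ⟨x, hx, hb.mpt hmc hO hx⟩

end Pool.Agent.H84.M
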