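import Pool.Agent.H84.M.Top

set_option autoImplicit false

/-!
Consequences of the measure contraction property: nonbranching, doubling, dimension.
-/

namespace Pool.Agent.H84.M

open Set MeasureTheory

variable {B : Type*} [MetricSpace B] [MeasurableSpace B]

/-- the contraction factor -/
noncomputable def kap (N : ℕ) (c0 t : ℝ) : ℝ := t ^ N * Real.exp (-(c0 * (1 - t)))

/-- measure contraction -/
structure MC (G : Bus B) (m : Measure B) (N : ℕ) (c0 : ℝ) : Prop where
  fin : m univ < ⊤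
  pos : ∀ U : Set B, IsOpen U → U.Nonempty → 0 < m U
  hc0 : 0 ≤ c0
  mc : ∀ (p : B) (A : Set B), MeasurableSet A → p ∉ A → ∀ t ∈ Ioc (0 : ℝ) 1,
    ENNReal.ofReal (kap N c0 t) * m A ≤ m ((fun x => G.g p x t) '' A)

variable {G : Bus B} {m : Measure B} {N : ℕ} {c0 : ℝ}

theorem kap_nonneg {N : ℕ} {c0 t : ℝ} (ht : 0 ≤ t) : 0 ≤ kap N c0 t := by
  unfold kap; positivity

theorem kap_pos {N : ℕ} {c0 t : ℝ} (ht : 0 < t) : 0 < kap N c0 t := by
  unfold kap; positivity

theorem kap_le_one {N : ℕ} {c0 t : ℝ} (hc : 0 ≤ c0) (ht : 0 ≤ t) (ht1 : t ≤ 1) :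
    kap N c0 t ≤ 1 := by
  unfold kap
  have h1 : t ^ N ≤ 1 := pow_le_one₀ ht ht1
  have h2 : Real.exp (-(c0 * (1 - t))) ≤ 1 := by
    rw [Real.exp_le_one_iff]
    have : 0 ≤ c0 * (1 - t) := mul_nonneg hc (by linarith)
    linarith
  exact mul_le_one₀ h1 (Real.exp_nonneg _) h2

theorem kap_one {N : ℕ} {c0 : ℝ} : kap N c0 1 = 1 := by simp [kap]

theorem kap_cont {N : ℕ} {c0 : ℝ} : Continuous (kap N c0) := by
  unfold kap; fun_prop

theorem MC.real (h : MC G m N c0) {p : B} {A : Set B} (hA : MeasurableSet A) (hp : p ∉ A) {t : ℝ}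
    (ht : t ∈ Ioc (0 : ℝ) 1) {S : Set B} (hS : ∀ x ∈ A, G.g p x t ∈ S) :
    kap N c0 t * (m A).toReal ≤ (m S).toReal := by
  have h1 := (h.mc p A hA hp t ht).trans (measure_mono (t := S) (by
    rintro _ ⟨x, hx, rfl⟩; exact hS x hx))
  have h2 : m S ≠ ⊤ := ((measure_mono (subset_univ S)).trans_lt h.fin).ne
  have h3 := ENNReal.toReal_mono h2 h1
  rwa [ENNReal.toReal_mul, ENNReal.toReal_ofReal (kap_nonneg ht.1.le)] at h3

theorem MC.ne_top (h : MC G m N c0) (S : Set B) : m S ≠ ⊤ :=
  ((measure_mono (subset_univ S)).trans_lt h.fin).ne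

theorem MC.toReal_pos (h : MC G m N c0) {U : Set B} (hU : IsOpen U) (hne : U.Nonempty) :
    0 < (m U).toReal := ENNReal.toReal_pos (h.pos U hU hne).ne' (h.ne_top U)

variable [BorelSpace B]

/-- the key inequality for branching geodesics -/
theorem MC.branch (h : MC G m N c0) {p z1 z2 : B} {T u : ℝ} (hT : 0 < T) (hTu : T < u)
    (hu : u < 1) (hD : dist p z1 = dist p z2) (hp1 : p ≠ z1)
    (hx : G.g p z1 T = G.g p z2 T) (hne : G.g p z1 u ≠ G.g p z2 u) :
    2 * kap N c0 (T / u) * kap N c0 ((1 - u) / (1 - T)) ≤ 1 := by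
  set D := dist p z1 with hDd
  have hD0 : 0 < D := dist_pos.2 hp1
  set x := G.g p z1 T with hxd
  set y1 := G.g p z1 u with hy1
  set y2 := G.g p z2 u with hy2
  have hTm : T ∈ Icc (0 : ℝ) 1 := ⟨hT.le, by linarith⟩
  have hum : u ∈ Icc (0 : ℝ) 1 := ⟨by linarith, hu.le⟩
  have hu0 : 0 < u := by linarith
  have ht : T / u ∈ Ioc (0 : ℝ) 1 := ⟨by positivity, (div_le_one hu0).2 hTu.le⟩
  have hs : (1 - u) / (1 - T) ∈ Ioc (0 : ℝ) 1 :=
    ⟨div_pos (by linarith) (by linarith), (div_le_one (by linarith)).2 (by linarith)⟩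
  have hT1 : (1 - T) ≠ 0 := by linarith
  have hpy1 : dist p y1 = u * D := G.hl p z1 u hum
  have hpy2 : dist p y2 = u * D := by rw [hD]; exact G.hl p z2 u hum
  have hpx : dist p x = T * D := G.hl p z1 T hTm
  have hxz1 : dist x z1 = (1 - T) * D := G.hr p z1 T hTm
  have hxz2 : dist x z2 = (1 - T) * D := by rw [hD, hx]; exact G.hr p z2 T hTm
  have hyz1 : dist y1 z1 = (1 - u) * D := G.hr p z1 u hum
  have hyz2 : dist y2 z2 = (1 - u) * D := by rw [hD]; exact G.hr p z2 u hum
  have hxy1 : dist x y1 = (u - T) * D := G.dist_g p z1 hTm hum hTu.le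
  have hxy2 : dist x y2 = (u - T) * D := by rw [hx, hD]; exact G.dist_g p z2 hTm hum hTu.le
  have e1 : G.g p y1 (T / u) = x := by
    refine (G.un p y1 x _ ⟨ht.1.le, ht.2⟩ ?_ ?_).symm
    · rw [hpx, hpy1]; field_simp
    · rw [hxy1, hpy1]; field_simp
  have e2 : G.g p y2 (T / u) = x := by
    refine (G.un p y2 x _ ⟨ht.1.le, ht.2⟩ ?_ ?_).symm
    · rw [hpx, hpy2]; field_simp
    · rw [hxy2, hpy2]; field_simp
  have e3 : G.g z1 x ((1 - u) / (1 - T)) = y1 := by
    refine (G.un z1 x y1 _ ⟨hs.1.le, hs.2⟩ ?_ ?_).symm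
    · rw [dist_comm z1 y1, dist_comm z1 x, hyz1, hxz1]; field_simp
    · rw [dist_comm y1 x, dist_comm z1 x, hxy1, hxz1]; field_simp; ring
  have e4 : G.g z2 x ((1 - u) / (1 - T)) = y2 := by
    refine (G.un z2 x y2 _ ⟨hs.1.le, hs.2⟩ ?_ ?_).symm
    · rw [dist_comm z2 y2, dist_comm z2 x, hyz2, hxz2]; field_simp
    · rw [dist_comm y2 x, dist_comm z2 x, hxy2, hxz2]; field_simp; ring
  have hyy : 0 < dist y1 y2 := dist_pos.2 hne
  set r := min (dist y1 y2 / 2) (min (u * D) ((1 - T) * D)) with hr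
  have hr0 : 0 < r := by
    refine lt_min (by positivity) (lt_min (by positivity) (mul_pos (by linarith) hD0))
  have hr1 : r ≤ dist y1 y2 / 2 := min_le_left _ _
  have hr2 : r ≤ u * D := (min_le_right _ _).trans (min_le_left _ _)
  have hr3 : r ≤ (1 - T) * D := (min_le_right _ _).trans (min_le_right _ _)
  have hdisj : Disjoint (Metric.ball y1 r) (Metric.ball y2 r) :=
    Metric.ball_disjoint_ball (by linarith)
  have hmap : ∀ (q z : B) (w : B) (t : ℝ), t ∈ Ioc (0 : ℝ) 1 → w ∈ Metric.ball z r →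
      G.g q w t ∈ Metric.ball (G.g q z t) r := by
    intro q z w t ht hw
    rw [Metric.mem_ball] at hw ⊢
    have h1 := G.cv q w q z t ⟨ht.1.le, ht.2⟩
    rw [dist_self, mul_zero, zero_add] at h1
    have h2 := ht.2
    have h3 := ht.1
    have h4 := dist_nonneg (x := w) (y := z)
    nlinarith
  have k1 := h.real (p := p) (A := Metric.ball y1 r ∪ Metric.ball y2 r) (S := Metric.ball x r)
    (Metric.isOpen_ball.union Metric.isOpen_ball).measurableSet (by
      rintro (h1 | h1)
      · rw [Metric.mem_ball, hpy1] at h1; linarith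
      · rw [Metric.mem_ball, hpy2] at h1; linarith) ht (by
      rintro w (hw | hw)
      · have := hmap p y1 w _ ht hw
        rwa [e1] at this
      · have := hmap p y2 w _ ht hw
        rwa [e2] at this)
  rw [measure_union hdisj Metric.isOpen_ball.measurableSet,
    ENNReal.toReal_add (h.ne_top _) (h.ne_top _)] at k1
  have k2 := h.real (p := z1) (A := Metric.ball x r) (S := Metric.ball y1 r)
    Metric.isOpen_ball.measurableSet (by
      rw [Metric.mem_ball, dist_comm, hxz1]; linarith) hs (by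
      intro w hw
      have := hmap z1 x w _ hs hw
      rwa [e3] at this)
  have k3 := h.real (p := z2) (A := Metric.ball x r) (S := Metric.ball y2 r)
    Metric.isOpen_ball.measurableSet (by
      rw [Metric.mem_ball, dist_comm, hxz2]; linarith) hs (by
      intro w hw
      have := hmap z2 x w _ hs hw
      rwa [e4] at this)
  have hm : 0 < (m (Metric.ball x r)).toReal :=
    h.toReal_pos Metric.isOpen_ball ⟨x, Metric.mem_ball_self hr0⟩
  set a := kap N c0 (T / u) with ha
  set b := kap N c0 ((1 - u) / (1 - T)) with hb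
  have ha0 : 0 ≤ a := kap_nonneg ht.1.le
  set X := (m (Metric.ball x r)).toReal with hX
  have k4 : 2 * a * b * X ≤ 1 * X := by
    calc 2 * a * b * X = a * (b * X + b * X) := by ring
      _ ≤ a * ((m (Metric.ball y1 r)).toReal + (m (Metric.ball y2 r)).toReal) := by gcongr
      _ ≤ 1 * X := by rw [one_mul]; exact k1
  exact le_of_mul_le_mul_right k4 hm

theorem MC.nb (h : MC G m N c0) : NB B := by
  intro p x z1 z2 h1 h2 hd hpx
  by_contra hne
  have hD : dist p z1 = dist p z2 := by unfold Btw at h1 h2; linarith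
  have hpx0 : 0 < dist p x := dist_pos.2 hpx
  have hpz1 : p ≠ z1 := by
    rintro rfl
    unfold Btw at h1
    rw [dist_self] at h1
    have := dist_nonneg (x := x) (y := p)
    linarith
  have hpz2 : p ≠ z2 := by
    rintro rfl
    rw [dist_self] at hD
    exact hpz1 (dist_eq_zero.1 hD)
  set E : Set ℝ := {u | u ∈ Icc (0 : ℝ) 1 ∧ G.g p z1 u = G.g p z2 u} with hE
  have hEc : IsCompact E := by
    refine isCompact_Icc.of_isClosed_subset ?_ fun u hu => hu.1
    rw [isClosed_iff_clusterPt]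
    intro u hu
    rw [← mem_closure_iff_clusterPt, mem_closure_iff_seq_limit] at hu
    obtain ⟨v, hv, hvt⟩ := hu
    have hu1 : u ∈ Icc (0 : ℝ) 1 := isClosed_Icc.mem_of_tendsto hvt
      (Filter.Eventually.of_forall fun k => (hv k).1)
    refine ⟨hu1, ?_⟩
    have e1 := G.tendsto_g (tendsto_const_nhds (x := p)) (tendsto_const_nhds (x := z1)) hvt
      (fun k => (hv k).1)
    have e2 := G.tendsto_g (tendsto_const_nhds (x := p)) (tendsto_const_nhds (x := z2)) hvt
      (fun k => (hv k).1)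
    refine tendsto_nhds_unique e1 (e2.congr fun k => (hv k).2.symm)
  have hD0 : 0 < dist p z1 := dist_pos.2 hpz1
  have hx1 : x = G.g p z1 (dist p x / dist p z1) := G.eq_g h1 hpz1
  have hx2 : x = G.g p z2 (dist p x / dist p z1) := by rw [hD]; exact G.eq_g h2 hpz2
  have hxm : dist p x / dist p z1 ∈ E := by
    refine ⟨⟨by positivity, (div_le_one hD0).2 ?_⟩, hx1.symm.trans hx2⟩
    unfold Btw at h1
    have := dist_nonneg (x := x) (y := z1)
    linarith
  obtain ⟨T, hT, hTmax⟩ := hEc.exists_isGreatest ⟨_, hxm⟩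
  have hT0 : 0 < T := lt_of_lt_of_le (by positivity) (hTmax hxm)
  have hT1 : T < 1 := by
    rcases eq_or_lt_of_le hT.1.2 with h3 | h3
    · exfalso
      have := hT.2
      rw [h3, G.g_one, G.g_one] at this
      exact hne this
    · exact h3
  have key : ∀ u ∈ Ioo T 1, 2 * kap N c0 (T / u) * kap N c0 ((1 - u) / (1 - T)) ≤ 1 := by
    intro u hu
    refine h.branch hT0 hu.1 hu.2 hD hpz1 hT.2 fun h4 => ?_
    have h5 := hTmax (show u ∈ E from ⟨⟨by linarith [hu.1], hu.2.le⟩, h4⟩)
    linarith [hu.1]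
  have hlim : Filter.Tendsto (fun u => 2 * kap N c0 (T / u) * kap N c0 ((1 - u) / (1 - T)))
      (nhdsWithin T (Ioi T)) (nhds (2 * kap N c0 (T / T) * kap N c0 ((1 - T) / (1 - T)))) := by
    have hc : ContinuousAt (fun u => 2 * kap N c0 (T / u) * kap N c0 ((1 - u) / (1 - T))) T := by
      refine ContinuousAt.mul (ContinuousAt.mul continuousAt_const ?_) ?_
      · exact kap_cont.continuousAt.comp (continuousAt_const.div continuousAt_id hT0.ne')
      · exact kap_cont.continuousAt.comp ((continuousAt_const.sub continuousAt_id).div_const _)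
    exact hc.tendsto.mono_left nhdsWithin_le_nhds
  rw [div_self hT0.ne', div_self (by linarith : (1 - T) ≠ 0), kap_one] at hlim
  have h6 := le_of_tendsto hlim (by
    filter_upwards [Ioo_mem_nhdsGT hT1] with u hu using key u hu)
  norm_num at h6

/-- contraction of a set which may contain the centre -/
theorem MC.ball_ge (h : MC G m N c0) {x : B} {A : Set B} (hA : MeasurableSet A) {t R : ℝ}
    (ht : t ∈ Ioc (0 : ℝ) 1) (hR : ∀ z ∈ A, t * dist x z < R) (hR0 : 0 < R) :
    kap N c0 t / 2 * (m A).toReal ≤ (m (Metric.ball x R)).toReal := by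
  have hin : ∀ z, t * dist x z < R → G.g x z t ∈ Metric.ball x R := by
    intro z hz
    rw [Metric.mem_ball, dist_comm, G.hl x z t ⟨ht.1.le, ht.2⟩]
    exact hz
  have h1 := h.real (p := x) (A := A \ {x}) (S := Metric.ball x R)
    (hA.diff (measurableSet_singleton x)) (fun h => h.2 rfl) ht (fun z hz => hin z (hR z hz.1))
  have h2 : (m {x}).toReal ≤ (m (Metric.ball x R)).toReal :=
    ENNReal.toReal_mono (h.ne_top _) (measure_mono (by
      rw [singleton_subset_iff]; exact Metric.mem_ball_self hR0))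
  have h3 : (m A).toReal ≤ (m (A \ {x})).toReal + (m {x}).toReal := by
    rw [← ENNReal.toReal_add (h.ne_top _) (h.ne_top _)]
    refine ENNReal.toReal_mono (ENNReal.add_ne_top.2 ⟨h.ne_top _, h.ne_top _⟩) ?_
    refine (measure_mono ?_).trans (measure_union_le _ _)
    intro z hz
    by_cases h4 : z = x
    · right; exact h4
    · left; exact ⟨hz, h4⟩
  have h4 : kap N c0 t ≤ 1 := kap_le_one h.hc0 ht.1.le ht.2
  have h5 : 0 ≤ kap N c0 t := kap_nonneg ht.1.le
  have h6 : 0 ≤ (m {x}).toReal := ENNReal.toReal_nonneg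
  nlinarith

/-- separated sets -/
theorem MC.sep_sum (h : MC G m N c0) {ε : ℝ} {τ : Finset B}
    (hs : ∀ x ∈ τ, ∀ y ∈ τ, x ≠ y → ε ≤ dist x y) {A : Set B}
    (hA : ∀ x ∈ τ, Metric.ball x (ε / 2) ⊆ A) {a : ℝ}
    (ha : ∀ x ∈ τ, a ≤ (m (Metric.ball x (ε / 2))).toReal) :
    (τ.card : ℝ) * a ≤ (m A).toReal := by
  have h1 : m (⋃ x ∈ τ, Metric.ball x (ε / 2)) = ∑ x ∈ τ, m (Metric.ball x (ε / 2)) := by
    refine measure_biUnion_finset ?_ fun x _ => Metric.isOpen_ball.measurableSet
    intro x hx y hy hxy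
    exact Metric.ball_disjoint_ball (by have := hs x hx y hy hxy; linarith)
  have h2 : m (⋃ x ∈ τ, Metric.ball x (ε / 2)) ≤ m A :=
    measure_mono (iUnion₂_subset hA)
  have h3 := ENNReal.toReal_mono (h.ne_top A) h2
  rw [h1, ENNReal.toReal_sum fun x _ => h.ne_top _] at h3
  refine le_trans ?_ h3
  rw [← nsmul_eq_mul]
  exact Finset.card_nsmul_le_sum _ _ _ ha

theorem MC.mult (h : MC G m N c0) : ∃ M : ℕ, Mult B M := by
  have ht : (1 / 22 : ℝ) ∈ Ioc (0 : ℝ) 1 := ⟨by norm_num, by norm_num⟩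
  set κ := kap N c0 (1 / 22) / 2 with hκ
  have hκ0 : 0 < κ := by have := kap_pos (N := N) (c0 := c0) ht.1; positivity
  obtain ⟨M, hM⟩ := exists_nat_gt (1 / κ)
  refine ⟨M, fun ε hε τ hs hd => ?_⟩
  rcases τ.eq_empty_or_nonempty with rfl | ⟨z, hz⟩
  · simp
  set A := Metric.ball z (6 * ε) with hA
  have hApos : 0 < (m A).toReal := h.toReal_pos Metric.isOpen_ball ⟨z, Metric.mem_ball_self (by linarith)⟩
  have h1 := h.sep_sum hs (A := A) (fun x hx => Metric.ball_subset_ball' (by
    have := hd x hx z hz; linarith)) (a := κ * (m A).toReal) (fun x hx => by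
    refine h.ball_ge Metric.isOpen_ball.measurableSet ht (fun w hw => ?_) (by positivity)
    rw [Metric.mem_ball] at hw
    have h2 := hd x hx z hz
    have h3 := dist_triangle_right x w z
    linarith)
  have h2 : (τ.card : ℝ) * κ ≤ 1 := by
    have : (τ.card : ℝ) * κ * (m A).toReal ≤ 1 * (m A).toReal := by linarith
    exact le_of_mul_le_mul_right this hApos
  have h3 : (τ.card : ℝ) ≤ 1 / κ := by rwa [le_div_iff₀ hκ0]
  exact_mod_cast (h3.trans hM.le)

/-- dimension bound -/
theorem MC.dim_le [CompactSpace B] (h : MC G m N c0) {n : ℕ} {F : B → Fin n → ℝ}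
    (hF : ∀ x y i, |F x i - F y i| ≤ dist x y) {w : Fin n → ℝ} {ρ : ℝ} (hρ : 0 < ρ)
    (hsurj : ∀ v : Fin n → ℝ, (∀ i, |v i - w i| ≤ ρ) → ∃ x, F x = v) : n ≤ N := by
  classical
  by_contra hn
  push Not at hn
  obtain ⟨x0, _⟩ := hsurj w (by simp [hρ.le])
  obtain ⟨D, hD⟩ := (Metric.isBounded_of_compactSpace (s := (univ : Set B))).subset_ball x0
  have hD1 : ∀ x y : B, dist x y < 2 * D := by
    intro x y
    have h1 := hD (mem_univ x)
    have h2 := hD (mem_univ y)
    rw [Metric.mem_ball] at h1 h2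
    have := dist_triangle_right x y x0
    linarith
  have hD0 : 0 < D := by have := hD1 x0 x0; rw [dist_self] at this; linarith
  have hmu : 0 < (m univ).toReal := h.toReal_pos isOpen_univ ⟨x0, mem_univ _⟩
  set q := ρ / (4 * D) with hq
  have hq0 : 0 < q := by positivity
  have key : ∀ k : ℕ, q ≤ k → 0 < k → (k : ℝ) ≤ 2 * Real.exp c0 / q ^ N := by
    intro k hk hk0
    have hk0' : (0 : ℝ) < k := by exact_mod_cast hk0
    have hv : ∀ j : Fin n → Fin k, ∃ x, F x = fun i => w i + ρ * ((j i : ℕ) / k) := by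
      intro j
      refine hsurj _ fun i => ?_
      have h1 : ((j i : ℕ) : ℝ) ≤ k := by exact_mod_cast (j i).2.le
      have h2 : ((j i : ℕ) : ℝ) / k ≤ 1 := (div_le_one hk0').2 h1
      have h3 : 0 ≤ ((j i : ℕ) : ℝ) / k := by positivity
      rw [add_sub_cancel_left, abs_of_nonneg (by positivity)]
      nlinarith
    choose f hf using hv
    have hsep : ∀ j j', j ≠ j' → ρ / k ≤ dist (f j) (f j') := by
      intro j j' hjj
      obtain ⟨i, hi⟩ := Function.ne_iff.1 hjj
      refine le_trans ?_ (hF (f j) (f j') i)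
      rw [hf, hf]
      have h1 : w i + ρ * ((j i : ℕ) / k) - (w i + ρ * ((j' i : ℕ) / k)) =
          ρ / k * (((j i : ℕ) : ℝ) - (j' i : ℕ)) := by field_simp; ring
      rw [h1, abs_mul, abs_of_pos (by positivity : 0 < ρ / k)]
      have h2 : (1 : ℝ) ≤ |((j i : ℕ) : ℝ) - (j' i : ℕ)| := by
        have h3 : ((j i : ℕ) : ℤ) - (j' i : ℕ) ≠ 0 := by
          intro h4
          apply hi
          apply Fin.ext
          omega
        have h4 := Int.one_le_abs h3
        exact_mod_cast h4
      have h3 : 0 < ρ / k := by positivity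
      nlinarith
    have hinj : Function.Injective f := by
      intro j j' he
      by_contra hne
      have := hsep j j' hne
      rw [he, dist_self] at this
      have h3 : 0 < ρ / k := by positivity
      linarith
    set τ : Finset B := Finset.univ.image f with hτ
    have hcard : τ.card = k ^ n := by
      rw [hτ, Finset.card_image_of_injective _ hinj]
      simp
    have ht : q / k ∈ Ioc (0 : ℝ) 1 := ⟨by positivity, (div_le_one hk0').2 hk⟩
    have h1 := h.sep_sum (ε := ρ / k) (τ := τ) (by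
      intro x hx y hy hxy
      rw [hτ, Finset.mem_image] at hx hy
      obtain ⟨j, _, rfl⟩ := hx
      obtain ⟨j', _, rfl⟩ := hy
      exact hsep j j' fun h => hxy (by rw [h])) (A := univ) (fun _ _ => subset_univ _)
      (a := kap N c0 (q / k) / 2 * (m univ).toReal) (fun x _ => by
      refine h.ball_ge MeasurableSet.univ ht (fun z _ => ?_) (by positivity)
      have h2 := hD1 x z
      have h3 : q / k * dist x z < q / k * (2 * D) := by
        have := ht.1
        gcongr
      have h4 : q / k * (2 * D) = ρ / k / 2 := by rw [hq]; field_simp; ring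
      linarith)
    have h2 : (τ.card : ℝ) * (kap N c0 (q / k) / 2) ≤ 1 := by
      have : (τ.card : ℝ) * (kap N c0 (q / k) / 2) * (m univ).toReal ≤ 1 * (m univ).toReal := by
        linarith
      exact le_of_mul_le_mul_right this hmu
    rw [hcard] at h2
    push_cast at h2
    have h3 : (q / k) ^ N * Real.exp (-c0) ≤ kap N c0 (q / k) := by
      unfold kap
      have h5 := ht.1
      have h6 := h.hc0
      gcongr
      have : 0 ≤ c0 * (q / k) := by positivity
      nlinarith
    have h4 : (k : ℝ) ^ (N + 1) ≤ (k : ℝ) ^ n :=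
      pow_le_pow_right₀ (by exact_mod_cast hk0) (by omega)
    have h5 : (k : ℝ) ^ (N + 1) * ((q / k) ^ N * Real.exp (-c0)) ≤ 2 := by
      calc (k : ℝ) ^ (N + 1) * ((q / k) ^ N * Real.exp (-c0)) ≤
          (k : ℝ) ^ n * kap N c0 (q / k) := by
            refine mul_le_mul h4 h3 (by positivity) (by positivity)
        _ ≤ 2 := by linarith
    have h6 : (k : ℝ) ^ (N + 1) * ((q / k) ^ N * Real.exp (-c0)) = k * q ^ N * Real.exp (-c0) := by
      rw [div_pow, pow_succ]
      field_simp
    rw [h6] at h5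
    rw [le_div_iff₀ (by positivity)]
    have h7 : Real.exp (-c0) * Real.exp c0 = 1 := by rw [← Real.exp_add]; simp
    calc (k : ℝ) * q ^ N = k * q ^ N * (Real.exp (-c0) * Real.exp c0) := by rw [h7, mul_one]
      _ = k * q ^ N * Real.exp (-c0) * Real.exp c0 := by ring
      _ ≤ 2 * Real.exp c0 := by have := Real.exp_pos c0; gcongr
  obtain ⟨k, hk⟩ := exists_nat_gt (max q (2 * Real.exp c0 / q ^ N))
  have h1 := key k ((le_max_left _ _).trans hk.le) (by
    have h2 : (0 : ℝ) < k := lt_of_lt_of_le hq0 ((le_max_left _ _).trans hk.le)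
    exact_mod_cast h2)
  have h2 := (le_max_right q (2 * Real.exp c0 / q ^ N)).trans_lt hk
  linarith

end Pool.Agent.H84.M
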