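import Pool.Agent.H84.M.Dif

set_option autoImplicit false

/-!
Generic smoothness of the distance functions.
-/

namespace Pool.Agent.H84.M

open Set

variable {B : Type*} [MetricSpace B]

/-- a region in which geodesics can be extended by `ρ` -/
structure Good (B : Type*) [MetricSpace B] (y0 : B) (ρ : ℝ) : Prop where
  nb : NB B
  pos : 0 < ρ
  ex : ∀ x, dist y0 x < ρ → ∀ p, p ≠ x → ∃ z, Btw p x z ∧ dist x z = ρ

/-- the distance to `a` is differentiable at `y` along all geodesics through `y` -/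
def Smooth (G : Bus B) (a y : B) : Prop :=
  ∀ q q', Btw q y q' → y ≠ q → y ≠ q' → G.D a y q + G.D a y q' ≤ 0

theorem Good.uniq {y0 : B} {ρ : ℝ} (h : Good B y0 ρ) {p x z z' : B} (hp : p ≠ x)
    (h1 : Btw p x z) (h2 : dist x z = ρ) (h3 : Btw p x z') (h4 : dist x z' = ρ) : z = z' :=
  h.nb p x z z' h1 h3 (h2.trans h4.symm) hp

/-- points beyond `x` on the geodesic from `p` are on the segment to the extension -/
theorem Good.germ {y0 : B} {ρ : ℝ} (h : Good B y0 ρ) (G : Bus B) {p x z w : B} (hp : p ≠ x)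
    (h1 : Btw p x z) (h2 : dist x z = ρ) (h3 : Btw p x w) (h4 : dist x w ≤ ρ) : Btw x w z := by
  have hxz : x ≠ z := by
    rintro rfl
    rw [dist_self] at h2
    exact h.pos.ne h2
  have ht : dist x w / dist x z ∈ Icc (0 : ℝ) 1 := by
    rw [h2]
    exact ⟨div_nonneg dist_nonneg h.pos.le, (div_le_one h.pos).2 h4⟩
  have h5 : Btw x (G.g x z (dist x w / dist x z)) z := G.btw ht
  have h6 : dist x (G.g x z (dist x w / dist x z)) = dist x w := by
    rw [G.hl _ _ _ ht, h2]
    have := h.pos.ne'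
    field_simp
  have h7 : Btw p x (G.g x z (dist x w / dist x z)) := h5.left' h1
  rw [h.nb p x w _ h3 h7 h6.symm hp]
  exact h5

/-- the derivative in the direction opposite to `p` -/
theorem Good.D_opp {y0 : B} {ρ : ℝ} (h : Good B y0 ρ) (G : Bus B) (a : B) {p x z w : B}
    (hp : p ≠ x) (h1 : Btw p x z) (h2 : dist x z = ρ) (h3 : Btw p x w) (hw : x ≠ w) :
    G.D a x w = G.D a x z := by
  rcases le_total (dist x w) ρ with h4 | h4
  · exact G.D_germ a (h.germ G hp h1 h2 h3 h4) hw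
  · -- the point at distance `ρ` on the segment to `w`
    have h0 : 0 < dist x w := dist_pos.2 hw
    have ht : ρ / dist x w ∈ Ioc (0 : ℝ) 1 := ⟨div_pos h.pos h0, (div_le_one h0).2 h4⟩
    have h5 : Btw x (G.g x w (ρ / dist x w)) w := G.btw ⟨ht.1.le, ht.2⟩
    have h6 : dist x (G.g x w (ρ / dist x w)) = ρ := by
      rw [G.hl _ _ _ ⟨ht.1.le, ht.2⟩]; field_simp
    have h7 : Btw p x (G.g x w (ρ / dist x w)) := h5.left' h3
    have h8 := h.uniq hp h1 h2 h7 h6
    rw [← G.D_germ a h5 (G.g_ne hw ht), ← h8]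

/-- continuity of the extension -/
theorem Good.cont [CompactSpace B] {y0 : B} {ρ : ℝ} (h : Good B y0 ρ) {p x z : B} (hp : p ≠ x)
    (h1 : Btw p x z) (h2 : dist x z = ρ) {ε : ℝ} (hε : 0 < ε) :
    ∃ δ > 0, ∀ p' x' z', dist p' p < δ → dist x' x < δ → Btw p' x' z' → dist x' z' = ρ →
      dist z' z < ε := by
  set T : Set (B × B × B) := {t | dist t.1 t.2.1 + dist t.2.1 t.2.2 = dist t.1 t.2.2 ∧
    dist t.2.1 t.2.2 = ρ ∧ ε ≤ dist t.2.2 z} with hT
  have c1 : Continuous fun t : B × B × B => t.1 := continuous_fst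
  have c2 : Continuous fun t : B × B × B => t.2.1 := continuous_fst.comp continuous_snd
  have c3 : Continuous fun t : B × B × B => t.2.2 := continuous_snd.comp continuous_snd
  have hTc : IsClosed T := by
    refine (isClosed_eq ((c1.dist c2).add (c2.dist c3)) (c1.dist c3)).inter
      ((isClosed_eq (c2.dist c3) continuous_const).inter ?_)
    exact isClosed_le continuous_const (c3.dist continuous_const)
  rcases T.eq_empty_or_nonempty with h0 | h0
  · refine ⟨1, one_pos, fun p' x' z' _ _ h3 h4 => ?_⟩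
    by_contra h5
    push Not at h5
    have : (p', x', z') ∈ T := ⟨h3, h4, h5⟩
    rw [h0] at this
    exact this
  · obtain ⟨t, ht, hmin⟩ := hTc.isCompact.exists_isMinOn h0
      (f := fun t => dist t.1 p + dist t.2.1 x)
      ((c1.dist continuous_const).add (c2.dist continuous_const)).continuousOn
    have hpos : 0 < dist t.1 p + dist t.2.1 x := by
      by_contra h5
      have h6 := dist_nonneg (x := t.1) (y := p)
      have h7 := dist_nonneg (x := t.2.1) (y := x)
      have h8 : dist t.1 p = 0 := by linarith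
      have h9 : dist t.2.1 x = 0 := by linarith
      rw [dist_eq_zero] at h8 h9
      obtain ⟨e1, e2, e3⟩ := ht
      rw [h8, h9] at e1
      rw [h9] at e2
      have := h.uniq hp e1 e2 h1 h2
      rw [this, dist_self] at e3
      linarith
    refine ⟨(dist t.1 p + dist t.2.1 x) / 2, by positivity, fun p' x' z' h3 h4 h5 h6 => ?_⟩
    by_contra h7
    push Not at h7
    have h8 := hmin (show (p', x', z') ∈ T from ⟨h5, h6, h7⟩)
    simp only [mem_ofPred_eq] at h8
    linarith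

/-- the points where the kink of the distance to `a` in the direction of `q` is small -/
def Kset (G : Bus B) (y0 : B) (ρ : ℝ) (a q : B) (η : ℝ) : Set B :=
  {y | dist y0 y < ρ ∧ y ≠ q ∧ ∃ z, Btw q y z ∧ dist y z = ρ ∧ G.D a y q + G.D a y z < η}

theorem Good.isOpen_Kset [CompactSpace B] {y0 : B} {ρ : ℝ} (h : Good B y0 ρ) (G : Bus B)
    (a q : B) (η : ℝ) : IsOpen (Kset G y0 ρ a q η) := by
  rw [Metric.isOpen_iff]
  rintro y ⟨hy0, hyq, z, hz, hzρ, hlt⟩
  have hyz : y ≠ z := by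
    rintro rfl
    rw [dist_self] at hzρ
    exact h.pos.ne hzρ
  set ε := (η - (G.D a y q + G.D a y z)) / 3 with hε
  have hε0 : 0 < ε := by rw [hε]; linarith
  obtain ⟨δ1, hδ1, h1⟩ := G.usc a hyq hε0
  obtain ⟨δ2, hδ2, h2⟩ := G.usc a hyz hε0
  obtain ⟨δ3, hδ3, h3⟩ := h.cont hyq.symm hz hzρ hδ2
  have hr : 0 < ρ - dist y0 y := by linarith
  refine ⟨min (min δ1 δ2) (min δ3 (ρ - dist y0 y)),
    lt_min (lt_min hδ1 hδ2) (lt_min hδ3 hr), fun y' hy' => ?_⟩
  rw [Metric.mem_ball] at hy'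
  have b1 := hy'.trans_le ((min_le_left _ _).trans (min_le_left _ _))
  have b2 := hy'.trans_le ((min_le_left _ _).trans (min_le_right _ _))
  have b3 := hy'.trans_le ((min_le_right _ _).trans (min_le_left _ _))
  have b4 := hy'.trans_le ((min_le_right _ _).trans (min_le_right _ _))
  obtain ⟨hne, h4⟩ := h1 y' q b1 (by rw [dist_self]; exact hδ1)
  have hy'0 : dist y0 y' < ρ := by
    have := dist_triangle y0 y y'
    rw [dist_comm y y'] at this
    linarith
  obtain ⟨z', hz', hzρ'⟩ := h.ex y' hy'0 q hne.symm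
  have h5 := h3 q y' z' (by rw [dist_self]; exact hδ3) b3 hz' hzρ'
  obtain ⟨_, h6⟩ := h2 y' z' b2 h5
  refine ⟨hy'0, hne, z', hz', hzρ', ?_⟩
  have : η = G.D a y q + G.D a y z + 3 * ε := by rw [hε]; ring
  linarith

/-- the kinks on a segment -/
theorem Good.exists_small [CompactSpace B] {y0 : B} {ρ : ℝ} (h : Good B y0 ρ) (G : Bus B)
    (a q : B) {η : ℝ} (hη : 0 < η) {y : B} (hy0 : dist y0 y < ρ) (hyq : y ≠ q) {δ : ℝ}
    (hδ : 0 < δ) : ∃ y' ∈ Kset G y0 ρ a q η, dist y y' < δ := by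
  obtain ⟨w, hw, hwρ⟩ := h.ex y hy0 q hyq.symm
  have hyw : y ≠ w := by
    rintro rfl
    rw [dist_self] at hwρ
    exact h.pos.ne hwρ
  set s1 := min (1 / 2) (min (δ / (2 * ρ)) ((ρ - dist y0 y) / (2 * ρ))) with hs1
  have hρ := h.pos
  have hr : 0 < ρ - dist y0 y := by linarith
  have hs10 : 0 < s1 := lt_min (by norm_num) (lt_min (by positivity) (by positivity))
  have hs1a : s1 ≤ 1 / 2 := min_le_left _ _
  have hs1b : s1 ≤ δ / (2 * ρ) := (min_le_right _ _).trans (min_le_left _ _)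
  have hs1c : s1 ≤ (ρ - dist y0 y) / (2 * ρ) := (min_le_right _ _).trans (min_le_right _ _)
  by_contra hno
  push Not at hno
  obtain ⟨K, hK⟩ := exists_nat_gt (2 / η)
  -- the points
  set Y : ℝ → B := fun s => G.g y w s with hY
  have hmem : ∀ s, 0 ≤ s → s ≤ s1 → s ∈ Icc (0 : ℝ) 1 := fun s h1 h2 => ⟨h1, by linarith⟩
  have hYd : ∀ s, 0 ≤ s → s ≤ s1 → dist y (Y s) = s * ρ := by
    intro s h1 h2
    rw [hY]
    simp only
    rw [G.hl y w s (hmem s h1 h2), hwρ]
  have hYw : ∀ s, 0 ≤ s → s ≤ s1 → Y s ≠ w := by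
    intro s h1 h2 h3
    have h4 := hYd s h1 h2
    rw [h3, hwρ] at h4
    have : s * ρ ≤ 1 / 2 * ρ := by gcongr; linarith
    linarith
  have hYb : ∀ s, 0 ≤ s → s ≤ s1 → Btw q (Y s) w := by
    intro s h1 h2
    exact (G.btw (hmem s h1 h2)).right' hw
  have hYq : ∀ s, 0 ≤ s → s ≤ s1 → Y s ≠ q := by
    intro s h1 h2 h3
    have h4 : Btw y (Y s) w := G.btw (hmem s h1 h2)
    rw [h3] at h4
    have h5 : 0 < dist y q := dist_pos.2 hyq
    unfold Btw at h4 hw
    rw [dist_comm q y] at hw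
    linarith
  have hY0 : ∀ s, 0 ≤ s → s ≤ s1 → dist y0 (Y s) < ρ := by
    intro s h1 h2
    have h3 := dist_triangle y0 y (Y s)
    rw [hYd s h1 h2] at h3
    have h4 : s * ρ ≤ (ρ - dist y0 y) / (2 * ρ) * ρ := by gcongr; linarith
    have h5 : (ρ - dist y0 y) / (2 * ρ) * ρ = (ρ - dist y0 y) / 2 := by field_simp
    linarith
  have hkink : ∀ s, 0 ≤ s → s ≤ s1 → η ≤ G.D a (Y s) q + G.D a (Y s) w := by
    intro s h1 h2
    obtain ⟨z, hz, hzρ⟩ := h.ex (Y s) (hY0 s h1 h2) q (hYq s h1 h2).symm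
    rw [h.D_opp G a (hYq s h1 h2).symm hz hzρ (hYb s h1 h2) (hYw s h1 h2)]
    by_contra h3
    push Not at h3
    have h4 := hno (Y s) ⟨hY0 s h1 h2, hYq s h1 h2, z, hz, hzρ, h3⟩
    rw [hYd s h1 h2] at h4
    have h5 : s * ρ ≤ δ / (2 * ρ) * ρ := by gcongr; linarith
    have h6 : δ / (2 * ρ) * ρ = δ / 2 := by field_simp
    linarith
  have hslope : ∀ s t, 0 ≤ s → s < t → t ≤ s1 → G.D a (Y s) w ≤ -G.D a (Y t) q := by
    intro s t h1 h2 h3
    have hd : dist (Y s) (Y t) = (t - s) * ρ := by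
      rw [hY]
      simp only
      rw [G.dist_g y w (hmem s h1 (by linarith)) (hmem t (by linarith) h3) h2.le, hwρ]
    have hd0 : 0 < dist (Y s) (Y t) := by rw [hd]; exact mul_pos (by linarith) hρ
    have hne : Y s ≠ Y t := dist_pos.1 hd0
    have hle : dist y (Y s) ≤ dist y (Y t) := by
      rw [hYd s h1 (by linarith), hYd t (by linarith) h3]
      gcongr
    have hb1 : Btw y (Y s) (Y t) := G.btw_of_le (G.btw (hmem s h1 (by linarith)))
      (G.btw (hmem t (by linarith) h3)) hle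
    have hb2 : Btw (Y s) (Y t) w := hb1.right (G.btw (hmem t (by linarith) h3))
    have hb3 : Btw (Y t) (Y s) q := by
      have e1 : Btw q (Y s) w := hYb s h1 (by linarith)
      exact (hb2.left' e1).symm
    have h4 := G.D_le_quot a hb2 hne
    have h5 := G.D_le_quot a hb3 hne.symm
    rw [dist_comm (Y t) (Y s)] at h5
    have h6 : (dist a (Y s) - dist a (Y t)) / dist (Y s) (Y t) =
        -((dist a (Y t) - dist a (Y s)) / dist (Y s) (Y t)) := by ring
    rw [h6] at h5
    linarith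
  -- telescoping
  set u : ℕ → ℝ := fun i => s1 * ((i : ℝ) / (K + 1)) with hu
  have hK0 : (0 : ℝ) < K + 1 := by positivity
  have hu0 : ∀ i, 0 ≤ u i := fun i => by simp only [hu]; positivity
  have hu1 : ∀ i, i ≤ K + 1 → u i ≤ s1 := by
    intro i hi
    have : (i : ℝ) / (K + 1) ≤ 1 := (div_le_one hK0).2 (by exact_mod_cast hi)
    simp only [hu]
    nlinarith
  have hult : ∀ i, u i < u (i + 1) := by
    intro i
    simp only [hu]
    push_cast
    gcongr
    linarith
  have htel : ∀ i, i ≤ K + 1 → -G.D a (Y (u 0)) q + i * η ≤ -G.D a (Y (u i)) q := by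
    intro i
    induction i with
    | zero => intro _; simp
    | succ i ih =>
      intro hi
      have h1 := ih (by omega)
      have h2 := hslope (u i) (u (i + 1)) (hu0 i) (hult i) (hu1 _ hi)
      have h3 := hkink (u i) (hu0 i) (hu1 _ (by omega))
      push_cast
      linarith
  have h1 := htel (K + 1) le_rfl
  have h2 := abs_le.1 (G.D_abs a (hYq (u 0) (hu0 0) (hu1 0 (by omega))))
  have h3 := abs_le.1 (G.D_abs a (hYq (u (K + 1)) (hu0 _) (hu1 _ le_rfl)))
  rw [div_lt_iff₀ hη] at hK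
  push_cast at h1
  linarith [h2.1, h2.2, h3.1, h3.2]

/-- generic smoothness -/
theorem Good.exists_smooth [CompactSpace B] {y0 : B} {ρ : ℝ} (h : Good B y0 ρ) (G : Bus B)
    {Q : Set B} (hQ : Q.Countable) (hQd : Dense Q) {O : Set B} (hO : IsOpen O) (hOne : O.Nonempty)
    (hOV : ∀ y ∈ O, dist y0 y < ρ) : ∃ y ∈ O, ∀ a ∈ Q, Smooth G a y := by
  by_cases hsub : Subsingleton B
  · obtain ⟨y, hy⟩ := hOne
    exact ⟨y, hy, fun a _ q q' _ hq _ => absurd (Subsingleton.elim y q) hq⟩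
  rw [not_subsingleton_iff_nontrivial] at hsub
  -- no isolated points
  have hacc : ∀ q : B, Dense {y : B | y ≠ q} := by
    intro q
    rw [Metric.dense_iff]
    intro x r hr
    by_cases hxq : x = q
    · obtain ⟨p, hp⟩ := exists_ne q
      have h0 : 0 < dist q p := dist_pos.2 hp.symm
      set t := min 1 (r / (2 * dist q p)) with ht
      have ht0 : t ∈ Ioc (0 : ℝ) 1 := ⟨lt_min one_pos (by positivity), min_le_left _ _⟩
      refine ⟨G.g q p t, ?_, (G.g_ne hp.symm ht0).symm⟩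
      rw [Metric.mem_ball, dist_comm, hxq, G.hl q p t ⟨ht0.1.le, ht0.2⟩]
      have h1 : t ≤ r / (2 * dist q p) := min_le_right _ _
      have h2 : t * dist q p ≤ r / (2 * dist q p) * dist q p := by gcongr
      have h3 : r / (2 * dist q p) * dist q p = r / 2 := by field_simp
      linarith
    · exact ⟨x, Metric.mem_ball_self hr, hxq⟩
  set V : Set B := {y | dist y0 y < ρ} with hV
  have hVo : IsOpen V := isOpen_lt (continuous_const.dist continuous_id) continuous_const
  have hdense : ∀ (a q : B) (η : ℝ), 0 < η → Dense (Kset G y0 ρ a q η ∪ (closure V)ᶜ) := by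
    intro a q η hη
    rw [dense_iff_inter_open]
    intro U hU hUne
    by_cases h1 : (U ∩ V).Nonempty
    · obtain ⟨y, hyU, hyq⟩ := (hacc q).inter_open_nonempty (U ∩ V) (hU.inter hVo) h1
      obtain ⟨δ, hδ, hball⟩ := Metric.isOpen_iff.1 hU y hyU.1
      obtain ⟨y', hy', hd⟩ := h.exists_small G a q hη hyU.2 hyq hδ
      exact ⟨y', hball (by rw [Metric.mem_ball, dist_comm]; exact hd), Or.inl hy'⟩
    · obtain ⟨x, hx⟩ := hUne
      refine ⟨x, hx, Or.inr fun hxV => h1 ?_⟩
      exact mem_closure_iff.1 hxV U hU hx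
  have hopen : ∀ (a q : B) (η : ℝ), IsOpen (Kset G y0 ρ a q η ∪ (closure V)ᶜ) := fun a q η =>
    (h.isOpen_Kset G a q η).union isClosed_closure.isOpen_compl
  have : Countable Q := hQ.to_subtype
  have hbaire : Dense (⋂ i : Q × Q × ℕ,
      (Kset G y0 ρ (i.1 : B) (i.2.1 : B) (1 / ((i.2.2 : ℝ) + 1)) ∪ (closure V)ᶜ)) :=
    dense_iInter_of_isOpen (fun i => hopen _ _ _) (fun i => hdense _ _ _ (by positivity))
  obtain ⟨y, hyO, hy⟩ := hbaire.inter_open_nonempty O hO hOne
  have hyV : y ∈ V := hOV y hyO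
  refine ⟨y, hyO, fun a ha q q' hb hq hq' => ?_⟩
  have hK : ∀ r ∈ Q, ∀ k : ℕ, y ∈ Kset G y0 ρ a r (1 / ((k : ℝ) + 1)) := by
    intro r hr k
    have := mem_iInter.1 hy (⟨a, ha⟩, ⟨r, hr⟩, k)
    exact this.resolve_right fun h1 => h1 (subset_closure hyV)
  -- zero kinks in the directions of `Q`
  have hK0 : ∀ r ∈ Q, y ≠ r ∧ ∀ z, Btw r y z → dist y z = ρ → G.D a y r + G.D a y z ≤ 0 := by
    intro r hr
    refine ⟨(hK r hr 0).2.1, fun z hz hzρ => ?_⟩
    refine le_of_forall_pos_lt_add fun η hη => ?_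
    obtain ⟨k, hk⟩ := exists_nat_one_div_lt hη
    obtain ⟨_, hne, z', hz', hzρ', hlt⟩ := hK r hr k
    rw [h.uniq hne.symm hz hzρ hz' hzρ']
    linarith
  obtain ⟨z, hz, hzρ⟩ := h.ex y hyV q hq.symm
  rw [h.D_opp G a hq.symm hz hzρ hb hq']
  have hyz : y ≠ z := by
    rintro rfl
    rw [dist_self] at hzρ
    exact h.pos.ne hzρ
  refine le_of_forall_pos_le_add fun η hη => ?_
  rw [zero_add]
  have h0 : 0 < dist y q := dist_pos.2 hq
  have hρ := h.pos
  obtain ⟨δ, hδ, hcont⟩ := h.cont hq.symm hz hzρ (ε := η * ρ / 4) (by positivity)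
  obtain ⟨r, hr, hrq⟩ := Metric.dense_iff.1 hQd q (min δ (η * dist y q / 4))
    (lt_min hδ (by positivity))
  rw [Metric.mem_ball] at hr
  obtain ⟨hyr, h1⟩ := hK0 r hrq
  obtain ⟨z', hz', hzρ'⟩ := h.ex y hyV r hyr.symm
  have h2 := h1 z' hz' hzρ'
  have h3 := hcont r y z' (hr.trans_le (min_le_left _ _)) (by rw [dist_self]; exact hδ) hz' hzρ'
  have hyz' : y ≠ z' := by
    rintro rfl
    rw [dist_self] at hzρ'
    exact h.pos.ne hzρ'
  have h4 := G.D_lip a hq hyr
  have h5 := G.D_lip a hyz hyz'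
  have h6 : 2 * dist q r / dist y q ≤ η / 2 := by
    rw [div_le_iff₀ h0, dist_comm q r]
    have := hr.trans_le (min_le_right _ _)
    linarith
  have h7 : 2 * dist z z' / dist y z ≤ η / 2 := by
    rw [hzρ, div_le_iff₀ h.pos, dist_comm z z']
    linarith
  linarith

end Pool.Agent.H84.M
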