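import Pool.Agent.H84.M.Dim
import Pool.Agent.H84.M.Geo

set_option autoImplicit false

/-!
In a compact finite-dimensional space with unique nonbranching geodesics and convex distance, there
is an open set to all points of which all geodesics can be extended.
-/

namespace Pool.Agent.H84.M

open Set

variable {B : Type*} [MetricSpace B]

/-- homotopy invariance -/
theorem htpy [CompactSpace B] {n : ℕ} {C A : Set B} (hCA : C ⊆ A) {c : List B → ZMod 2} {ε : ℝ}
    (hc1 : ∀ l : List B, l.length = n + 1 → Sm univ ε l → dl c l = 0)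
    (hc2 : ∀ l : List B, l.length = n → Sm A ε l → c l = 0) (hε : 0 < ε)
    {H : ℝ → B → B} (hH : Continuous (Function.uncurry fun (t : Icc (0 : ℝ) 1) (x : B) => H t x))
    (hH0 : ∀ x, H 0 x = x) (hHC : ∀ t ∈ Icc (0 : ℝ) 1, ∀ x ∈ C, H t x = x) :
    ∃ δ > 0, ∃ b : List B → ZMod 2,
      (∀ l : List B, l.length = n → Sm univ δ l → c l + c (l.map (H 1)) = dl b l) ∧
      ∀ l : List B, l.length + 1 = n → Sm C δ l → b l = 0 := by
  have hu := CompactSpace.uniformContinuous_of_continuous hH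
  rw [Metric.uniformContinuous_iff] at hu
  obtain ⟨δ, hδ, hu⟩ := hu ε hε
  have hu' : ∀ s ∈ Icc (0 : ℝ) 1, ∀ t ∈ Icc (0 : ℝ) 1, |s - t| < δ → ∀ x y, dist x y < δ →
      dist (H s x) (H t y) < ε := by
    intro s hs t ht hst x y hxy
    have := @hu (⟨s, hs⟩, x) (⟨t, ht⟩, y) (by
      rw [Prod.dist_eq, max_lt_iff]
      exact ⟨by rw [Subtype.dist_eq, Real.dist_eq]; exact hst, hxy⟩)
    exact this
  obtain ⟨N, hN⟩ := exists_nat_gt (1 / δ)
  have hN0 : (0 : ℝ) < N := lt_trans (by positivity) hN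
  have key : ∀ k : ℕ, k ≤ N → ∃ δ' > 0, ∃ b : List B → ZMod 2,
      (∀ l : List B, l.length = n → Sm univ δ' l → c l + c (l.map (H (k / N))) = dl b l) ∧
      ∀ l : List B, l.length + 1 = n → Sm C δ' l → b l = 0 := by
    intro k
    induction k with
    | zero =>
      intro _
      refine ⟨1, one_pos, fun _ => 0, fun l _ _ => ?_, fun _ _ _ => rfl⟩
      have h1 : l.map (H ((0 : ℕ) / N)) = l := by
        conv_rhs => rw [← List.map_id l]
        refine List.map_congr_left fun x _ => ?_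
        simp [hH0]
      rw [h1, z2]
      exact (dl_zero l _ fun _ _ _ => rfl).symm
    | succ k ih =>
      intro hk
      obtain ⟨δ', hδ', b, hb1, hb2⟩ := ih (by omega)
      have hs : (k / N : ℝ) ∈ Icc (0 : ℝ) 1 := by
        refine ⟨by positivity, (div_le_one hN0).2 ?_⟩
        have : (k : ℝ) ≤ N := by exact_mod_cast (by omega : k ≤ N)
        exact this
      have ht : ((k + 1 : ℕ) / N : ℝ) ∈ Icc (0 : ℝ) 1 := by
        refine ⟨by positivity, (div_le_one hN0).2 ?_⟩
        exact_mod_cast hk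
      have hst : |(k / N : ℝ) - ((k + 1 : ℕ) / N : ℝ)| < δ := by
        have : (k / N : ℝ) - ((k + 1 : ℕ) / N : ℝ) = -(1 / N) := by push_cast; field_simp; ring
        rw [this, abs_neg, abs_of_pos (by positivity), div_lt_iff₀ hN0]
        rw [div_lt_iff₀ hδ] at hN
        linarith
      have hss : |(k / N : ℝ) - (k / N : ℝ)| < δ := by simpa using hδ
      have htt : |((k + 1 : ℕ) / N : ℝ) - ((k + 1 : ℕ) / N : ℝ)| < δ := by simpa using hδ
      refine ⟨min δ δ', lt_min hδ hδ', fun l => b l + pr (H (k / N)) (H ((k + 1 : ℕ) / N)) c l,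
        fun l hl hsm => ?_, fun l hl hsm => ?_⟩
      · have hd : ∀ x ∈ l, ∀ y ∈ l, dist x y < δ := fun x hx y hy =>
          (hsm.2 x hx y hy).trans_le (min_le_left _ _)
        rw [dl_add, ← hb1 l hl (hsm.mono subset_rfl (min_le_right _ _)),
          ← near_id (S := univ) (ε := ε) hc1 hl (fun _ _ => mem_univ _) (fun _ _ => mem_univ _)
          (fun x hx y hy => hu' _ hs _ hs hss x y (hd x hx y hy))
          (fun x hx y hy => hu' _ ht _ ht htt x y (hd x hx y hy))
          (fun x hx y hy => hu' _ hs _ ht hst x y (hd x hx y hy))]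
        have h2 : (2 : ZMod 2) = 0 := rfl
        linear_combination (-c (l.map (H (k / N)))) * h2
      · have hd : ∀ x ∈ l, ∀ y ∈ l, dist x y < δ := fun x hx y hy =>
          (hsm.2 x hx y hy).trans_le (min_le_left _ _)
        simp only
        rw [hb2 l hl (hsm.mono subset_rfl (min_le_right _ _)), zero_add]
        refine pr_zero_of (A := A) (ε := ε) hc2 hl
          (fun x hx => by rw [hHC _ hs x (hsm.1 x hx)]; exact hCA (hsm.1 x hx))
          (fun x hx => by rw [hHC _ ht x (hsm.1 x hx)]; exact hCA (hsm.1 x hx))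
          (fun x hx y hy => hu' _ hs _ hs hss x y (hd x hx y hy))
          (fun x hx y hy => hu' _ ht _ ht htt x y (hd x hx y hy))
          (fun x hx y hy => hu' _ hs _ ht hst x y (hd x hx y hy))
  obtain ⟨δ', hδ', b, hb1, hb2⟩ := key N le_rfl
  refine ⟨δ', hδ', b, fun l hl hs => ?_, hb2⟩
  have := hb1 l hl hs
  rwa [div_self hN0.ne'] at this

/-- the setting of a minimal carrier of a class of top degree -/
structure Carrier (n : ℕ) (C K : Set B) (c : List B → ZMod 2) : Prop where
  hmax : ∀ T : Set B, IsClosed T → ∀ e : List B → ZMod 2, Cyc (n + 1) univ T e →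
    Bdy (n + 1) univ T e
  hC : IsClosed C
  hK : IsClosed K
  hc : Cyc n univ C c
  hb : ¬ Bdy n (K ∪ C) C c
  hmin : ∀ K' : Set B, IsClosed K' → K' ⊆ K → K' ≠ K → Bdy n (K' ∪ C) C c

/-- a point of the carrier cannot be pushed away -/
theorem Carrier.stable [CompactSpace B] {n : ℕ} {C K : Set B} {c : List B → ZMod 2}
    (hKC : Carrier n C K c) {y : B} (hyK : y ∈ K) (hyC : y ∉ C) {H : ℝ → B → B}
    (hH : Continuous (Function.uncurry fun (t : Icc (0 : ℝ) 1) (x : B) => H t x))
    (hH0 : ∀ x, H 0 x = x) (hHC : ∀ t ∈ Icc (0 : ℝ) 1, ∀ x ∈ C, H t x = x) :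
    ∃ z ∈ K, H 1 z = y := by
  by_contra hno
  push Not at hno
  obtain ⟨hmax, hC, hK, hc, hb, hmin⟩ := hKC
  have hH1 : Continuous (H 1) := by
    have h1 : Continuous fun x : B => ((⟨1, zero_le_one, le_rfl⟩ : Icc (0 : ℝ) 1), x) :=
      continuous_const.prodMk continuous_id
    exact hH.comp h1
  have hno' : ∀ z ∈ K ∪ C, H 1 z ≠ y := by
    rintro z (hz | hz)
    · exact hno z hz
    · rw [hHC 1 ⟨zero_le_one, le_rfl⟩ z hz]
      rintro rfl
      exact hyC hz
  have hKC : IsCompact (K ∪ C) := (hK.union hC).isCompact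
  obtain ⟨w1, hw1, hw1'⟩ : ∃ w > 0, ∀ z ∈ K ∪ C, w ≤ dist (H 1 z) y := by
    obtain ⟨p, hp, hmin⟩ := hKC.exists_isMinOn ⟨y, Or.inl hyK⟩
      (f := fun z => dist (H 1 z) y) (hH1.dist continuous_const).continuousOn
    exact ⟨dist (H 1 p) y, dist_pos.2 (hno' p hp), fun z hz => hmin hz⟩
  obtain ⟨w2, hw2, hw2'⟩ := Metric.isOpen_iff.1 hC.isOpen_compl y hyC
  set w := min w1 w2 with hw
  have hw0 : 0 < w := lt_min hw1 hw2
  set A : Set B := (Metric.ball y w)ᶜ with hA
  have hAc : IsClosed A := Metric.isOpen_ball.isClosed_compl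
  have hCA : C ⊆ A := by
    intro x hx hxw
    exact hw2' (Metric.ball_subset_ball (min_le_right _ _) hxw) hx
  obtain ⟨ε1, hε1, b, hb1, hb2⟩ := hmin (K ∩ A) (hK.inter hAc) inter_subset_left (by
    intro h
    have : y ∈ K ∩ A := by rw [h]; exact hyK
    exact this.2 (Metric.mem_ball_self hw0))
  obtain ⟨ε0, hε0, hc1, hc2⟩ := hc
  have hcyc : Cyc n univ ((K ∪ C) ∩ A) (fun l => c l + dl b l) := by
    refine ⟨min ε0 ε1, lt_min hε0 hε1, fun l hl hs => ?_, fun l hl hs => ?_⟩
    · rw [dl_add, dl_dl, add_zero]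
      exact hc1 l hl (hs.mono subset_rfl (min_le_left _ _))
    · simp only
      rw [hb1 l hl (hs.mono ?_ (min_le_right _ _)), z2]
      rintro x ⟨hx | hx, hxA⟩
      · exact Or.inl ⟨hx, hxA⟩
      · exact Or.inr hx
  obtain ⟨c', ε, hε, h1, h2, h3⟩ := exists_ext hmax (hK.union hC) hAc hcyc
  obtain ⟨δ, hδ, e, he1, he2⟩ := htpy hCA h1 h2 hε hH hH0 hHC
  have hu := CompactSpace.uniformContinuous_of_continuous hH1
  rw [Metric.uniformContinuous_iff] at hu
  obtain ⟨δ1, hδ1, hu⟩ := hu ε hε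
  refine hb ⟨min (min ε1 ε) (min δ δ1), lt_min (lt_min hε1 hε) (lt_min hδ hδ1),
    fun l => b l + e l, fun l hl hs => ?_, fun l hl hs => ?_⟩
  · have h4 := h3 l hl (hs.mono subset_rfl ((min_le_left _ _).trans (min_le_right _ _)))
    have h5 := he1 l hl (hs.mono (subset_univ _) ((min_le_right _ _).trans (min_le_left _ _)))
    have h6 : c' (l.map (H 1)) = 0 := by
      refine h2 _ (by simpa using hl) ⟨fun x hx => ?_, fun x hx z hz => ?_⟩
      · obtain ⟨u, hu1, rfl⟩ := List.mem_map.1 hx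
        rw [hA, mem_compl_iff, Metric.mem_ball, not_lt]
        exact (min_le_left _ _).trans (hw1' u (hs.1 u hu1))
      · obtain ⟨u, hu1, rfl⟩ := List.mem_map.1 hx
        obtain ⟨v, hv1, rfl⟩ := List.mem_map.1 hz
        exact hu ((hs.2 u hu1 v hv1).trans_le ((min_le_right _ _).trans (min_le_right _ _)))
    rw [h6, add_zero, h4] at h5
    rw [dl_add, ← h5]
    have h2 : (2 : ZMod 2) = 0 := rfl
    linear_combination (-dl b l) * h2
  · simp only
    rw [hb2 l hl (hs.mono subset_rfl ((min_le_left _ _).trans (min_le_left _ _))),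
      he2 l hl (hs.mono subset_rfl ((min_le_right _ _).trans (min_le_left _ _))), add_zero]

/-- all geodesics to a point of the carrier can be extended in the carrier -/
theorem Carrier.extend [CompactSpace B] (G : Bus B) {n : ℕ} {C K : Set B} {c : List B → ZMod 2}
    (hKC : Carrier n C K c) {y : B} (hyK : y ∈ K) (hyC : y ∉ C) {p : B} (hp : p ≠ y) {δ : ℝ}
    (hδ : 0 < δ) : ∃ z ∈ K, z ≠ y ∧ Btw p y z ∧ dist y z < δ := by
  obtain ⟨w, hw, hw'⟩ := Metric.isOpen_iff.1 hKC.hC.isOpen_compl y hyC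
  set ρ := min δ w with hρ
  have hρ0 : 0 < ρ := lt_min hδ hw
  set θ : B → ℝ := fun x => max 0 (1 - dist x y / ρ) / 2 with hθ
  have hθ0 : ∀ x, 0 ≤ θ x := fun x => by positivity
  have hθ1 : ∀ x, θ x ≤ 1 := by
    intro x
    have h1 : max 0 (1 - dist x y / ρ) ≤ 1 := by
      refine max_le zero_le_one ?_
      have : 0 ≤ dist x y / ρ := by positivity
      linarith
    simp only [hθ]
    linarith
  have hθc : Continuous θ := by
    refine (continuous_const.max (continuous_const.sub ((continuous_id.dist continuous_const).div_const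
      _))).div_const _
  have hθfar : ∀ x, ρ ≤ dist x y → θ x = 0 := by
    intro x hx
    have h1 : 1 ≤ dist x y / ρ := (one_le_div hρ0).2 hx
    simp only [hθ]
    rw [max_eq_left (by linarith), zero_div]
  have hmem : ∀ t ∈ Icc (0 : ℝ) 1, ∀ x, t * θ x ∈ Icc (0 : ℝ) 1 := fun t ht x =>
    ⟨mul_nonneg ht.1 (hθ0 x), mul_le_one₀ ht.2 (hθ0 x) (hθ1 x)⟩
  obtain ⟨z, hz, hzy⟩ := hKC.stable hyK hyC (H := fun t x => G.g x p (t * θ x)) (by
      refine G.continuous_g (X := Icc (0 : ℝ) 1 × B) continuous_snd continuous_const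
        ((continuous_subtype_val.comp continuous_fst).mul (hθc.comp continuous_snd)) ?_
      rintro ⟨t, x⟩
      exact hmem t t.2 x) (by intro x; simp) (by
      intro t _ x hx
      have : θ x = 0 := by
        refine hθfar x ?_
        by_contra h
        push Not at h
        exact hw' (Metric.mem_ball.2 (h.trans_le (min_le_right _ _))) hx
      simp [this])
  simp only [one_mul] at hzy
  have hm : θ z ∈ Icc (0 : ℝ) 1 := ⟨hθ0 z, hθ1 z⟩
  have h1 : z ≠ y := by
    rintro rfl
    have h2 := G.hl z p (θ z) hm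
    rw [hzy, dist_self] at h2
    have h3 : θ z = 1 / 2 := by simp [hθ]
    rw [h3] at h2
    have h4 : 0 < dist z p := dist_pos.2 hp.symm
    linarith
  have h2 : dist z y < ρ := by
    by_contra h
    push Not at h
    rw [hθfar z h, G.g_zero] at hzy
    exact h1 hzy
  have h3 := G.btw (x := z) (y := p) hm
  rw [hzy] at h3
  exact ⟨z, hz, h1, h3.symm, by rw [dist_comm]; exact h2.trans_le (min_le_left _ _)⟩

/-- extension by a definite amount -/
theorem Carrier.extend_far [CompactSpace B] (G : Bus B) {n : ℕ} {C K : Set B}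
    {c : List B → ZMod 2} (hKC : Carrier n C K c) {y : B} (hyK : y ∈ K) {p : B} (hp : p ≠ y)
    {s : ℝ} (hs : 0 ≤ s) (hsC : ∀ x ∈ C, s < dist y x) :
    ∃ z ∈ K, Btw p y z ∧ dist y z = s := by
  set Z : Set B := {z | z ∈ K ∧ dist p y + dist y z = dist p z ∧ dist y z ≤ s} with hZ
  have hZc : IsClosed Z := by
    refine hKC.hK.inter (IsClosed.inter ?_ ?_)
    · exact isClosed_eq (continuous_const.add (continuous_const.dist continuous_id))
        (continuous_const.dist continuous_id)
    · exact isClosed_le (continuous_const.dist continuous_id) continuous_const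
  obtain ⟨z, hz, hmax⟩ := hZc.isCompact.exists_isMaxOn
    ⟨y, hyK, Btw.refl_right p y, by rw [dist_self]; exact hs⟩
    (f := fun z => dist y z) (continuous_const.dist continuous_id).continuousOn
  rcases eq_or_lt_of_le hz.2.2 with h | h
  · exact ⟨z, hz.1, hz.2.1, h⟩
  · exfalso
    have hzC : z ∉ C := fun h1 => absurd (hsC z h1) (not_lt.2 h.le)
    have hzp : p ≠ z := by
      rintro rfl
      have := hz.2.1
      rw [dist_self] at this
      have h1 := dist_nonneg (x := y) (y := p)
      have h2 : 0 < dist p y := dist_pos.2 hp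
      linarith
    obtain ⟨w, hw, hwz, hb, hd⟩ := hKC.extend G hz.1 hzC hzp (δ := s - dist y z) (by linarith)
    have h1 : Btw p y z := hz.2.1
    have h2 : Btw p y w := h1.left hb
    have h3 : Btw y z w := h1.right hb
    have h4 : dist y w = dist y z + dist z w := by unfold Btw at h3; linarith
    have h5 : w ∈ Z := ⟨hw, h2, by rw [h4]; linarith⟩
    have h6 := hmax h5
    simp only [mem_ofPred_eq] at h6
    have h7 : 0 < dist z w := dist_pos.2 hwz.symm
    linarith

/-- nonbranching -/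
def NB (B : Type*) [MetricSpace B] : Prop :=
  ∀ p y z z' : B, Btw p y z → Btw p y z' → dist y z = dist y z' → p ≠ y → z = z'

theorem Carrier.nhds [CompactSpace B] (G : Bus B) (hNB : NB B) {n : ℕ} {C K : Set B}
    {c : List B → ZMod 2} (hKC : Carrier n C K c) {y : B} (hyK : y ∈ K) {R : ℝ} (hR : 0 < R)
    (hRC : ∀ x ∈ C, R ≤ dist y x) : ∀ p, dist y p < R → p ∈ K := by
  intro p hpR
  by_cases hp : p = y
  · rw [hp]; exact hyK
  obtain ⟨q, _, hq, hqd⟩ := hKC.extend_far G hyK hp (s := R / 2) (by positivity)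
    (fun x hx => by have := hRC x hx; linarith)
  have hqy : q ≠ y := by
    rintro rfl
    rw [dist_self] at hqd
    linarith
  obtain ⟨z, hz, hb, hd⟩ := hKC.extend_far G hyK hqy (s := dist y p) dist_nonneg
    (fun x hx => by have := hRC x hx; linarith)
  have := hNB q y p z hq.symm hb hd.symm hqy
  rw [this]; exact hz

/-- an open set with extendable geodesics -/
theorem exists_good [CompactSpace B] [Nonempty B] (G : Bus B) (hNB : NB B) {M : ℕ}
    (hM : Mult B M) : ∃ y : B, ∃ ρ > 0, ∀ x, dist y x < ρ → ∀ p, p ≠ x →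
      ∃ z, Btw p x z ∧ dist x z = ρ := by
  obtain ⟨n, ⟨C, hC, c, hc, hb⟩, hmax⟩ := exists_top hM
  obtain ⟨K, hK, hbK, hmin⟩ := exists_carrier hc hb
  have hcar : Carrier n C K c := ⟨hmax, hC, hK, hc, hbK, hmin⟩
  obtain ⟨y, hyK, hyC⟩ : ∃ y ∈ K, y ∉ C := by
    by_contra h
    push Not at h
    apply hbK
    rw [union_eq_self_of_subset_left h]
    obtain ⟨ε, hε, h1, h2⟩ := hc
    refine ⟨ε, hε, fun _ => 0, fun l hl hs => ?_, fun _ _ _ => rfl⟩
    rw [h2 l hl hs]
    exact (dl_zero l _ fun _ _ _ => rfl).symm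
  obtain ⟨w, hw, hw'⟩ := Metric.isOpen_iff.1 hC.isOpen_compl y hyC
  have hwC : ∀ x ∈ C, w ≤ dist y x := by
    intro x hx
    by_contra h
    push Not at h
    exact hw' (Metric.mem_ball.2 (by rwa [dist_comm])) hx
  refine ⟨y, w / 3, by positivity, fun x hx p hp => ?_⟩
  have hxK : x ∈ K := hcar.nhds G hNB hyK hw hwC x (by linarith)
  obtain ⟨z, _, h1, h2⟩ := hcar.extend_far G hxK hp (s := w / 3) (by positivity) (fun u hu => by
    have h1 := hwC u hu
    have h2 := dist_triangle y x u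
    linarith)
  exact ⟨z, h1, h2⟩

end Pool.Agent.H84.M
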